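import Pool.Agent.Lib.MP_e0e7d6_al.Fill

/-!
Cross ratios and overlaps of geodesics in hyperbolic spaces.
-/

namespace Pool.Agent.Lib.MP_513915_al

open Pool.Agent.Lib.MP_e0e7d6_al

variable {V : Type}

/-- The geodesics from `p` to `q` and from `p'` to `q'` have a short oriented overlap. -/
def CR (X : GS V) (B : ℕ) (p q p' q' : V) : Prop :=
  X.d p q' + X.d q p' ≤ X.d p p' + X.d q q' + B

/-- The set `T` has short overlaps with its translates by the elements satisfying `Out`. -/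
def GM {G : Type} [Group G] [MulAction G V] (X : GS V) (Out : G → Prop) (T : Set V) (B : ℕ) :
    Prop :=
  ∀ a, Out a → ∀ t1 ∈ T, ∀ t2 ∈ T, ∀ s1 ∈ T, ∀ s2 ∈ T, CR X B (a • t1) (a • t2) s1 s2

variable {X : GS V} {δ : ℕ}

theorem GM.mono {G : Type} [Group G] [MulAction G V] {Out : G → Prop} {T : Set V} {B B' : ℕ}
    (h : GM X Out T B) (hB : B ≤ B') : GM X Out T B' := fun a ha t1 h1 t2 h2 s1 h3 s2 h4 => by
  have := h a ha t1 h1 t2 h2 s1 h3 s2 h4
  unfold CR at *
  omega

theorem GM.scale {G : Type} [Group G] [MulAction G V] {Out : G → Prop} {T : Set V} {B M : ℕ}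
    (hM : 0 < M) (h : GM X Out T B) : GM (X.scale M hM) Out T (B + 2) := by
  intro a ha t1 h1 t2 h2 s1 h3 s2 h4
  have h0 := h a ha t1 h1 t2 h2 s1 h3 s2 h4
  have a1 := GS.mul_scale_le (X := X) (hM := hM) (a • t1) s2
  have a2 := GS.mul_scale_le (X := X) (hM := hM) (a • t2) s1
  have a3 := GS.le_mul_scale (X := X) (hM := hM) (a • t1) s1
  have a4 := GS.le_mul_scale (X := X) (hM := hM) (a • t2) s2
  have a5 : B ≤ M * B := Nat.le_mul_of_pos_left _ hM
  unfold CR at *
  refine Nat.le_of_mul_le_mul_left ?_ hM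
  rw [Nat.mul_add, Nat.mul_add, Nat.mul_add, Nat.mul_add]
  omega

theorem exists_overlap (H : X.Hyp δ) {B r : ℕ} {p q p' q' : V} (h : ¬ CR X B p q p' q')
    (hr : 2 * r + 2 * δ + 2 ≤ B) : ∃ t0, t0 + r ≤ X.d p q ∧
      ∀ x, X.Btw p x q → t0 ≤ X.d p x → X.d p x ≤ t0 + r → X.Near (3 * δ) p' x q' := by
  unfold CR at h
  have t1 := X.d_tri q p p'
  have t2 := X.d_tri p q q'
  have c1 := X.d_comm p q
  refine ⟨(X.d p q + X.d p p' - X.d q p' + δ) / 2 + 1, by omega, fun x bx h1 h2 => ?_⟩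
  have m1 := H.mid (bx.near 0) p'
  have m2 := H.mid (bx.near 0) q'
  have m3 := H p q' q p'
  have t3 := X.d_tri p' x q
  have t4 := X.d_tri q' x p
  have := X.d_comm p' p
  have := X.d_comm p' q
  have := X.d_comm q' p
  have := X.d_comm q' q
  have := X.d_comm q' x
  have := X.d_comm q' p'
  have := X.d_comm x p
  unfold GS.Btw at bx
  unfold GS.Near
  omega

theorem le_of_overlap (H : X.Hyp δ) {B ε : ℕ} {p q p' q' x y : V} (h1 : CR X B p q p' q')
    (h2 : CR X B p q q' p') (a1 : X.Near ε p x q) (a2 : X.Near ε p y q) (a3 : X.Near ε p' x q')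
    (a4 : X.Near ε p' y q') : 2 * X.d x y ≤ B + 4 * ε + 3 * δ := by
  have n1 := H.near_near a1 a2
  have n2 := H.near_near a3 a4
  have m := H p q p' q'
  have := X.d_tri p x p'
  have := X.d_tri q y q'
  have := X.d_tri p y p'
  have := X.d_tri q x q'
  have := X.d_tri p x q'
  have := X.d_tri q y p'
  have := X.d_tri p y q'
  have := X.d_tri q x p'
  have := X.d_comm x p'
  have := X.d_comm y p'
  have := X.d_comm x q
  have := X.d_comm y q
  unfold CR GS.Near at *
  omega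

/-- A path covers a geodesic up to a logarithmic error. -/
theorem log_cover (H : X.Hyp δ) {x : ℕ → V} {L : ℕ} (hL : ∀ i, X.d (x i) (x (i + 1)) ≤ L)
    (J : ℕ) : ∀ a n z, n ≤ 2 ^ J → X.Btw (x a) z (x (a + n)) →
      ∃ s, a ≤ s ∧ s ≤ a + n ∧ X.d z (x s) ≤ L + 2 * δ * J := by
  induction J with
  | zero =>
    intro a n z hn hz
    refine ⟨a, le_rfl, by omega, ?_⟩
    have := X.d_comm z (x a)
    have := hL a
    have := X.d_self (x a)
    unfold GS.Btw at hz
    obtain rfl | rfl : n = 0 ∨ n = 1 := by omega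
    · rw [Nat.add_zero] at hz
      omega
    · omega
  | succ J ih =>
    intro a n z hn hz
    rw [pow_succ] at hn
    obtain ⟨m, hm, dm⟩ := H.slim hz (x (a + n / 2))
    have key : ∃ s, a ≤ s ∧ s ≤ a + n ∧ X.d m (x s) ≤ L + 2 * δ * J := by
      rcases hm with hm | hm
      · obtain ⟨s, h1, h2, h3⟩ := ih a (n / 2) m (by omega) hm
        exact ⟨s, h1, by omega, h3⟩
      · obtain ⟨s, h1, h2, h3⟩ := ih (a + n / 2) (n - n / 2) m (by omega)
          (by rwa [show a + n / 2 + (n - n / 2) = a + n by omega])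
        exact ⟨s, by omega, by omega, h3⟩
    obtain ⟨s, h1, h2, h3⟩ := key
    refine ⟨s, h1, h2, ?_⟩
    have := X.d_tri z m (x s)
    rw [Nat.mul_succ]
    omega

theorem chain_ivt {L : Set V} {h : ℕ} {u v : V}
    (hc : Relation.ReflTransGen (fun a b => b ∈ L ∧ X.d a b ≤ h) u v) (hu : u ∈ L) (t : ℕ)
    (ht : t ≤ X.d u v) : ∃ b ∈ L, t ≤ X.d u b ∧ X.d u b ≤ t + h := by
  induction hc with
  | refl => exact ⟨u, hu, ht, by rw [X.d_self]; omega⟩
  | @tail a b _ hab ih =>
    by_cases h1 : t ≤ X.d u a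
    · exact ih h1
    · have := X.d_tri u a b
      exact ⟨b, hab.1, ht, by have := hab.2; omega⟩

theorem seq_ivt {x : ℕ → V} {E : ℕ} (hE : ∀ i, X.d (x i) (x (i + 1)) ≤ E) (M t : ℕ)
    (ht : t ≤ X.d (x 0) (x M)) : ∃ i ≤ M, t ≤ X.d (x 0) (x i) ∧ X.d (x 0) (x i) ≤ t + E := by
  induction M with
  | zero => exact ⟨0, le_rfl, ht, by rw [X.d_self]; omega⟩
  | succ M ih =>
    by_cases h1 : t ≤ X.d (x 0) (x M)
    · obtain ⟨i, hi, h⟩ := ih h1
      exact ⟨i, by omega, h⟩
    · have := X.d_tri (x 0) (x M) (x (M + 1))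
      exact ⟨M + 1, le_rfl, ht, by have := hE M; omega⟩

/-- Two points almost on a geodesic at comparable distances from its origin are close. -/
theorem close_of_near (H : X.Hyp δ) {ε h : ℕ} {u v z b : V} (hz : X.Near ε u z v)
    (hb : X.Near ε u b v) (h1 : X.d u z ≤ X.d u b + h) (h2 : X.d u b ≤ X.d u z + h) :
    X.d z b ≤ h + ε + δ := by
  rcases H.near_near hz hb with k | k <;> omega

end Pool.Agent.Lib.MP_513915_al
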