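import Pool.Agent.Lib.MP_e0e7d6_al.ConeHyp
import Pool.Agent.Lib.MP_e0e7d6_al.ConeRot
import Pool.Agent.Lib.MP_513915_al.Cross

/-!
Comparison of the cone-off with the base space.
-/

set_option linter.unusedSectionVars false

namespace Pool.Agent.Lib.MP_513915_al

open Pool.Agent.Lib.MP_e0e7d6_al Pool.Agent.Lib.MP_e0e7d6_al.Cone

section

variable {V I : Type} {X : GS V} {Y : I → Set V} {ρ : ℕ} {hne : ∀ i, (Y i).Nonempty}

theorem base_or_same (n : ℕ) : ∀ u v : Cone Y ρ, (space X hne ρ).d u v = n →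
    (∃ x, (space X hne ρ).Btw u (base x) v) ∨ ∃ i, 1 ≤ lv i u ∧ 1 ≤ lv i v := by
  choose y0 h0 using id hne
  have z : ∀ u v : Cone Y ρ, lev u = 0 → ∃ x, (space X hne ρ).Btw u (base x) v := fun u v h =>
    ⟨bs y0 u, by rw [← eq_base h]; exact GS.btw_left _ _⟩
  induction n with
  | zero =>
    intro u v h
    obtain rfl := GS.d_zero _ _ _ h
    by_cases hl : lev u = 0
    · exact Or.inl (z u u hl)
    · obtain ⟨i, hi⟩ := exists_lv (u := u) (by omega)
      exact Or.inr ⟨i, by omega, by omega⟩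
  | succ n ih =>
    intro u v h
    by_cases hl : lev u = 0
    · exact Or.inl (z u v hl)
    obtain ⟨m, bm, dm⟩ := GS.exists_btw (X := space X hne ρ) u v 1 (by omega)
    have bm' : (space X hne ρ).d u m + (space X hne ρ).d m v = (space X hne ρ).d u v := bm
    rcases ih m v (by omega) with ⟨x, hx⟩ | ⟨i, h1, h2⟩
    · exact Or.inl ⟨x, (bm.trans_right hx).1⟩
    · rcases (graphGS_one dm).col h0 with ⟨-, c, -⟩ | ⟨j, -, -, c3, c4⟩
      · omega
      · have := lv_le_lev i m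
        obtain rfl : j = i := lv_unique (u := m) (by omega) h1
        exact Or.inr ⟨j, by omega, h2⟩

theorem exists_low (u v : Cone Y ρ) {t : ℕ} (ht : t + (2 * ρ + 1) ≤ (space X hne ρ).d u v) :
    ∃ x, (space X hne ρ).Btw u (base x) v ∧ t ≤ (space X hne ρ).d u (base x) ∧
      (space X hne ρ).d u (base x) ≤ t + (2 * ρ + 1) := by
  obtain ⟨a, ba, da⟩ := GS.exists_btw (X := space X hne ρ) u v t (by omega)
  have ba' : (space X hne ρ).d u a + (space X hne ρ).d a v = (space X hne ρ).d u v := ba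
  obtain ⟨b, bb, db⟩ := GS.exists_btw (X := space X hne ρ) a v (2 * ρ + 1) (by omega)
  rcases base_or_same (X := X) (hne := hne) _ a b rfl with ⟨x, hx⟩ | ⟨i, h1, h2⟩
  · have h1 := (bb.trans_left hx).1
    have h2 := ba.trans_right h1
    have h3 : (space X hne ρ).d u a + (space X hne ρ).d a (base x) =
      (space X hne ρ).d u (base x) := h2.2
    have h4 : (space X hne ρ).d a (base x) + (space X hne ρ).d (base x) b =
      (space X hne ρ).d a b := hx
    exact ⟨x, h2.1, by omega, by omega⟩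
  · have a1 := d_apex (X := X) (hne := hne) h1
    have a2 := d_apex (X := X) (hne := hne) h2
    have := (space X hne ρ).d_tri a (apex i) b
    have := (space X hne ρ).d_comm (apex i) b
    omega

theorem bend_cone {G : Type} [Group G] [MulAction G V] (hX : X.Inv G) (K : Subgroup G) {E : ℕ}
    (hE : 1 ≤ E) (hK : ∀ i, ∀ y ∈ Y i, ∀ y' ∈ Y i, ∃ k ∈ K, X.d y (k • y') ≤ E) (x y : V) :
    ∃ k ∈ K, X.d x (k • y) ≤ E * (space X hne ρ).d (base x) (base y) := by
  choose y0 h0 using id hne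
  have key : ∀ n (u v : Cone Y ρ), Steps (Adj X) n u v →
      ∃ k ∈ K, X.d (bs y0 u) (k • bs y0 v) ≤ E * n := by
    intro n u v h
    induction h with
    | refl u => exact ⟨1, K.one_mem, by rw [one_smul, X.d_self]; omega⟩
    | @cons n a b c hr _ ih =>
      obtain ⟨k, hk, hd⟩ := ih
      have : ∃ k' ∈ K, X.d (bs y0 a) (k' • bs y0 b) ≤ E := by
        rcases hr.col h0 with ⟨c1, -, -⟩ | ⟨j, c1, c2, -, -⟩
        · exact ⟨1, K.one_mem, by rw [one_smul]; omega⟩
        · exact hK j _ c1 _ c2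
      obtain ⟨k', hk', hd'⟩ := this
      refine ⟨k' * k, K.mul_mem hk' hk, ?_⟩
      have t := X.d_tri (bs y0 a) (k' • bs y0 b) ((k' * k) • bs y0 c)
      rw [mul_smul, hX] at t
      rw [mul_smul, Nat.mul_succ]
      omega
  exact key _ (base x) (base y) (steps_gd (conn hne) _ _)

end

theorem cone_tools (κ Δ : ℕ) : ∃ δ ρ0 C : ℕ, 1 ≤ δ ∧ 200 * δ ≤ ρ0 ∧
    ∀ (V I : Type) (X : GS V) (Y : I → Set V) (Q : QFam X Y κ Δ) (ρ : ℕ), ρ0 ≤ ρ →
      (space X Q.ne ρ).Hyp δ ∧
      (∀ (B : ℕ) (p q p' q' : V), CR X B p q p' q' → CR X B p q q' p' →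
        CR (space X Q.ne ρ) (2 * B + C + 8 * ρ) (base p) (base q) (base p') (base q')) ∧
      ∀ (i : I) (u v : V), angle X Q.ne i (base u : Cone Y ρ) (base v) ≤
        2 * (50 * δ * 2 ^ ρ) + X.d (Q.pj i u) (Q.pj i v) := by
  obtain ⟨j, hj⟩ : ∃ j, j = 100 * κ + 4 * Δ := ⟨_, rfl⟩
  obtain ⟨h, hh⟩ : ∃ h, h = 10 * 2 ^ j + 10 := ⟨_, rfl⟩
  obtain ⟨m, hm⟩ := GS.exists_threshold h
  obtain ⟨δ, hδ⟩ : ∃ δ, δ = 3 * m + 8 * h + 1 := ⟨_, rfl⟩
  obtain ⟨E, hE⟩ : ∃ E, E = h + 4 * δ := ⟨_, rfl⟩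
  obtain ⟨C, hC⟩ : ∃ C, C = 11 * κ + 2 * (E * 2 ^ E) := ⟨_, rfl⟩
  refine ⟨δ, 200 * δ + j + 2 + m + E, 8 * C + 6 * κ + 2 * δ + 8, by omega, by omega,
    fun V I X Y Q ρ hρ => ?_⟩
  have hT : 100 * κ + 4 * Δ ≤ 2 ^ j := hj ▸ Nat.lt_two_pow_self.le
  have Γ := Cone.guess (Q := Q) (ρ := ρ) hT (by omega)
  rw [← hh] at Γ
  clear hh
  have N := Γ.near_bound hm
  have H : (space X Q.ne ρ).Hyp δ := (Γ.hyp_of N).mono (by omega)
  have e2 : 2 ^ (j + 2) = 4 * 2 ^ j := by ring
  have half : ∀ (u v : V) (b : Cone Y ρ), b ∈ Lh Q j (base u) (base v) → lev b ≤ ρ →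
      X.Near (11 * κ) u (bp Q b) v := by
    rintro u v b (rfl | ⟨i, k, rfl, -, h2, h3⟩) hl
    · exact (GS.btw_left _ _).near _
    · have hk := h3.le
      unfold up at hl
      rw [lev_mk _ _ _ hk] at hl
      have e : bp Q (up Q i (base u : Cone Y ρ) k) = pa Q i (base u : Cone Y ρ) :=
        bs_mk _ _ _ _ hl
      have h4 : 2 ^ (j + 2) ≤ 2 ^ k := Nat.pow_le_pow_right (by omega) h2
      unfold Hi at h3
      rw [lv_base, lv_base] at h3
      have h5 := Q.pr2 (pa_spec Q i (base u : Cone Y ρ)) (pa_spec Q i (base v : Cone Y ρ))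
        (by omega)
      have h6 := X.d_tri (pa Q i (base u : Cone Y ρ)) (pa Q i (base v : Cone Y ρ)) v
      rw [bp_base, bp_base] at h5
      rw [e]
      unfold GS.Near
      omega
  have tr : ∀ u v x : V, (space X Q.ne ρ).Near (3 * δ) (base u) (base x) (base v) →
      X.Near C u x v := by
    intro u v x hx
    have : ∃ b ∈ LL Q j (base u : Cone Y ρ) (base v), (space X Q.ne ρ).d (base x) b ≤ E := by
      by_cases ht : (space X Q.ne ρ).d (base u) (base x) ≤ (space X Q.ne ρ).d (base u) (base v)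
      · obtain ⟨b, hb, b1, b2⟩ := chain_ivt (Γ.chain _ _) (Γ.left _ _) _ ht
        have := close_of_near H (h := h) hx ((N _ _ b hb).mono (by omega)) (by omega) b2
        exact ⟨b, hb, by omega⟩
      · refine ⟨_, Γ.right _ _, ?_⟩
        unfold GS.Near at hx
        omega
    obtain ⟨b, hb, db⟩ := this
    have l1 := lev_lip (X := X) (hne := Q.ne) b (base x)
    rw [GS.d_comm] at l1
    have l0 : lev (base x : Cone Y ρ) = 0 := rfl
    have d1 := distort (X := X) (hne := Q.ne) (y0 := fun i => (Q.ne i).some) (B := E) (by omega)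
      (base x : Cone Y ρ) b (by omega)
    have d2 : X.d (bp Q b) x ≤ E * 2 ^ E := by
      rw [X.d_comm]
      exact d1.trans (Nat.mul_le_mul_right _ db)
    rw [hC]
    refine GS.Near.move (q := bp Q b) ?_ d2
    rcases hb with (hb | hb) | ⟨z, rfl, bz, -⟩
    · exact half u v b hb (by omega)
    · exact (half v u b hb (by omega)).symm
    · exact bz.near _
  have sh : ∀ (i : I) (u y : V), y ∈ Sh X Q.ne i (base u : Cone Y ρ) →
      X.d y (Q.pj i u) ≤ 50 * δ * 2 ^ ρ := by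
    intro i u y hy
    have m1 : up Q i (base u : Cone Y ρ) (j + 2) ∈ LL Q j (base u) (apex i) :=
      up_mem (by rw [lv_base]; omega) le_rfl (Or.inr (Or.inl (by rw [lv_apex]; omega)))
    have n1 := N _ _ _ m1
    have l1 : lv i (up Q i (base u : Cone Y ρ) (j + 2)) = j + 2 := lv_mk _ _ _ (by omega)
    have d1 := d_apex (X := X) (hne := Q.ne) (i := i) (u := up Q i (base u : Cone Y ρ) (j + 2))
      (by omega)
    have c1 := (space X Q.ne ρ).d_comm (apex i) (up Q i (base u : Cone Y ρ) (j + 2))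
    refine sh_close H (by omega) (by omega) (v := up Q i (base u : Cone Y ρ) (j + 2)) ?_ hy
      ⟨pa_mem Q i (base u : Cone Y ρ), GS.btw_of_le ?_⟩
    · unfold GS.Btw
      unfold GS.Near at n1
      omega
    · have d2 := d_apex_mk (X := X) (hne := Q.ne) (ρ := ρ) (by omega) i _
        (pa_mem Q i (base u : Cone Y ρ))
      have d3 := d_vert (X := X) (hne := Q.ne) (ρ := ρ) i _ (pa_mem Q i (base u : Cone Y ρ))
        (k := j + 2) (k' := ρ) (by omega) (by omega)
      rw [GS.d_comm] at d3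
      unfold up at *
      change (space X Q.ne ρ).d (apex i) (mk i (pa Q i (base u : Cone Y ρ)) _ ρ) +
        (space X Q.ne ρ).d (mk i (pa Q i (base u : Cone Y ρ)) _ ρ) _ ≤ _
      omega
  refine ⟨H, fun B p q p' q' h1 h2 => ?_, fun i u v => ?_⟩
  · by_contra hc
    obtain ⟨t, ht, hx⟩ := exists_overlap H (r := B + 4 * C + 3 * κ + 2 * (2 * ρ + 1) + 1) hc
      (by omega)
    obtain ⟨x, bx, x1, x2⟩ := exists_low (X := X) (hne := Q.ne) (base p : Cone Y ρ) (base q)
      (t := t) (by omega)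
    obtain ⟨y, by', y1, y2⟩ := exists_low (X := X) (hne := Q.ne) (base p : Cone Y ρ) (base q)
      (t := t + (B + 4 * C + 3 * κ + (2 * ρ + 1) + 1)) (by omega)
    have := le_of_overlap Q.hyp h1 h2 (tr _ _ _ (bx.near _)) (tr _ _ _ (by'.near _))
      (tr _ _ _ (hx _ bx x1 (by omega))) (tr _ _ _ (hx _ by' (by omega) (by omega)))
    have := d_base (X := X) (hne := Q.ne) (ρ := ρ) x y
    have := (space X Q.ne ρ).d_tri (base p) (base x) (base y)
    omega
  · obtain ⟨y, hy⟩ := sh_nonempty (X := X) (hne := Q.ne) (ρ := ρ) (i := i) (u := base u)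
      (by omega) (fun e => by cases e)
    obtain ⟨y', hy'⟩ := sh_nonempty (X := X) (hne := Q.ne) (ρ := ρ) (i := i) (u := base v)
      (by omega) (fun e => by cases e)
    have := angle_le hy hy'
    have := sh i u y hy
    have := sh i v y' hy'
    have := X.d_tri y (Q.pj i u) y'
    have := X.d_tri (Q.pj i u) (Q.pj i v) y'
    have := X.d_comm y' (Q.pj i v)
    omega

theorem cone_rot2 {G V I : Type} [Group G] [MulAction G V] [MulAction G I] {X : GS V}
    {Y : I → Set V} [Cone.EqFam G Y] (hne : ∀ i, (Y i).Nonempty) {ρ δ Θ : ℕ}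
    (hX : X.Inv G) (H : (Cone.space X hne ρ).Hyp δ) (hδ : 1 ≤ δ) (hρ : 20 * δ ≤ ρ)
    (hΘ : 50 * δ * 2 ^ ρ ≤ Θ) (Nf : I → Subgroup G)
    (hc : ∀ (g : G) i h, h ∈ Nf i → g * h * g⁻¹ ∈ Nf (g • i)) (hf : ∀ i h, h ∈ Nf i → h • i = i)
    (hr : ∀ i h, h ∈ Nf i → h ≠ 1 → ∀ y ∈ Y i, 21 * Θ < X.d y (h • y)) :
    RotFam G (Cone.space X hne ρ) δ Θ Cone.apex Nf (Cone.angle X hne) := by
  have h1 : 1 ≤ ρ := by omega
  have self : ∀ (i : I) (u : Cone Y ρ), u ≠ Cone.apex i →
      ¬ (Cone.space X hne ρ).Btw u (Cone.apex i) u := fun i u hu b => hu b.eq_of_self.symm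
  refine ⟨Cone.inv hX, H, fun g i => (Cone.smul_apex g i).symm,
    fun i j hij => ?_, hc, hf, Cone.angle_symm, fun i u v w hu hv hw => ?_, Cone.angle_smul hX,
    fun i u v hu hv hb => ?_, fun i h u hh hn hu => ?_⟩
  · have h2 := Cone.lv_lip (X := X) (hne := hne) i (Cone.apex i : Cone Y ρ) (Cone.apex j)
    have h3 : Cone.lv i (Cone.apex j : Cone Y ρ) = 0 := by
      simp only [Cone.lv]
      exact if_neg (Ne.symm hij)
    rw [Cone.lv_apex, h3] at h2
    omega
  · obtain ⟨y1, m1, y2, m2, e1⟩ := Cone.exists_angle (X := X) (hne := hne) h1 hu hv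
    obtain ⟨y3, m3, y4, m4, e2⟩ := Cone.exists_angle (X := X) (hne := hne) h1 hv hw
    have a1 := Cone.angle_le m1 m4
    have a2 := Cone.sh_close H hδ hρ (self i v hv) m2 m3
    have t1 := X.d_tri y1 y2 y3
    have t2 := X.d_tri y1 y3 y4
    omega
  · obtain ⟨y1, m1, y2, m2, e1⟩ := Cone.exists_angle (X := X) (hne := hne) h1 hu hv
    have := Cone.sh_close H hδ hρ hb m1 m2
    omega
  · have hu' : h • u ≠ Cone.apex i := fun e => by
      apply hu
      rw [← inv_smul_smul h u, e, Cone.smul_apex, hf i _ ((Nf i).inv_mem hh)]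
    obtain ⟨y1, m1, y2, m2, e1⟩ := Cone.exists_angle (X := X) (hne := hne) h1 hu hu'
    have m3 := Cone.sh_smul hX h m1
    rw [hf i h hh] at m3
    have a1 := Cone.sh_close H hδ hρ (self i _ hu') m2 m3
    have a2 := hr i h hh hn y1 m1.1
    have t1 := X.d_tri y1 y2 (h • y1)
    omega

section rot

variable {G : Type} [Group G] {W I : Type} [MulAction G W] [MulAction G I] {Z : GS W}
  {δ Θ : ℕ} {c : I → W} {Nf : I → Subgroup G} {ang : I → W → W → ℕ}
  (F : RotFam G Z δ Θ c Nf ang)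
include F

theorem rot_inj {t : W} (ht : ∀ i, t ≠ c i) {n : G} (hn : n ∈ rotAll Nf)
    (ha : ∀ i, ang i t (n • t) ≤ Θ) : n = 1 := by
  have hr := F.red_all t hn
  cases hr with
  | one => rfl
  | fix i _ e _ => exact (ht i e).elim
  | step i h _ hh nu ne h7 _ =>
    have := ha i
    omega

theorem rot_quad {t1 t2 s1 s2 : W} (h1 : ∀ i, t1 ≠ c i) (h2 : ∀ i, t2 ≠ c i)
    (h3 : ∀ i, s1 ≠ c i) (h4 : ∀ i, s2 ≠ c i) (ht : ∀ i, ang i t1 t2 ≤ Θ)
    (hs : ∀ i, ang i s2 s1 ≤ Θ) {n : G} (hn : n ∈ rotAll Nf) (a : G) :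
    ∃ h ∈ rotAll Nf, Z.d s1 ((h * a) • t1) ≤ Z.d s1 (a • t1) ∧
      Z.d ((h * a) • t2) s2 ≤ Z.d (a • t2) (n • s2) := by
  have hr := F.red_all s2 hn
  clear hn
  induction hr generalizing a with
  | one => exact ⟨1, one_mem _, by simp⟩
  | fix i n e _ => exact (h4 i e).elim
  | step i h n hh nu ne ha _ ih =>
    have hm : h ∈ rotAll Nf := Subgroup.subset_closure ⟨i, hh⟩
    have bend : ∀ a b, Z.Btw a (c i) b → Z.d a (h • b) ≤ Z.d a b := by
      intro a b hb
      have := Z.d_tri a (c i) (h • b)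
      have e2 : Z.d (c i) (h • b) = Z.d (c i) b := by
        rw [← F.inv h (c i) b, F.fix_c hh]
      unfold GS.Btw at hb
      omega
    have na : ∀ t, (∀ i, t ≠ c i) → a • t ≠ c i := fun t ht e =>
      ht (a⁻¹ • i) (by rw [F.c_smul, ← e, inv_smul_smul])
    have cases2 : Z.Btw s1 (c i) (a • t1) ∨ Z.Btw (a • t2) (c i) (n • s2) := by
      by_contra hc
      push Not at hc
      have m1 := na t1 h1
      have m2 := na t2 h2
      have e := F.equiv a (a⁻¹ • i) t1 t2
      rw [smul_inv_smul] at e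
      have := ht (a⁻¹ • i)
      have := hs i
      have := F.small i _ _ (h3 i) m1 hc.1
      have := F.small i _ _ m2 ne hc.2
      have := F.tri i s2 s1 (a • t1) nu (h3 i) m1
      have := F.tri i s2 (a • t1) (a • t2) nu m1 m2
      have := F.tri i s2 (a • t2) (n • s2) nu m2 ne
      omega
    rcases cases2 with hb | hb
    · obtain ⟨k, hk, a1, a2⟩ := ih (h * a)
      refine ⟨k * h, mul_mem hk hm, ?_⟩
      simp only [mul_smul, F.inv h] at *
      exact ⟨a1.trans (bend _ _ hb), a2⟩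
    · obtain ⟨k, hk, a1, a2⟩ := ih a
      refine ⟨k, hk, a1, ?_⟩
      rw [mul_smul h] at a2
      exact a2.trans (bend _ _ hb)

end rot

end Pool.Agent.Lib.MP_513915_al
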