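import Pool.Agent.Lib.MP_e62806_an.Gap

/-!
Spectral gap of the averaging operator and conditional bounds for random products.
-/

namespace Pool.Agent.Lib.MP_513915_al

open Finset

section gap

variable {G : Type} [Group G]

/-- Square summable functions. -/
def L2 (f : G → ℝ) : Prop := Summable fun g => f g ^ 2

/-- Square of the norm. -/
noncomputable def nsq (f : G → ℝ) : ℝ := ∑' g, f g ^ 2

/-- Square of the displacement by the translation by `a`. -/
noncomputable def dsq (f : G → ℝ) (a : G) : ℝ := nsq fun g => f g - f (a * g)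

theorem L2.tr {f : G → ℝ} (h : L2 f) (a : G) : L2 fun g => f (a * g) :=
  (Equiv.mulLeft a).summable_iff.2 h

theorem nsq_tr (f : G → ℝ) (a : G) : nsq (fun g => f (a * g)) = nsq f :=
  (Equiv.mulLeft a).tsum_eq fun g => f g ^ 2

omit [Group G] in
theorem L2.sub {f f' : G → ℝ} (h : L2 f) (h' : L2 f') : L2 fun g => f g - f' g :=
  Summable.of_nonneg_of_le (fun _ => sq_nonneg _) (fun g => by nlinarith [sq_nonneg (f g + f' g)])
    ((h.mul_left 2).add (h'.mul_left 2))

omit [Group G] in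
theorem nsq_nonneg (f : G → ℝ) : 0 ≤ nsq f := tsum_nonneg fun _ => sq_nonneg _

theorem dsq_one (f : G → ℝ) : dsq f 1 = 0 := by simp [dsq, nsq]

theorem dsq_inv (f : G → ℝ) (a : G) : dsq f a⁻¹ = dsq f a := by
  unfold dsq
  rw [← nsq_tr _ a]
  unfold nsq
  exact tsum_congr fun g => by beta_reduce; rw [inv_mul_cancel_left]; ring

theorem dsq_mul {f : G → ℝ} (h : L2 f) (a b : G) : dsq f (a * b) ≤ 2 * dsq f a + 2 * dsq f b := by
  have h1 := h.sub (h.tr b)
  have h2 := (h.sub (h.tr a)).tr b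
  unfold dsq
  rw [← nsq_tr (fun g => f g - f (a * g)) b]
  unfold nsq
  rw [← tsum_mul_left, ← tsum_mul_left, ← (h2.mul_left 2).tsum_add (h1.mul_left 2)]
  refine (h.sub (h.tr (a * b))).tsum_le_tsum (fun g => ?_) ((h2.mul_left 2).add (h1.mul_left 2))
  beta_reduce
  rw [mul_assoc]
  nlinarith [sq_nonneg (f g - 2 * f (b * g) + f (a * (b * g)))]

open Pointwise in
theorem free_gap (φ : FreeGroup (Fin 2) →* G) (hφ : Function.Injective φ) {f : G → ℝ} (h : L2 f) :
    nsq f ≤ 6 * (dsq f (φ (FreeGroup.of 0)) + dsq f (φ (FreeGroup.of 1))) := by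
  classical
  obtain ⟨lab, hlab⟩ := Pool.Agent.Lib.MP_e62806_an.exists_label φ hφ
  let A : Fin 2 × Bool → G → ℝ := fun l g => if lab {g} = some l then f g else 0
  have hA : ∀ l, L2 (A l) := fun l =>
    Summable.of_nonneg_of_le (fun _ => sq_nonneg _) (fun g => by
      simp only [A]
      split_ifs
      · exact le_rfl
      · nlinarith [sq_nonneg (f g)]) h
  have key : ∀ i : Fin 2, nsq f ≤ nsq (A (i, true)) + 3 / 2 * nsq (A (i, false)) +
      3 * dsq f (φ (FreeGroup.of i)) := by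
    intro i
    rw [← dsq_inv, ← nsq_tr (A (i, false)) (φ (FreeGroup.of i))⁻¹]
    have h1 := hA (i, true)
    have h2 := ((hA (i, false)).tr (φ (FreeGroup.of i))⁻¹).mul_left (3 / 2)
    have h3 := (h.sub (h.tr (φ (FreeGroup.of i))⁻¹)).mul_left 3
    unfold dsq nsq
    rw [← tsum_mul_left, ← tsum_mul_left, ← h1.tsum_add h2, ← (h1.add h2).tsum_add h3]
    refine h.tsum_le_tsum (fun g => ?_) ((h1.add h2).add h3)
    beta_reduce
    have := sq_nonneg (f g - f ((φ (FreeGroup.of i))⁻¹ * g))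
    rcases hlab i {g} (singleton_ne_empty g) with e | e
    · have := sq_nonneg (A (i, false) ((φ (FreeGroup.of i))⁻¹ * g))
      have e2 : A (i, true) g = f g := if_pos e
      rw [e2]
      linarith
    · rw [smul_finset_singleton, smul_eq_mul] at e
      have e2 : A (i, false) ((φ (FreeGroup.of i))⁻¹ * g) = f ((φ (FreeGroup.of i))⁻¹ * g) :=
        if_pos e
      have := sq_nonneg (A (i, true) g)
      rw [e2]
      nlinarith [sq_nonneg (2 * f g - 3 * f ((φ (FreeGroup.of i))⁻¹ * g))]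
  have tot : nsq (A (0, true)) + nsq (A (0, false)) + nsq (A (1, true)) + nsq (A (1, false)) ≤
      nsq f := by
    unfold nsq
    rw [← (hA _).tsum_add (hA _), ← ((hA _).add (hA _)).tsum_add (hA _),
      ← (((hA _).add (hA _)).add (hA _)).tsum_add (hA _)]
    refine ((((hA _).add (hA _)).add (hA _)).add (hA _)).tsum_le_tsum (fun g => ?_) h
    have := sq_nonneg (f g)
    simp only [A]
    split_ifs <;> simp_all
  have := key 0
  have := key 1
  have := nsq_nonneg (A (0, true))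
  have := nsq_nonneg (A (1, true))
  linarith

variable {S : Type} [Fintype S]

/-- The averaging operator. -/
noncomputable def avg (φ : S → G) (f : G → ℝ) (g : G) : ℝ :=
  (∑ s, f (φ s * g)) / Fintype.card S

/-- The averaging operator contracts. -/
def Gap (φ : S → G) (c : ℕ) : Prop :=
  ∀ f : G → ℝ, L2 f → nsq (avg φ f) ≤ (1 - 1 / (c : ℝ)) * nsq f

theorem sq_avg [Nonempty S] (x : S → ℝ) : ((∑ s, x s) / Fintype.card S) ^ 2 =
    (∑ s, x s ^ 2) / Fintype.card S -
      (∑ s, ∑ t, (x s - x t) ^ 2) / (2 * (Fintype.card S : ℝ) ^ 2) := by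
  have h : (0 : ℝ) < Fintype.card S := by exact_mod_cast Fintype.card_pos
  have e : ∑ s, ∑ t, (x s - x t) ^ 2 =
      2 * Fintype.card S * ∑ s, x s ^ 2 - 2 * (∑ s, x s) ^ 2 := by
    simp only [sub_sq, sum_add_distrib, sum_sub_distrib, sum_const, card_univ, nsmul_eq_mul,
      ← mul_sum, ← sum_mul]
    ring
  rw [e]
  field_simp
  ring

theorem avg_spec [Nonempty S] (φ : S → G) {f : G → ℝ} (h : L2 f) : L2 (avg φ f) ∧
    nsq (avg φ f) = nsq f - (∑ s, ∑ t, dsq f (φ t * (φ s)⁻¹)) / (2 * (Fintype.card S : ℝ) ^ 2) := by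
  have hc : (0 : ℝ) < Fintype.card S := by exact_mod_cast Fintype.card_pos
  have h1 : HasSum (fun g => (∑ s, f (φ s * g) ^ 2) / Fintype.card S) (nsq f) := by
    have := (hasSum_sum (s := univ) fun s _ => (h.tr (φ s)).hasSum).div_const (Fintype.card S : ℝ)
    have e : ∀ s, ∑' g, f (φ s * g) ^ 2 = nsq f := fun s => nsq_tr f (φ s)
    simp only [e, sum_const, card_univ, nsmul_eq_mul] at this
    rwa [mul_div_cancel_left₀ _ hc.ne'] at this
  have h2 : HasSum (fun g => (∑ s, ∑ t, (f (φ s * g) - f (φ t * g)) ^ 2) /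
      (2 * (Fintype.card S : ℝ) ^ 2))
      ((∑ s, ∑ t, dsq f (φ t * (φ s)⁻¹)) / (2 * (Fintype.card S : ℝ) ^ 2)) := by
    refine HasSum.div_const (hasSum_sum fun s _ => hasSum_sum fun t _ => ?_) _
    have := ((h.tr (φ s)).sub (h.tr (φ t))).hasSum
    have e : dsq f (φ t * (φ s)⁻¹) = ∑' g, (f (φ s * g) - f (φ t * g)) ^ 2 := by
      unfold dsq
      rw [← nsq_tr _ (φ s)]
      unfold nsq
      exact tsum_congr fun g => by beta_reduce; rw [mul_assoc, inv_mul_cancel_left]
    rw [e]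
    exact this
  have h3 := h1.sub h2
  simp only [← sq_avg] at h3
  exact ⟨h3.summable, h3.tsum_eq⟩

theorem exists_word_const {F : Type} [Group F] (φ : S → F) {u : F}
    (hu : u ∈ Subgroup.closure {a | ∃ s t, a = φ t * (φ s)⁻¹}) :
    ∃ c : ℕ, ∀ (G : Type) [Group G] (π : F →* G) (f : G → ℝ), L2 f →
      dsq f (π u) ≤ c * ∑ s, ∑ t, dsq f (π (φ t) * (π (φ s))⁻¹) := by
  have nn : ∀ (G : Type) [Group G] (f : G → ℝ) (a : G), 0 ≤ dsq f a := fun G _ f a => nsq_nonneg _
  induction hu using Subgroup.closure_induction with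
  | mem x hx =>
    obtain ⟨s, t, rfl⟩ := hx
    refine ⟨1, fun G _ π f _ => ?_⟩
    rw [map_mul, map_inv, Nat.cast_one, one_mul]
    exact (single_le_sum (f := fun t => dsq f (π (φ t) * (π (φ s))⁻¹)) (fun _ _ => nn _ _ _)
      (mem_univ t)).trans (single_le_sum (f := fun s => ∑ t, dsq f (π (φ t) * (π (φ s))⁻¹))
        (fun _ _ => sum_nonneg fun _ _ => nn _ _ _) (mem_univ s))
  | one => exact ⟨0, fun G _ π f _ => by simp [dsq_one]⟩
  | mul x y _ _ hx hy =>
    obtain ⟨c1, h1⟩ := hx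
    obtain ⟨c2, h2⟩ := hy
    refine ⟨2 * c1 + 2 * c2, fun G _ π f hf => ?_⟩
    have := h1 G π f hf
    have := h2 G π f hf
    have := dsq_mul hf (π x) (π y)
    rw [map_mul]
    push_cast
    linarith
  | inv x _ hx =>
    obtain ⟨c1, h1⟩ := hx
    exact ⟨c1, fun G _ π f hf => by rw [map_inv, dsq_inv]; exact h1 G π f hf⟩

theorem exists_gap [Nonempty S] {F : Type} [Group F] (φ : S → F) (u : Fin 2 → F)
    (hu : ∀ i, u i ∈ Subgroup.closure {a | ∃ s t, a = φ t * (φ s)⁻¹}) :
    ∃ c : ℕ, 1 ≤ c ∧ ∀ (G : Type) [Group G] (π : F →* G),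
      Function.Injective (FreeGroup.lift fun i => π (u i)) → Gap (fun s => π (φ s)) c := by
  obtain ⟨c0, h0⟩ := exists_word_const φ (hu 0)
  obtain ⟨c1, h1⟩ := exists_word_const φ (hu 1)
  have hc : 0 < Fintype.card S := Fintype.card_pos
  refine ⟨12 * Fintype.card S ^ 2 * (c0 + c1 + 1), Nat.succ_le_of_lt (by positivity),
    fun G _ π hi f hf => ?_⟩
  have a0 := h0 G π f hf
  have a1 := h1 G π f hf
  have a2 := free_gap _ hi hf
  rw [FreeGroup.lift_apply_of, FreeGroup.lift_apply_of] at a2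
  rw [(avg_spec _ hf).2]
  have a3 : 0 ≤ ∑ s, ∑ t, dsq f (π (φ t) * (π (φ s))⁻¹) :=
    sum_nonneg fun _ _ => sum_nonneg fun _ _ => nsq_nonneg _
  generalize ∑ s, ∑ t, dsq f (π (φ t) * (π (φ s))⁻¹) = Q at *
  have hc' : (0 : ℝ) < Fintype.card S := by exact_mod_cast hc
  rw [sub_mul, one_mul, sub_le_sub_iff_left, div_mul_eq_mul_div, one_mul,
    div_le_div_iff₀ (by positivity) (by positivity)]
  push_cast
  have a4 : nsq f ≤ 6 * ((c0 + c1 + 1) * Q) := by nlinarith
  nlinarith [mul_le_mul_of_nonneg_right a4 (show (0 : ℝ) ≤ 2 * Fintype.card S ^ 2 by positivity)]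

end gap

section cond

variable {G : Type} [Group G] {S ι : Type} [Fintype S] [Fintype ι] [DecidableEq ι]

/-- The product of the letters read at a list of positions. -/
def wd (φ : S → G) (ω : ι → S) (l : List ι) : G := (l.map fun p => φ (ω p)).prod

omit [Fintype S] [Fintype ι] in
theorem wd_update (φ : S → G) (ω : ι → S) {l : List ι} {p : ι} (hp : p ∉ l) (s : S) :
    wd φ (Function.update ω p s) l = wd φ ω l := by
  unfold wd
  congr 1
  exact List.map_congr_left fun q hq => by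
    rw [Function.update_of_ne (fun e : q = p => hp (e ▸ hq))]

theorem resample (F : (ι → S) → ℝ) (p : ι) :
    ∑ ω, ∑ s, F (Function.update ω p s) = Fintype.card S * ∑ ω, F ω := by
  have hinv : Function.Involutive fun x : (ι → S) × S => (Function.update x.1 p x.2, x.1 p) := by
    rintro ⟨ω, s⟩
    simp
  have := Equiv.sum_comp hinv.toPerm fun x => F x.1
  rw [Fintype.sum_prod_type, Fintype.sum_prod_type] at this
  simp only [Function.Involutive.coe_toPerm, sum_const, card_univ, nsmul_eq_mul] at this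
  rw [this, mul_sum]

theorem cond_real [Nonempty S] {φ : S → G} {c : ℕ} (hc : 1 ≤ c) (hg : Gap φ c) (l : List ι)
    (hl : l.Nodup) : ∀ (f : (ι → S) → G → ℝ) (M b : ℝ), (∀ ω, L2 (f ω)) → (∀ ω, nsq (f ω) ≤ M) →
      (∀ p ∈ l, ∀ ω s, f (Function.update ω p s) = f ω) → 0 ≤ b →
      (1 - 1 / (c : ℝ)) ^ l.length * M ≤ b ^ 2 →
      ∑ ω, f ω (wd φ ω l) ≤ Fintype.card (ι → S) * b := by
  have hs : (0 : ℝ) < Fintype.card S := by exact_mod_cast Fintype.card_pos
  have hη : (0 : ℝ) ≤ 1 - 1 / (c : ℝ) := by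
    have : (1 : ℝ) ≤ c := by exact_mod_cast hc
    rw [sub_nonneg, div_le_one (by linarith)]
    exact this
  induction l with
  | nil =>
    intro f M b h1 h2 _ hb hM
    rw [← card_univ, ← nsmul_eq_mul]
    refine sum_le_card_nsmul _ _ _ fun ω _ => ?_
    have := (h1 ω).le_tsum (wd φ ω []) fun _ _ => sq_nonneg _
    have := h2 ω
    unfold nsq at this
    simp only [List.length_nil, pow_zero, one_mul] at hM
    exact (le_abs_self _).trans (abs_le_of_sq_le_sq (by linarith) hb)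
  | cons p l ih =>
    intro f M b h1 h2 h3 hb hM
    rw [List.nodup_cons] at hl
    have e : ∑ ω, f ω (wd φ ω (p :: l)) = ∑ ω, avg φ (f ω) (wd φ ω l) := by
      refine mul_left_cancel₀ hs.ne' ?_
      rw [← resample _ p, mul_sum]
      refine sum_congr rfl fun ω _ => ?_
      unfold avg
      rw [mul_div_cancel₀ _ hs.ne']
      refine sum_congr rfl fun s _ => ?_
      rw [h3 p List.mem_cons_self, ← wd_update φ ω hl.1 s]
      simp [wd]
    rw [e]
    refine ih hl.2 (fun ω => avg φ (f ω)) ((1 - 1 / (c : ℝ)) * M) b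
      (fun ω => (avg_spec φ (h1 ω)).1)
      (fun ω => (hg _ (h1 ω)).trans (mul_le_mul_of_nonneg_left (h2 ω) hη))
      (fun q hq ω s => by rw [h3 q (List.mem_cons_of_mem _ hq)]) hb ?_
    rwa [List.length_cons, pow_succ, mul_assoc] at hM

theorem pow_half {c : ℕ} (hc : 1 ≤ c) : (1 - 1 / (c : ℝ)) ^ c ≤ 1 / 2 := by
  have h1 : (1 : ℝ) ≤ c := by exact_mod_cast hc
  have h0 : (0 : ℝ) ≤ 1 / c := by positivity
  have h2 : 1 / (c : ℝ) ≤ 1 := by rw [div_le_one (by linarith)]; exact h1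
  have h3 := one_add_mul_le_pow (a := 1 / (c : ℝ)) (by linarith) c
  rw [mul_one_div_cancel (by linarith)] at h3
  have h4 : (1 - 1 / (c : ℝ)) ^ c * (1 + 1 / (c : ℝ)) ^ c ≤ 1 := by
    rw [← mul_pow]
    exact pow_le_one₀ (by nlinarith) (by nlinarith)
  have h5 : 0 ≤ (1 - 1 / (c : ℝ)) ^ c := pow_nonneg (by linarith) _
  nlinarith

open Classical in
/-- Conditional bound for the value of a random product. -/
theorem cond_card [Nonempty S] {φ : S → G} {c : ℕ} (hc : 1 ≤ c) (hg : Gap φ c) {l : List ι}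
    (hl : l.Nodup) (A : (ι → S) → Set G) {a β : ℕ}
    (hA : ∀ ω, ∃ s : Finset G, s.card ≤ 2 ^ a ∧ ∀ g ∈ A ω, g ∈ s)
    (hi : ∀ p ∈ l, ∀ ω s, A (Function.update ω p s) = A ω) (hlen : c * (a + 2 * β) ≤ l.length) :
    (univ.filter fun ω => wd φ ω l ∈ A ω).card * 2 ^ β ≤ Fintype.card (ι → S) := by
  have h1 : (1 : ℝ) ≤ c := by exact_mod_cast hc
  have hη : (0 : ℝ) ≤ 1 - 1 / (c : ℝ) := by
    rw [sub_nonneg, div_le_one (by linarith)]
    exact h1
  have hη1 : 1 - 1 / (c : ℝ) ≤ 1 := by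
    have : (0 : ℝ) ≤ 1 / c := by positivity
    linarith
  have sp : ∀ ω, ∃ s : Finset G, s.card ≤ 2 ^ a ∧
      HasSum (fun g => (if g ∈ A ω then (1 : ℝ) else 0) ^ 2) (s.filter (· ∈ A ω)).card := by
    intro ω
    obtain ⟨s, h1, h2⟩ := hA ω
    refine ⟨s, h1, ?_⟩
    have := hasSum_sum_of_ne_finset_zero (L := SummationFilter.unconditional G)
      (f := fun g => (if g ∈ A ω then (1 : ℝ) else 0) ^ 2) (s := s)
      fun g hg => by rw [if_neg fun h => hg (h2 g h)]; simp
    simpa using this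
  have key := cond_real hc hg l hl (fun ω g => if g ∈ A ω then 1 else 0) (2 ^ a) (1 / 2 ^ β)
    (fun ω => (sp ω).elim fun _ h => h.2.summable)
    (fun ω => (sp ω).elim fun s h => by
      unfold nsq
      rw [h.2.tsum_eq]
      exact_mod_cast (card_filter_le _ _).trans h.1)
    (fun p hp ω s => by rw [hi p hp]) (by positivity) (by
      have h2 : (1 - 1 / (c : ℝ)) ^ l.length ≤ (1 / 2) ^ (a + 2 * β) :=
        (pow_le_pow_of_le_one hη hη1 hlen).trans (by
          rw [pow_mul]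
          exact pow_le_pow_left₀ (pow_nonneg hη _) (pow_half hc) _)
      refine (mul_le_mul_of_nonneg_right h2 (by positivity)).trans (le_of_eq ?_)
      rw [one_div_pow, one_div_pow, pow_add, ← pow_mul, mul_comm β 2]
      field_simp)
  rw [sum_boole, mul_one_div, le_div_iff₀ (by positivity)] at key
  exact_mod_cast key

end cond

end Pool.Agent.Lib.MP_513915_al
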