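import Pool.Agent.Lib.MP_e0e7d6_al.Iface
import Pool.Agent.Lib.MP_e0e7d6_al.Proj

/-!
Lifting small configurations from the quotient of the cone-off along a subfamily of roots.
-/

set_option linter.unusedSectionVars false

namespace Pool.Agent.Lib.MP_513915_al

open Pool.Agent.Lib.MP_e0e7d6_al

/-- An invariant family of primitive elements of small translation length. -/
structure Roots2 (G : Type) [Group G] {V I : Type} [MulAction G V] [MulAction G I] (X : GS V)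
    (r : I → G) : Prop where
  inf : ∀ i, ¬ IsOfFinOrder (r i)
  gen : ∀ i h, Commute h (r i) → ∃ k : ℤ, h = r i ^ k
  stab : ∀ (g : G) i, g • i = i ↔ Commute g (r i)
  sep : ∀ i j, Commute (r i) (r j) → i = j

/-- Subgroups with a bounded orbit lie in cyclic groups of exponent `p`. -/
def Cyc (G : Type) [Group G] {V : Type} [MulAction G V] (X : GS V) (p : ℕ) : Prop :=
  ∀ (K : Subgroup G) (x : V) (D : ℕ), (∀ k ∈ K, X.d x (k • x) ≤ D) →
    ∃ g : G, g ^ p = 1 ∧ K ≤ Subgroup.zpowers g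

/-- The data of one step: base space `X`, cone-off `Z` with levels, and its quotient `Z'`. -/
structure Cov {G H V I W W' : Type} [Group G] [Group H] [MulAction G V] [MulAction G I]
    [MulAction G W] [MulAction H W'] (X : GS V) (Z : GS W) (Z' : GS W') (π : G →* H) (ι : W → W')
    (r : I → G) (c : I → W) (lev : W → ℕ) (bs : W → V) (δ A m p ρ : ℕ) : Prop where
  good : Good G X 3 A m p p
  cyc : Cyc G X p
  roots : Roots2 G X r
  qf : ∃ κ Δ, QFam X (axis X r) κ Δ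
  quo : Quo π ι Z Z'
  ne : Nonempty W
  one_le : 1 ≤ δ
  hyp : Z'.Hyp δ
  inv : Z.Inv G
  kill : ∀ i, π (r i) ^ p = 1
  c_smul : ∀ (g : G) i, c (g • i) = g • c i
  lev_c : ∀ i, lev (c i) = ρ + 1
  lev_near : ∀ i z, Z.d (c i) z ≤ ρ → lev z + Z.d (c i) z = ρ + 1
  sep : ∀ i j, i ≠ j → ρ + 1 ≤ Z.d (c i) (c j)
  ker : ∀ (n : G) u, π n = 1 → n ≠ 1 → 2 * (ρ + 1) ≤ Z.d u (n • u) + 2 * lev u
  deep : ∀ u, 1 ≤ lev u → ∃ i, Z.d u (c i) ≤ ρ ∧ ∀ g : G, Z.d u (g • u) < lev u → g • i = i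
  distort : ∀ (g : G) u B, lev u + Z.d u (g • u) ≤ B → B ≤ ρ →
    X.d (bs u) (g • bs u) ≤ Z.d u (g • u) * 2 ^ B
  down : ∀ u v, Z.d u v ≤ lev u + X.d (bs u) (bs v) + lev v
  up : ∀ u i y, y ∈ axis X r i → Z.d u (c i) ≤ lev u + X.d (bs u) y + (ρ + 1)

/-- The overlap constant of the quotient. -/
def cA (δ A : ℕ) : ℕ := 2 * (42 * δ + 2) + A + 30 * (42 * δ * 2 ^ (84 * δ + 2)) + 66

/-- The injectivity constant of the quotient. -/
def cm (δ m : ℕ) : ℕ := 4 * (40 * δ * 2 ^ (80 * δ) * (m + 1))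

theorem finOrder_of_bdd {G : Type} [Group G] {V : Type} [MulAction G V] {X : GS V}
    {δ A m p q : ℕ} (Γ : Good G X δ A m p q) {K : Subgroup G} {x : V} {D : ℕ}
    (h : ∀ k ∈ K, X.d x (k • x) ≤ D) {g : G} (hg : g ∈ K) : IsOfFinOrder g := by
  by_contra hf
  obtain ⟨n, hn⟩ := Γ.exists_far hf x D
  have := h _ (K.pow_mem hg n)
  omega

theorem bdd_zpowers {G : Type} [Group G] {V : Type} [MulAction G V] {X : GS V}
    {g : G} (hg : IsOfFinOrder g) (x : V) : ∃ D, ∀ k ∈ Subgroup.zpowers g, X.d x (k • x) ≤ D := by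
  have hf : (Subgroup.zpowers g : Set G).Finite := finite_zpowers.2 hg
  obtain ⟨D, hD⟩ := (hf.image fun k => X.d x (k • x)).bddAbove
  exact ⟨D, fun k hk => hD ⟨k, hk, rfl⟩⟩

namespace Cov

variable {G H V I W W' : Type} [Group G] [Group H] [MulAction G V] [MulAction G I]
  [MulAction G W] [MulAction H W'] {X : GS V} {Z : GS W} {Z' : GS W'} {π : G →* H} {ι : W → W'}
  {r : I → G} {c : I → W} {lev : W → ℕ} {bs : W → V} {δ A m p ρ : ℕ}
  (C : Cov X Z Z' π ι r c lev bs δ A m p ρ)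
include C

theorem r_ne (i : I) : r i ≠ 1 := fun e => C.roots.inf i (e ▸ IsOfFinOrder.one)

theorem fix_comm {g h : G} {i : I} (hg : g • i = i) (hh : h • i = i) : Commute g h :=
  C.good.csa.trans' (C.r_ne i) ((C.roots.stab g i).1 hg) ((C.roots.stab h i).1 hh).symm

theorem fix_tors {g : G} {i : I} (hg : g • i = i) (hf : IsOfFinOrder g) : g = 1 :=
  C.good.not_comm_tors (C.roots.inf i) hf ((C.roots.stab g i).1 hg)

theorem fix_uniq {g : G} {i j : I} (h1 : g ≠ 1) (hi : g • i = i) (hj : g • j = j) : i = j :=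
  C.roots.sep i j (C.good.csa.trans g _ _ h1 ((C.roots.stab g i).1 hi) ((C.roots.stab g j).1 hj))

theorem fix_pow {g : G} {i : I} (hg : g • i = i) : π g ^ p = 1 := by
  obtain ⟨k, rfl⟩ := C.roots.gen i g ((C.roots.stab g i).1 hg)
  rw [map_zpow, ← zpow_natCast, ← zpow_mul, mul_comm, zpow_mul, zpow_natCast, C.kill, one_zpow]

theorem fix_fin {g : G} {i : I} (hg : g • i = i) : IsOfFinOrder (π g) :=
  isOfFinOrder_iff_pow_eq_one.2 ⟨p, C.good.odd_p.pos, C.fix_pow hg⟩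

theorem fix_apex {g : G} {i : I} (hg : g • i = i) : π g • ι (c i) = ι (c i) := by
  rw [← C.quo.smul, ← C.c_smul, hg]

theorem ι_ker {n : G} (hn : π n = 1) (u : W) : ι (n • u) = ι u := by
  rw [C.quo.smul, hn, one_smul]

theorem le_disp (u : W) (g : G) : Z'.d (ι u) (π g • ι u) ≤ Z.d u (g • u) := by
  rw [← C.quo.smul]
  exact C.quo.le _ _

theorem exists_lift (u : W) (h : H) :
    ∃ g : G, π g = h ∧ Z.d u (g • u) = Z'.d (ι u) (h • ι u) := by
  obtain ⟨g0, rfl⟩ := C.quo.surj h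
  obtain ⟨n, hn, e⟩ := C.quo.lift u (g0 • u)
  refine ⟨n * g0, by rw [map_mul, hn, one_mul], ?_⟩
  rw [mul_smul, ← e, C.quo.smul]

theorem exists_real (u v : W) :
    ∃ n : G, π n = 1 ∧ Z'.d (ι u) (ι (n • v)) = Z.d u (n • v) := by
  obtain ⟨n, hn, e⟩ := C.quo.lift u v
  exact ⟨n, hn, by rw [C.ι_ker hn, e]⟩

theorem btw_real {u v z : W} (h : Z'.d (ι u) (ι v) = Z.d u v) (hz : Z.Btw u z v) :
    Z'.Btw (ι u) (ι z) (ι v) := by
  have := C.quo.le u z
  have := C.quo.le z v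
  unfold GS.Btw at hz
  exact GS.btw_of_le (by omega)

theorem eq_one {n : G} {u : W} (hn : π n = 1) (h : Z.d u (n • u) + 2 * lev u < 2 * (ρ + 1)) :
    n = 1 := by
  by_contra h1
  have := C.ker n u hn h1
  omega

theorem uniq {g g' : G} {u : W} (e : π g = π g')
    (h : Z.d u (g • u) + Z.d u (g' • u) + 2 * lev u < 2 * (ρ + 1)) : g = g' := by
  have h1 := C.inv.disp_mul g⁻¹ g' u
  rw [C.inv.disp_inv] at h1
  exact inv_mul_eq_one.1 (C.eq_one (u := u) (by rw [map_mul, map_inv, e, inv_mul_cancel]) (by omega))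

theorem comm_of {g h : G} {u : W} (e : Commute (π g) (π h))
    (hd : 2 * Z.d u (g • u) + 2 * Z.d u (h • u) + 2 * lev u < 2 * (ρ + 1)) : Commute g h := by
  have h1 := C.inv.disp_mul g h u
  have h2 := C.inv.disp_mul h g u
  exact C.uniq (u := u) (by rw [map_mul, map_mul]; exact e) (by omega)

theorem walk_aux {J : Type} (s : J → G) {D L : ℕ} (h1 : D + 2 ≤ L)
    (h2 : 2 * D + 2 + 2 * L < 2 * (ρ + 1)) (y : W) (n : ℕ) : ∀ x, Z.d x y = n →
    (∀ k, Z.d x (s k • x) ≤ D) → (∀ z, Z.Btw x z y → ∀ k, Z'.d (ι z) (π (s k) • ι z) ≤ D) →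
    (lev x ≤ L ∧ lev y ≤ L ∧ ∀ k, Z.d y (s k • y) ≤ D) ∨ ∃ j : I, ∀ k, s k • j = j := by
  have dp : ∀ x, L < lev x → (∀ k, Z.d x (s k • x) ≤ D + 2) → ∃ j : I, ∀ k, s k • j = j := by
    intro x hx hs
    obtain ⟨j, -, hj⟩ := C.deep x (by omega)
    exact ⟨j, fun k => hj _ (by have := hs k; omega)⟩
  induction n with
  | zero =>
    intro x hd hx _
    obtain rfl := Z.d_zero _ _ hd
    by_cases hl : L < lev x
    · exact Or.inr (dp x hl fun k => by have := hx k; omega)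
    · exact Or.inl ⟨by omega, by omega, hx⟩
  | succ n ih =>
    intro x hd hx hz
    by_cases hl : L < lev x
    · exact Or.inr (dp x hl fun k => by have := hx k; omega)
    obtain ⟨x1, b1, d1⟩ := GS.exists_btw (X := Z) x y 1 (by omega)
    have b1' : Z.d x x1 + Z.d x1 y = Z.d x y := b1
    have mv : ∀ k, Z.d x1 (s k • x1) ≤ D + 2 := fun k => by
      have := C.inv.disp_move (s k) x x1
      have := hx k
      omega
    by_cases hl1 : L < lev x1
    · exact Or.inr (dp x1 hl1 mv)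
    have mv' : ∀ k, Z.d x1 (s k • x1) ≤ D := fun k => by
      obtain ⟨g, hg, e⟩ := C.exists_lift x1 (π (s k))
      have := hz x1 b1 k
      have := mv k
      rw [← C.uniq (u := x1) hg (by omega)]
      omega
    rcases ih x1 (by omega) mv' (fun z bz => hz z (b1.trans_right bz).1) with ⟨-, a, b⟩ | h
    · exact Or.inl ⟨by omega, a, b⟩
    · exact Or.inr h

/-- Walking along a geodesic which embeds in the quotient. -/
theorem walk {J : Type} (s : J → G) {D : ℕ} (hρ : 2 * (D + 2 * δ) + 3 ≤ ρ) {x y : W}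
    (hr : Z'.d (ι x) (ι y) = Z.d x y) (hx : ∀ k, Z.d x (s k • x) ≤ D)
    (hy : ∀ k, Z'.d (ι y) (π (s k) • ι y) ≤ D) :
    (lev x ≤ D + 2 * δ + 2 ∧ lev y ≤ D + 2 * δ + 2 ∧ ∀ k, Z.d y (s k • y) ≤ D + 2 * δ) ∨
      ∃ j : I, ∀ k, s k • j = j :=
  C.walk_aux s le_rfl (by omega) y _ x rfl (fun k => by have := hx k; omega) fun z bz k =>
    C.hyp.mov_btw C.quo.inv _ (C.btw_real hr bz) ((C.le_disp x _).trans (hx k)) (hy k)

theorem walk1 (g : G) {D : ℕ} (hρ : 2 * (D + 2 * δ) + 3 ≤ ρ) {x y : W}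
    (hr : Z'.d (ι x) (ι y) = Z.d x y) (hx : Z.d x (g • x) ≤ D)
    (hy : Z'.d (ι y) (π g • ι y) ≤ D) :
    (lev x ≤ D + 2 * δ + 2 ∧ lev y ≤ D + 2 * δ + 2 ∧ Z.d y (g • y) ≤ D + 2 * δ) ∨
      ∃ j : I, g • j = j := by
  rcases C.walk (fun _ : Unit => g) hρ hr (fun _ => hx) (fun _ => hy) with ⟨a, b, e⟩ | ⟨j, hj⟩
  · exact Or.inl ⟨a, b, e ()⟩
  · exact Or.inr ⟨j, hj ()⟩

/-- Subgroups with a small orbit at a shallow point lift. -/
theorem lift_sub (K : Subgroup H) {u : W} {D : ℕ} (h : ∀ k ∈ K, Z'.d (ι u) (k • ι u) ≤ D)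
    (h1 : 3 * D + 2 * lev u < 2 * (ρ + 1)) (h2 : lev u + D ≤ ρ) :
    ∃ K' : Subgroup G, (∀ g, g ∈ K' ↔ π g ∈ K ∧ Z.d u (g • u) ≤ D) ∧
      (∀ a ∈ K', ∀ b ∈ K', Commute a b) ∧ (∀ a ∈ K', IsOfFinOrder a) ∧
      ∃ g : G, g ^ p = 1 ∧ K' ≤ Subgroup.zpowers g := by
  let K' : Subgroup G :=
    { carrier := {g | π g ∈ K ∧ Z.d u (g • u) ≤ D}
      one_mem' := ⟨by rw [map_one]; exact K.one_mem, by rw [one_smul, Z.d_self]; omega⟩
      inv_mem' := fun {g} hg => ⟨by rw [map_inv]; exact K.inv_mem hg.1,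
        by rw [C.inv.disp_inv]; exact hg.2⟩
      mul_mem' := fun {a b} ha hb => by
        have hm : π (a * b) ∈ K := by rw [map_mul]; exact K.mul_mem ha.1 hb.1
        refine ⟨hm, ?_⟩
        obtain ⟨g, hg, e⟩ := C.exists_lift u (π (a * b))
        have := h _ hm
        have := C.inv.disp_mul a b u
        have := ha.2
        have := hb.2
        rw [← C.uniq (u := u) hg (by omega)]
        omega }
  have bd : ∀ k ∈ K', X.d (bs u) (k • bs u) ≤ D * 2 ^ ρ := fun k hk =>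
    (C.distort k u ρ (by have := hk.2; omega) le_rfl).trans (Nat.mul_le_mul_right _ hk.2)
  exact ⟨K', fun _ => Iff.rfl, C.good.ell K' _ _ bd, fun a ha => finOrder_of_bdd C.good bd ha,
    C.cyc K' _ _ bd⟩

/-- A nontrivial element of the quotient fixes at most one apex. -/
theorem apex_uniq (hρ : 10 * δ ≤ ρ) {h : H} (h1 : h ≠ 1) {i j : I} (hi : h • ι (c i) = ι (c i))
    (hj : h • ι (c j) = ι (c j)) : ∃ n : G, π n = 1 ∧ n • j = i := by
  obtain ⟨n, hn, e⟩ := C.exists_real (c i) (c j)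
  refine ⟨n, hn, ?_⟩
  by_contra hne
  have := C.one_le
  have hs := C.sep i (n • j) (Ne.symm hne)
  rw [C.c_smul] at hs
  obtain ⟨z, bz, dz⟩ := GS.exists_btw (X := Z) (c i) (n • c j) (ρ - 2 * δ) (by omega)
  have lz := C.lev_near i z (by omega)
  have mv : ∀ k ∈ Subgroup.zpowers h, Z'.d (ι z) (k • ι z) ≤ 0 + 2 * δ := by
    intro k hk
    have a : k • ι (c i) = ι (c i) :=
      (Subgroup.zpowers_le_of_mem (show h ∈ MulAction.stabilizer H _ from hi)) hk
    have b : k • ι (c j) = ι (c j) :=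
      (Subgroup.zpowers_le_of_mem (show h ∈ MulAction.stabilizer H _ from hj)) hk
    refine C.hyp.mov_btw C.quo.inv k (C.btw_real e bz) ?_ ?_
    · rw [a, Z'.d_self]
    · rw [C.ι_ker hn, b, Z'.d_self]
  obtain ⟨K', hK, -, hf, -⟩ := C.lift_sub _ mv (by omega) (by omega)
  obtain ⟨g, rfl, eg⟩ := C.exists_lift z h
  have m1 := mv _ (Subgroup.mem_zpowers _)
  obtain ⟨j', -, hj'⟩ := C.deep z (by omega)
  apply h1
  rw [C.fix_tors (hj' g (by omega)) (hf g ((hK g).2 ⟨Subgroup.mem_zpowers _, by omega⟩)), map_one]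

theorem center (K : Subgroup H) {x : W'} {D : ℕ} (h : ∀ k ∈ K, Z'.d x (k • x) ≤ D) :
    ∃ o : W, ∀ k ∈ K, Z'.d (ι o) (k • ι o) ≤ 2 * δ + 1 := by
  obtain ⟨o', ho⟩ := C.hyp.center C.quo.inv K h
  obtain ⟨o, rfl⟩ := C.quo.onto o'
  exact ⟨o, ho⟩

/-- Small lifts of torsion elements. -/
theorem fin_or_fix {g : G} {x : W} {D : ℕ} (hρ : 2 * D + 20 * δ ≤ ρ) (hf : IsOfFinOrder (π g))
    (hx : Z.d x (g • x) ≤ D) : IsOfFinOrder g ∨ ∃ j : I, g • j = j := by
  have := C.one_le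
  obtain ⟨D0, h0⟩ := bdd_zpowers (X := Z') hf (ι x)
  obtain ⟨o, ho⟩ := C.center _ h0
  obtain ⟨n, hn, e⟩ := C.exists_real x o
  rw [← C.ι_ker hn] at ho
  have m1 := ho _ (Subgroup.mem_zpowers _)
  rcases C.walk1 g (D := D + 2 * δ + 1) (by omega) e (by omega) (by omega) with ⟨-, a, b⟩ | h
  · left
    obtain ⟨K', hK, -, hf', -⟩ := C.lift_sub _ ho (by omega) (by omega)
    obtain ⟨g', hg, eg⟩ := C.exists_lift (n • o) (π g)
    rw [← C.uniq (u := n • o) hg (by omega)]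
    exact hf' g' ((hK g').2 ⟨hg ▸ Subgroup.mem_zpowers _, by omega⟩)
  · exact Or.inr h

/-- Small lifts of elements fixing an apex. -/
theorem fix_of_apex {g : G} {x : W} {D : ℕ} (hρ : 2 * D + 20 * δ ≤ ρ) (h1 : π g ≠ 1) {j : I}
    (hj : π g • ι (c j) = ι (c j)) (hx : Z.d x (g • x) ≤ D) :
    ∃ n : G, π n = 1 ∧ g • n • j = n • j := by
  have := C.one_le
  obtain ⟨n, hn, e⟩ := C.exists_real x (c j)
  rcases C.walk1 g (D := D) (by omega) e hx (by rw [C.ι_ker hn, hj, Z'.d_self]; omega) with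
    ⟨-, a, -⟩ | ⟨j', h⟩
  · rw [← C.c_smul, C.lev_c] at a
    omega
  · obtain ⟨n', hn', e'⟩ := C.apex_uniq (by omega) h1 (C.fix_apex h) hj
    exact ⟨n', hn', by rw [e', h]⟩

/-- Points moved little by a nontrivial element fixing an apex are close to it. -/
theorem near_apex {D : ℕ} (hρ : 2 * D ≤ ρ) : ∃ B, ∀ (g : G) (j : I) (x : W), g ≠ 1 → g • j = j →
    Z.d x (g • x) ≤ D → Z.d x (c j) ≤ B := by
  obtain ⟨κ, Δ, Q⟩ := C.qf
  refine ⟨D + ((6 * κ + 1) * m * (D * 2 ^ ρ) + 11 * κ) + (ρ + 1), fun g j x h1 hj hx => ?_⟩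
  by_cases hl : D < lev x
  · obtain ⟨j', a, b⟩ := C.deep x (by omega)
    rw [← C.fix_uniq h1 (b g (by omega)) hj]
    omega
  have d1 : X.d (bs x) (g • bs x) ≤ D * 2 ^ ρ :=
    (C.distort g x ρ (by omega) le_rfl).trans (Nat.mul_le_mul_right _ hx)
  have hf : ¬ IsOfFinOrder g := fun hf => h1 (C.fix_tors hj hf)
  have I := C.good.inv
  obtain ⟨y, hy⟩ := exists_isProj X (Q.ne j) (bs x)
  set k := g ^ ((6 * κ + 1) * m) with hk
  have ck : Commute (r j) k := ((C.roots.stab g j).1 hj).symm.pow_right _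
  have hy' : IsProj X (axis X r j) (k • bs x) (k • y) := by
    refine ⟨?_, fun y' hy' => ?_⟩
    · show X.d _ _ ≤ 43
      rw [I.disp_comm ck]
      exact hy.1
    · have := hy.2 (k⁻¹ • y') (by
        show X.d _ _ ≤ 43
        rw [I.disp_comm ck.inv_right]
        exact hy')
      rwa [← I k (bs x) (k⁻¹ • y'), smul_inv_smul, ← I k (bs x) y] at this
  have m1 : 1 ≤ m := by
    have := C.good.pow_far hf y 1
    by_contra h0
    obtain rfl : m = 0 := by omega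
    omega
  have far : 6 * κ < X.d y (k • y) := by
    have := C.good.pow_far hf y ((6 * κ + 1) * m)
    rw [mul_comm m] at this
    exact Nat.le_of_mul_le_mul_right this m1
  have h2 := Q.pr2 hy hy' far
  have h3 := (I.disp_pow g (bs x) ((6 * κ + 1) * m)).trans (Nat.mul_le_mul_left _ d1)
  have h4 := C.up x j y hy.1
  rw [← hk] at h3
  omega

theorem q_ovl (hρ : 200 * δ ≤ ρ) (g h : H) (x y : W') (hc : ¬ Commute g h)
    (gx : Z'.d x (g • x) ≤ 40 * δ) (hx : Z'.d x (h • x) ≤ 40 * δ) (gy : Z'.d y (g • y) ≤ 40 * δ)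
    (hy : Z'.d y (h • y) ≤ 40 * δ) : Z'.d x y ≤ cA δ A := by
  have := C.one_le
  obtain ⟨x, rfl⟩ := C.quo.onto x
  obtain ⟨y0, rfl⟩ := C.quo.onto y
  obtain ⟨n, hn, e⟩ := C.exists_real x y0
  rw [← C.ι_ker hn y0] at gy hy ⊢
  obtain ⟨g, rfl, eg⟩ := C.exists_lift x g
  obtain ⟨h, rfl, eh⟩ := C.exists_lift x h
  have hc' : ¬ Commute g h := fun k => hc (k.map π)
  rcases C.walk ![g, h] (D := 40 * δ) (by omega) e
    (fun k => by fin_cases k <;> simp <;> omega) (fun k => by fin_cases k <;> simpa) with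
    ⟨a, b, k⟩ | ⟨j, hj⟩
  · have k0 : Z.d (n • y0) (g • n • y0) ≤ 40 * δ + 2 * δ := k 0
    have k1 : Z.d (n • y0) (h • n • y0) ≤ 40 * δ + 2 * δ := k 1
    have ds : ∀ (s : G) (u : W), lev u ≤ 42 * δ + 2 → Z.d u (s • u) ≤ 42 * δ →
        X.d (bs u) (s • bs u) ≤ 42 * δ * 2 ^ (84 * δ + 2) := fun s u h1 h2 =>
      (C.distort s u _ (by omega) (by omega)).trans (Nat.mul_le_mul_right _ h2)
    have := C.good.ovl' hc' (ds g x (by omega) (by omega)) (ds g (n • y0) (by omega) (by omega))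
      (ds h x (by omega) (by omega)) (ds h (n • y0) (by omega) (by omega))
    have := C.down x (n • y0)
    unfold cA
    omega
  · exact (hc' (C.fix_comm (hj 0) (hj 1))).elim

theorem q_bdd (hρ : 200 * δ ≤ ρ) : ∃ B, ∀ g : H, g ≠ 1 → IsOfFinOrder g → ∀ x y : W',
    Z'.d x (g • x) ≤ 40 * δ → Z'.d y (g • y) ≤ 40 * δ → Z'.d x y ≤ B := by
  have := C.one_le
  obtain ⟨B0, hB0⟩ := C.good.bdd'
  obtain ⟨B1, hB1⟩ := C.near_apex (D := 40 * δ) (by omega)
  refine ⟨2 * (42 * δ + 2) + (B0 + 42 * δ * 2 ^ ρ + 1) + 2 * B1, fun h h1 hf x y hx hy => ?_⟩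
  obtain ⟨x, rfl⟩ := C.quo.onto x
  obtain ⟨y0, rfl⟩ := C.quo.onto y
  obtain ⟨g, rfl, eg⟩ := C.exists_lift x h
  have g1 : g ≠ 1 := fun e => h1 (by rw [e, map_one])
  by_cases hj : ∃ j : I, g • j = j
  · obtain ⟨j, hj⟩ := hj
    obtain ⟨g', hg', eg'⟩ := C.exists_lift y0 (π g)
    have g1' : g' ≠ 1 := fun e => h1 (by rw [← hg', e, map_one])
    obtain ⟨n, hn, e⟩ := C.fix_of_apex (g := g') (x := y0) (D := 40 * δ) (j := j) (by omega)
      (by rwa [hg']) (by rw [hg']; exact C.fix_apex hj) (by omega)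
    have a := (C.quo.le _ _).trans (hB1 g j x g1 hj (by omega))
    have b := (C.quo.le _ _).trans (hB1 g' _ y0 g1' e (by omega))
    rw [C.c_smul, C.ι_ker hn, Z'.d_comm] at b
    have := Z'.d_tri (ι x) (ι (c j)) (ι y0)
    omega
  obtain ⟨n, hn, e⟩ := C.exists_real x y0
  rw [← C.ι_ker hn y0] at hy ⊢
  have gf := (C.fin_or_fix (x := x) (D := 40 * δ) (by omega) hf (by omega)).resolve_right hj
  obtain ⟨a, b, k⟩ := (C.walk1 g (D := 40 * δ) (by omega) e (by omega) hy).resolve_right hj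
  have ds : ∀ (u : W), lev u ≤ 42 * δ + 2 → Z.d u (g • u) ≤ 42 * δ →
      X.d (bs u) (g • bs u) ≤ 42 * δ * 2 ^ ρ := fun u h1 h2 =>
    (C.distort g u _ (by omega) le_rfl).trans (Nat.mul_le_mul_right _ h2)
  have := hB0 g g1 gf _ _ _ (ds x (by omega) (by omega)) (ds (n • y0) (by omega) (by omega))
  have := C.down x (n • y0)
  omega

theorem q_ell (hρ : 200 * δ ≤ ρ) (K : Subgroup H) (x : W') (D : ℕ)
    (h : ∀ k ∈ K, Z'.d x (k • x) ≤ D) (a : H) (ha : a ∈ K) (b : H) (hb : b ∈ K) : Commute a b := by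
  have := C.one_le
  obtain ⟨o, ho⟩ := C.center K h
  obtain ⟨a, rfl, ea⟩ := C.exists_lift o a
  obtain ⟨b, rfl, eb⟩ := C.exists_lift o b
  have a1 := ho _ ha
  have b1 := ho _ hb
  refine Commute.map ?_ π
  by_cases hl : 2 * δ + 1 < lev o
  · obtain ⟨j, -, hj⟩ := C.deep o (by omega)
    exact C.fix_comm (hj a (by omega)) (hj b (by omega))
  · obtain ⟨K', hK, hc, -⟩ := C.lift_sub K ho (by omega) (by omega)
    exact hc a ((hK a).2 ⟨ha, by omega⟩) b ((hK b).2 ⟨hb, by omega⟩)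

theorem q_tors (hρ : 200 * δ ≤ ρ) (h : H) (hf : IsOfFinOrder h) : h ^ p = 1 ∨ h ^ p = 1 := by
  have := C.one_le
  obtain ⟨x⟩ := C.ne
  obtain ⟨D0, h0⟩ := bdd_zpowers (X := Z') hf (ι x)
  obtain ⟨o, ho⟩ := C.center _ h0
  obtain ⟨g, rfl, eg⟩ := C.exists_lift o h
  have m1 := ho _ (Subgroup.mem_zpowers _)
  rcases C.fin_or_fix (x := o) (D := 2 * δ + 1) (by omega) hf (by omega) with gf | ⟨j, hj⟩
  · rcases C.good.tors g gf with e | e
    · exact Or.inl (by rw [← map_pow, e, map_one])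
    · exact Or.inr (by rw [← map_pow, e, map_one])
  · exact Or.inl (C.fix_pow hj)

theorem q_cyc (hρ : 200 * δ ≤ ρ) : Cyc H Z' p := by
  intro K x D h
  have := C.one_le
  obtain ⟨o, ho⟩ := C.center K h
  by_cases hl : 2 * δ + 1 < lev o
  · obtain ⟨j, -, hj⟩ := C.deep o (by omega)
    refine ⟨π (r j), C.kill j, fun a ha => ?_⟩
    obtain ⟨a, rfl, ea⟩ := C.exists_lift o a
    have a1 := ho _ ha
    obtain ⟨k, rfl⟩ := C.roots.gen j a ((C.roots.stab a j).1 (hj a (by omega)))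
    exact ⟨k, (map_zpow π _ _).symm⟩
  · obtain ⟨K', hK, -, -, g, hg, hle⟩ := C.lift_sub K ho (by omega) (by omega)
    refine ⟨π g, by rw [← map_pow, hg, map_one], fun a ha => ?_⟩
    obtain ⟨a, rfl, ea⟩ := C.exists_lift o a
    have a1 := ho _ ha
    obtain ⟨k, rfl⟩ := hle ((hK a).2 ⟨ha, by omega⟩)
    exact ⟨k, (map_zpow π _ _).symm⟩

theorem q_inj (hρ : 200 * δ ≤ ρ) (h : H) (hf : ¬ IsOfFinOrder h) :
    1 ≤ (cm δ m : ℝ) * Z'.tau h := by
  have := C.one_le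
  by_contra hlt
  push Not at hlt
  obtain ⟨x⟩ := C.ne
  set k := 40 * δ * 2 ^ (80 * δ) * (m + 1) with hk
  have k0 : 0 < k := by positivity
  have ek : (cm δ m : ℝ) = 4 * k := by
    rw [hk]
    unfold cm
    push_cast
    ring
  rw [ek] at hlt
  obtain ⟨z', R, hub, hmin⟩ := GS.exists_min_joint (X := Z') (fun i : Fin (k + 1) => h ^ (i : ℕ)) (ι x)
  have t0 := GS.tau_nonneg (X := Z') h
  have hR : R ≤ 40 * δ := by
    obtain ⟨i, j, hh⟩ := C.hyp.joint C.quo.inv C.one_le hub hmin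
    have a : ((i : ℕ) : ℝ) ≤ k := by exact_mod_cast Nat.lt_succ_iff.1 i.2
    have b : ((j : ℕ) : ℝ) ≤ k := by exact_mod_cast Nat.lt_succ_iff.1 j.2
    have k1 : (0 : ℝ) ≤ k := by positivity
    rw [← pow_add, C.quo.inv.tau_pow z', C.quo.inv.tau_pow z'] at hh
    push_cast at hh
    have : (R : ℝ) < 40 * δ + 1 := by rcases hh with hh | hh <;> nlinarith
    have : R < 40 * δ + 1 := by exact_mod_cast this
    omega
  obtain ⟨o, rfl⟩ := C.quo.onto z'
  obtain ⟨g, rfl, eg⟩ := C.exists_lift o h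
  have mv : ∀ i, i ≤ k → Z'.d (ι o) (π g ^ i • ι o) ≤ 40 * δ := fun i hi =>
    (hub ⟨i, by omega⟩).trans hR
  have m1 := mv 1 k0
  rw [pow_one] at m1
  by_cases hl : 40 * δ < lev o
  · obtain ⟨j, -, hj⟩ := C.deep o (by omega)
    exact hf (C.fix_fin (hj g (by omega)))
  have pw : ∀ i, i ≤ k → Z.d o (g ^ i • o) ≤ 40 * δ := by
    intro i
    induction i with
    | zero => intro _; rw [pow_zero, one_smul, Z.d_self]; omega
    | succ i ih =>
      intro hi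
      obtain ⟨g', hg', e'⟩ := C.exists_lift o (π g ^ (i + 1))
      have := mv _ hi
      have := ih (by omega)
      have := C.inv.disp_mul (g ^ i) g o
      rw [← pow_succ] at this
      rw [← C.uniq (u := o) (g := g') (g' := g ^ (i + 1)) (by rw [hg', map_pow]) (by omega)]
      omega
  have d1 : X.d (bs o) (g ^ k • bs o) ≤ 40 * δ * 2 ^ (80 * δ) :=
    (C.distort _ o (80 * δ) (by have := pw k le_rfl; omega) (by omega)).trans
      (Nat.mul_le_mul_right _ (pw k le_rfl))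
  have d2 := C.good.pow_far (g := g) (fun gf => hf (π.isOfFinOrder gf)) (bs o) k
  have d3 := Nat.mul_le_mul_left m d1
  have d4 : 0 < 40 * δ * 2 ^ (80 * δ) := by positivity
  rw [Nat.mul_succ, mul_comm _ m] at hk
  omega

/-- The invariants hold for the quotient. -/
theorem q_good (hρ : 200 * δ ≤ ρ) : Good H Z' δ (cA δ A) (cm δ m) p p where
  ne := C.ne.map ι
  one_le := C.one_le
  odd_p := C.good.odd_p
  odd_q := C.good.odd_p
  inv := C.quo.inv
  hyp := C.hyp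
  ovl := C.q_ovl hρ
  bdd := C.q_bdd hρ
  ell := C.q_ell hρ
  inj := C.q_inj hρ
  tors := C.q_tors hρ

end Cov

end Pool.Agent.Lib.MP_513915_al
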