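import Pool.Agent.Lib.MP_513915_al.Det
import Pool.Agent.Lib.MP_513915_al.Gap
import Pool.Agent.Lib.MP_513915_al.Lift2

/-!
Random tuples of words satisfy the local conditions with high probability.
-/

namespace Pool.Agent.Lib.MP_513915_al

open Pool.Agent.Lib.MP_e0e7d6_al Finset

section words

variable {G S : Type} [Group G] {k n : ℕ} [NeZero n]

/-- Positions in an array. -/
def pos (n : ℕ) [NeZero n] (j : Fin k) (t : ℕ) : Fin k × Fin n := (j, Fin.ofNat n t)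

/-- Products of initial segments of the rows of an array. -/
def pr (φ : S → G) (ω : Fin k × Fin n → S) (j : Fin k) (t : ℕ) : G :=
  wd φ ω ((List.range t).map (pos n j))

theorem pr_zero (φ : S → G) (ω : Fin k × Fin n → S) (j : Fin k) : pr φ ω j 0 = 1 := rfl

theorem pr_succ (φ : S → G) (ω : Fin k × Fin n → S) (j : Fin k) (t : ℕ) :
    pr φ ω j (t + 1) = pr φ ω j t * φ (ω (pos n j t)) := by
  simp [pr, wd, List.range_succ]

theorem seg_pr (φ : S → G) (ω : Fin k × Fin n → S) (j : Fin k) (a t : ℕ) :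
    seg (pr φ ω) j a (a + t) = wd φ ω ((List.range' a t).map (pos n j)) := by
  induction t with
  | zero => exact seg_self _ _ _
  | succ t ih =>
    rw [List.range'_concat, List.map_append, wd, List.map_append, List.prod_append, ← wd, ← ih,
      ← Nat.add_assoc, seg, pr_succ, ← mul_assoc]
    simp [seg]

theorem pos_eq {j j' : Fin k} {a b : ℕ} (ha : a < n) (hb : b < n) (h : pos n j a = pos n j' b) :
    j = j' ∧ a = b := by
  simp only [pos, Prod.mk.injEq, Fin.ext_iff (a := Fin.ofNat n a), Fin.val_ofNat,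
    Nat.mod_eq_of_lt ha, Nat.mod_eq_of_lt hb] at h
  exact h

theorem pos_nodup (j : Fin k) {a t : ℕ} (h : a + t ≤ n) :
    ((List.range' a t).map (pos n j)).Nodup := by
  refine List.Nodup.map_on (fun u hu v hv e => ?_) List.nodup_range'
  rw [List.mem_range'_1] at hu hv
  exact (pos_eq (by omega) (by omega) e).2

theorem seg_update (φ : S → G) (ω : Fin k × Fin n → S) {j j' : Fin k} {c t a b : ℕ}
    (hc : c + t ≤ n) (ha : a ≤ n) (hb : b ≤ n) (hd : Dj j c (c + t) j' a b) {p : Fin k × Fin n}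
    (hp : p ∈ (List.range' c t).map (pos n j)) (s : S) :
    seg (pr φ (Function.update ω p s)) j' a b = seg (pr φ ω) j' a b := by
  have key : ∀ a u, a + u ≤ n → Dj j c (c + t) j' a (a + u) →
      seg (pr φ (Function.update ω p s)) j' a (a + u) = seg (pr φ ω) j' a (a + u) := by
    intro a u h1 h2
    rw [seg_pr, seg_pr, wd_update]
    intro hq
    obtain ⟨v, hv, rfl⟩ := List.mem_map.1 hp
    obtain ⟨w, hw, e⟩ := List.mem_map.1 hq
    rw [List.mem_range'_1] at hv hw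
    have := pos_eq (by omega) (by omega) e
    unfold Dj at h2
    omega
  rcases le_total a b with h | h
  · obtain ⟨u, rfl⟩ := Nat.exists_eq_add_of_le h
    exact key a u hb hd
  · obtain ⟨u, rfl⟩ := Nat.exists_eq_add_of_le h
    rw [← seg_inv, key b u ha (by unfold Dj at *; omega), seg_inv]

end words

theorem union_card {Ω J : Type} [Fintype Ω] [Fintype J] (P : Ω → Prop) [DecidablePred P]
    (A : J → Ω → Prop) [∀ i, DecidablePred (A i)] (h : ∀ ω, P ω → ∃ i, A i ω) {β M : ℕ}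
    (hA : ∀ i, (univ.filter (A i)).card * 2 ^ β ≤ M) :
    (univ.filter P).card * 2 ^ β ≤ Fintype.card J * M := by
  classical
  have h1 : univ.filter P ⊆ univ.biUnion fun i => univ.filter (A i) := fun ω hω => by
    obtain ⟨i, hi⟩ := h ω (mem_filter.1 hω).2
    exact mem_biUnion.2 ⟨i, mem_univ _, mem_filter.2 ⟨mem_univ _, hi⟩⟩
  refine (Nat.mul_le_mul_right _ ((card_le_card h1).trans card_biUnion_le)).trans ?_
  rw [sum_mul, ← card_univ, ← smul_eq_mul]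
  exact sum_le_card_nsmul _ _ _ fun i _ => hA i

section prob

variable {G V : Type} [Group G] [MulAction G V] {X : GS V} {δ A m p : ℕ}

theorem sol_count (Γ : Good G X δ A m p p) (hc : Cyc G X p) (o : V) {γ : G} (h1 : γ ≠ 1)
    (T : Set G) {R : ℕ} (hT : ∀ y ∈ T, ∀ y' ∈ T, Commute (y * y'⁻¹) γ)
    (hR : ∀ y ∈ T, X.d o (y • o) ≤ R) :
    ∃ s : Finset G, s.card ≤ 2 * (m * (2 * R) + p) + 1 ∧ ∀ y ∈ T, y ∈ s := by
  classical
  obtain ⟨r, hr⟩ : ∃ r : G, ∀ c, Commute c γ → X.d o (c • o) ≤ 2 * R →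
      ∃ z : ℤ, z.natAbs ≤ m * (2 * R) + p ∧ c = r ^ z := by
    by_cases hf : IsOfFinOrder γ
    · obtain ⟨B, hB⟩ := Γ.bdd'
      obtain ⟨r, h2, h3⟩ := hc (Subgroup.centralizer {γ}) o (B + X.d o (γ • o) + 1) fun c hc =>
        hB γ h1 hf _ o _ le_rfl
          (by rw [Γ.inv.disp_comm (Subgroup.mem_centralizer_singleton_iff.1 hc).symm])
      refine ⟨r, fun c cc _ => ?_⟩
      obtain ⟨z, rfl⟩ := h3 (Subgroup.mem_centralizer_singleton_iff.2 cc)
      have p0 : (0 : ℤ) < p := by exact_mod_cast Γ.odd_p.pos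
      have := Int.emod_nonneg z p0.ne'
      have := Int.emod_lt_of_pos z p0
      refine ⟨z % p, by omega, ?_⟩
      exact zpow_eq_zpow_emod' z h2
    · obtain ⟨r, h2, -, h3⟩ := Γ.exists_root hf
      refine ⟨r, fun c cc hd => ?_⟩
      obtain ⟨z, rfl⟩ := h3 c cc.symm
      refine ⟨z, ?_, rfl⟩
      have e : X.d o (r ^ z • o) = X.d o (r ^ z.natAbs • o) := by
        rcases Int.natAbs_eq z with e | e
        · conv_lhs => rw [e, zpow_natCast]
        · conv_lhs => rw [e, zpow_neg, zpow_natCast, Γ.inv.disp_inv]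
      have := Γ.pow_far h2 o z.natAbs
      have := Nat.mul_le_mul_left m (e ▸ hd)
      omega
  rcases T.eq_empty_or_nonempty with rfl | ⟨y0, h0⟩
  · exact ⟨∅, by simp, by simp⟩
  refine ⟨(Icc (-(m * (2 * R) + p : ℕ) : ℤ) (m * (2 * R) + p : ℕ)).image fun z => r ^ z * y0,
    card_image_le.trans ?_, fun y hy => ?_⟩
  · rw [Int.card_Icc]
    omega
  · obtain ⟨z, h2, h3⟩ := hr _ (hT y hy y0 h0) (by
      have := Γ.inv.disp_mul y y0⁻¹ o
      have := Γ.inv.disp_inv y0 o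
      have := hR y hy
      have := hR y0 h0
      omega)
    exact mem_image.2 ⟨z, mem_Icc.2 (by omega), by rw [← h3, inv_mul_cancel_right]⟩

theorem sq_inj (Γ : Good G X δ A m p p) {x z : G} (h : x * x = z * z) : x = z := by
  by_cases h1 : x * x = 1
  · rw [Γ.eq_one_of_sq (g := x) (by rw [pow_two, h1]),
      Γ.eq_one_of_sq (g := z) (by rw [pow_two, ← h, h1])]
  have c : Commute x z := Γ.csa.trans _ _ _ h1 ((Commute.refl x).mul_left (Commute.refl x))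
    (h ▸ (Commute.refl z).mul_left (Commute.refl z))
  refine mul_inv_eq_one.1 (Γ.eq_one_of_sq ?_)
  rw [c.inv_right.mul_pow, pow_two, pow_two, h]
  group

variable {S : Type} [Fintype S] [Nonempty S] {k n : ℕ} [NeZero n] {φ : S → G} {c Λ Y β : ℕ} {o : V}

open Classical in
theorem bad1 (I : X.Inv G) (hc : 1 ≤ c) (hg : Gap φ c)
    (hb : ∀ R, ∃ s : Finset G, s.card ≤ 2 ^ (Λ * (R + 1)) ∧ ∀ g, X.d o (g • o) ≤ R → g ∈ s)
    (hY : 4 * (c * (Λ + 1 + 2 * β)) ≤ Y) {j j' : Fin k} {a b a' b' : ℕ} (ha : a ≤ n) (hb1 : b ≤ n)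
    (ha' : a' ≤ n) (hb' : b' ≤ n) :
    (univ.filter fun ω : Fin k × Fin n → S => Dj j a b j' a' b' ∧ Nat.dist a' b' ≤ Nat.dist a b ∧
      Y ≤ Nat.dist a b + Nat.dist a' b' ∧
      Y * X.d (seg (pr φ ω) j a b • o) (seg (pr φ ω) j' a' b' • o) <
        Nat.dist a b + Nat.dist a' b').card * 2 ^ β ≤ Fintype.card (Fin k × Fin n → S) := by
  by_cases h : Dj j a b j' a' b' ∧ Nat.dist a' b' ≤ Nat.dist a b ∧ Y ≤ Nat.dist a b + Nat.dist a' b'
  swap
  · rw [filter_eq_empty_iff.2 fun ω _ h' => h ⟨h'.1, h'.2.1, h'.2.2.1⟩]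
    simp
  obtain ⟨hd, h1, h2⟩ := h
  obtain ⟨R, hR⟩ : ∃ R, R = (Nat.dist a b + Nat.dist a' b') / Y := ⟨_, rfl⟩
  have Y0 : 0 < Y := by nlinarith
  have hR1 : R * Y ≤ Nat.dist a b + Nat.dist a' b' := hR ▸ Nat.div_mul_le_self _ _
  obtain ⟨s, s1, s2⟩ := hb R
  have e : min a b + Nat.dist a b = max a b := by
    unfold Nat.dist
    omega
  refine le_trans (Nat.mul_le_mul_right _ (card_le_card fun ω hω => ?_))
    (cond_card hc hg (pos_nodup j (a := min a b) (t := Nat.dist a b) (by omega))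
      (fun ω => {y | X.d (y • o) (seg (pr φ ω) j' a' b' • o) ≤ R ∨
        X.d (y⁻¹ • o) (seg (pr φ ω) j' a' b' • o) ≤ R}) (a := Λ * (R + 1) + 1) (fun ω => ?_)
      (fun q hq ω t => ?_) ?_)
  · simp only [mem_filter, mem_univ, true_and, Set.mem_ofPred_eq] at hω ⊢
    have h3 : X.d (seg (pr φ ω) j a b • o) (seg (pr φ ω) j' a' b' • o) ≤ R := by
      rw [hR, Nat.le_div_iff_mul_le Y0, mul_comm]
      exact hω.2.2.2.le
    rw [← seg_pr, e]
    rcases le_total a b with h | h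
    · rw [min_eq_left h, max_eq_right h]
      exact Or.inl h3
    · rw [min_eq_right h, max_eq_left h, seg_inv]
      exact Or.inr h3
  · have key : ∀ y : G, X.d (y • o) (seg (pr φ ω) j' a' b' • o) ≤ R →
        (seg (pr φ ω) j' a' b')⁻¹ * y ∈ s := fun y hy =>
      s2 _ (by rwa [mul_smul, X.d_comm, I.d_inv])
    refine ⟨s.image (fun g => seg (pr φ ω) j' a' b' * g) ∪
      s.image (fun g => (seg (pr φ ω) j' a' b' * g)⁻¹), (card_union_le _ _).trans ?_,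
      fun y hy => ?_⟩
    · have := card_image_le (s := s) (f := fun g => seg (pr φ ω) j' a' b' * g)
      have := card_image_le (s := s) (f := fun g => (seg (pr φ ω) j' a' b' * g)⁻¹)
      rw [pow_succ]
      omega
    · rcases hy with hy | hy
      · exact mem_union_left _ (mem_image.2 ⟨_, key _ hy, by group⟩)
      · exact mem_union_right _ (mem_image.2 ⟨_, key _ hy, by group⟩)
  · rw [seg_update φ ω (by omega) ha' hb' (by rw [e]; unfold Dj at *; omega) hq]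
  · rw [List.length_map, List.length_range']
    have h4 : 4 * (c * Λ) * R ≤ Y * R := Nat.mul_le_mul_right _ (by nlinarith)
    nlinarith

open Classical in
theorem bad2_core {B : Type} [Group B] (ψ : G →* B) (Γ : Good G X δ A m p p) (hcy : Cyc G X p)
    (hc : 1 ≤ c) (hg : Gap φ c) (hL : ∀ s, X.d o (φ s • o) ≤ Y)
    (hb : ∀ R, ∃ s : Finset G, s.card ≤ 2 ^ (Λ * (R + 1)) ∧ ∀ g, X.d o (g • o) ≤ R → g ∈ s)
    {D t e : ℕ} (he : 2 * (m * (2 * (Y * t)) + p) + 1 ≤ 2 ^ e)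
    (ht : c * (2 * (Λ * (D + 1)) + e + 2 * β) ≤ t) {j : Fin k} {a b u : ℕ} (h1 : a ≤ u)
    (h2 : u + t ≤ b) (h3 : b ≤ n) (F : (Fin k × Fin n → S) → G → G)
    (hF : ∀ q ∈ (List.range' u t).map (pos n j), ∀ ω s, F (Function.update ω q s) = F ω)
    (hγ : ∀ ω α η, ψ α ≠ 1 → ∃ γ, γ ≠ 1 ∧ ∀ y y',
      α * (seg (pr φ ω) j a u * y * seg (pr φ ω) j (u + t) b) = F ω y * η →
      α * (seg (pr φ ω) j a u * y' * seg (pr φ ω) j (u + t) b) = F ω y' * η →
      Commute (y * y'⁻¹) γ) :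
    (univ.filter fun ω : Fin k × Fin n → S => ∃ α, ψ α ≠ 1 ∧ X.d o (α • o) ≤ D ∧
      X.d (α • seg (pr φ ω) j a b • o) (F ω (seg (pr φ ω) j u (u + t)) • o) ≤ D).card * 2 ^ β ≤
      Fintype.card (Fin k × Fin n → S) := by
  obtain ⟨s, s1, s2⟩ := hb D
  refine le_trans (Nat.mul_le_mul_right _ (card_le_card fun ω hω => ?_))
    (cond_card hc hg (pos_nodup j (a := u) (t := t) (by omega))
      (fun ω => {y | X.d o (y • o) ≤ Y * t ∧ ∃ α ∈ s, ∃ η ∈ s, ψ α ≠ 1 ∧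
        α * (seg (pr φ ω) j a u * y * seg (pr φ ω) j (u + t) b) = F ω y * η})
      (a := 2 * (Λ * (D + 1)) + e) (fun ω => ?_) (fun q hq ω r => ?_) ?_)
  · simp only [mem_filter, mem_univ, true_and, Set.mem_ofPred_eq] at hω ⊢
    obtain ⟨α, a1, a2, a3⟩ := hω
    rw [← seg_pr, seg_mul, seg_mul]
    refine ⟨?_, α, s2 _ a2, (F ω (seg (pr φ ω) j u (u + t)))⁻¹ * (α * seg (pr φ ω) j a b),
      s2 _ ?_, a1, by group⟩
    · have := seg_disp (o := o) (x := pr φ ω) (Y := Y) Γ.inv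
        (fun j t => by rw [pr_succ, mul_smul, Γ.inv]; exact hL _) j u (u + t)
      rwa [Nat.dist_eq_sub_of_le (by omega), Nat.add_sub_cancel_left] at this
    · rwa [mul_smul, X.d_comm, Γ.inv.d_inv, mul_smul]
  · have key : ∀ z : G × G, ∃ w : Finset G, w.card ≤ 2 ^ e ∧ ∀ y, X.d o (y • o) ≤ Y * t →
        ψ z.1 ≠ 1 → z.1 * (seg (pr φ ω) j a u * y * seg (pr φ ω) j (u + t) b) = F ω y * z.2 →
        y ∈ w := by
      rintro ⟨α, η⟩
      by_cases hα : ψ α = 1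
      · exact ⟨∅, by simp, fun y _ h => (h hα).elim⟩
      obtain ⟨γ, g1, g2⟩ := hγ ω α η hα
      obtain ⟨w, w1, w2⟩ := sol_count Γ hcy o g1 {y | X.d o (y • o) ≤ Y * t ∧
        α * (seg (pr φ ω) j a u * y * seg (pr φ ω) j (u + t) b) = F ω y * η} (R := Y * t)
        (fun y hy y' hy' => g2 y y' hy.2 hy'.2) fun y hy => hy.1
      exact ⟨w, w1.trans he, fun y h1 _ h2 => w2 y ⟨h1, h2⟩⟩
    choose w w1 w2 using key
    refine ⟨(s ×ˢ s).biUnion w, (card_biUnion_le_card_mul _ _ _ fun z _ => w1 z).trans ?_, ?_⟩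
    · rw [card_product, pow_add, two_mul, pow_add]
      exact Nat.mul_le_mul_right _ (Nat.mul_le_mul s1 s1)
    · rintro y ⟨y1, α, hα, η, hη, y2, y3⟩
      exact mem_biUnion.2 ⟨(α, η), mem_product.2 ⟨hα, hη⟩, w2 _ y y1 y2 y3⟩
  · rw [seg_update φ ω (by omega) (by omega) (by omega) (by unfold Dj; omega) hq,
      seg_update φ ω (by omega) (by omega) h3 (by unfold Dj; omega) hq, hF q hq]
  · rwa [List.length_map, List.length_range']

omit [Fintype S] [Nonempty S] in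
theorem psi_seg {B : Type} [Group B] {ψ : G →* B} (hψ : ∀ s, ψ (φ s) = 1)
    (ω : Fin k × Fin n → S) : (∀ j t, ψ (pr φ ω j t) = 1) ∧ ∀ j a b, ψ (seg (pr φ ω) j a b) = 1 := by
  have h : ∀ j t, ψ (pr φ ω j t) = 1 := fun j t => by
    induction t with
    | zero => exact map_one ψ
    | succ t ih => rw [pr_succ, map_mul, ih, hψ, one_mul]
  exact ⟨h, fun j a b => by rw [seg, map_mul, map_inv, h, h, inv_one, one_mul]⟩

open Classical in
theorem bad2 {B : Type} [Group B] {ψ : G →* B} (hψ : ∀ s, ψ (φ s) = 1) (Γ : Good G X δ A m p p)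
    (hcy : Cyc G X p) (hc : 1 ≤ c) (hg : Gap φ c) (hL : ∀ s, X.d o (φ s • o) ≤ Y)
    (hb : ∀ R, ∃ s : Finset G, s.card ≤ 2 ^ (Λ * (R + 1)) ∧ ∀ g, X.d o (g • o) ≤ R → g ∈ s)
    {D t e : ℕ} (he : t ≤ n → 2 * (m * (2 * (Y * t)) + p) + 1 ≤ 2 ^ e)
    (ht : c * (2 * (Λ * (D + 1)) + e + 2 * β) ≤ t) {j j' : Fin k} {a b a' b' : ℕ} (hb1 : b ≤ n)
    (ha' : a' ≤ n) (hb' : b' ≤ n) :
    (univ.filter fun ω : Fin k × Fin n → S => a + 3 * t ≤ b ∧ ∃ α, ψ α ≠ 1 ∧ X.d o (α • o) ≤ D ∧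
      X.d (α • seg (pr φ ω) j a b • o) (seg (pr φ ω) j' a' b' • o) ≤ D).card * 2 ^ β ≤
      Fintype.card (Fin k × Fin n → S) := by
  by_cases h : a + 3 * t ≤ b
  swap
  · rw [filter_eq_empty_iff.2 fun ω _ h' => h h'.1]
    simp
  obtain ⟨u, u1, u2, u3, u4⟩ : ∃ u, a ≤ u ∧ u + t ≤ b ∧ (a' ≤ u ∨ u + t ≤ a') ∧
      (b' ≤ u ∨ u + t ≤ b') := by
    by_cases c1 : (a' ≤ a ∨ a + t ≤ a') ∧ (b' ≤ a ∨ a + t ≤ b')
    · exact ⟨a, le_rfl, by omega, c1⟩
    by_cases c2 : (a' ≤ a + t ∨ a + t + t ≤ a') ∧ (b' ≤ a + t ∨ a + t + t ≤ b')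
    · exact ⟨a + t, by omega, by omega, c2⟩
    exact ⟨a + t + t, by omega, by omega, by omega⟩
  have core := bad2_core ψ Γ hcy hc hg hL hb (he (by omega)) ht (j := j) u1 u2 hb1
  have ne1 : ∀ {α : G}, ψ α ≠ 1 → α ≠ 1 := fun h e => h (by rw [e, map_one])
  simp only [h, true_and]
  by_cases hd : Dj j u (u + t) j' a' b'
  · refine core (fun ω _ => seg (pr φ ω) j' a' b')
      (fun q hq ω s => by rw [seg_update φ ω (by omega) ha' hb' hd hq])
      fun ω α η hα => ⟨α, ne1 hα, fun y y' e1 e2 => ?_⟩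
    have : y = y' := mul_left_cancel (mul_right_cancel (mul_left_cancel (e1.trans e2.symm)))
    rw [this, mul_inv_cancel]
    exact Commute.one_left _
  obtain rfl : j = j' := by
    by_contra e
    exact hd (Or.inl e)
  by_cases hl : a' ≤ u ∧ u + t ≤ b'
  · have := core (fun ω y => seg (pr φ ω) j a' u * y * seg (pr φ ω) j (u + t) b')
      (fun q hq ω s => by
        rw [seg_update φ ω (by omega) ha' (by omega) (by unfold Dj; omega) hq,
          seg_update φ ω (by omega) (by omega) hb' (by unfold Dj; omega) hq])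
      fun ω α η hα => ⟨(seg (pr φ ω) j a' u)⁻¹ * α * seg (pr φ ω) j a u,
        ne1 (by simpa [(psi_seg hψ ω).2] using hα), fun y y' e1 e2 => ?_⟩
    · simpa only [seg_mul] using this
    beta_reduce at e1 e2
    generalize seg (pr φ ω) j a' u = P' at *
    generalize seg (pr φ ω) j a u = P at *
    generalize seg (pr φ ω) j (u + t) b' = Q' at *
    generalize seg (pr φ ω) j (u + t) b = Q at *
    have f : ∀ y, α * (P * y * Q) = P' * y * Q' * η → P'⁻¹ * α * P = y * (Q' * η * Q⁻¹) * y⁻¹ :=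
      fun y e => by
        calc P'⁻¹ * α * P = P'⁻¹ * (α * (P * y * Q)) * Q⁻¹ * y⁻¹ := by group
          _ = _ := by rw [e]; group
    show _ * _ = _ * _
    calc y * y'⁻¹ * (P'⁻¹ * α * P) = y * (Q' * η * Q⁻¹) * y⁻¹ * (y * y'⁻¹) := by
          rw [f y' e2]; group
      _ = _ := by rw [← f y e1]
  · have := core (fun ω y => seg (pr φ ω) j a' (u + t) * y⁻¹ * seg (pr φ ω) j u b')
      (fun q hq ω s => by
        rw [seg_update φ ω (by omega) ha' (by omega) (by unfold Dj at *; omega) hq,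
          seg_update φ ω (by omega) (by omega) hb' (by unfold Dj at *; omega) hq])
      fun ω α η hα => ⟨α, ne1 hα, fun y y' e1 e2 => ?_⟩
    · simpa only [seg_mul, seg_inv] using this
    beta_reduce at e1 e2
    generalize seg (pr φ ω) j a' (u + t) = P' at *
    generalize seg (pr φ ω) j a u = P at *
    generalize seg (pr φ ω) j u b' = Q' at *
    generalize seg (pr φ ω) j (u + t) b = Q at *
    have f : ∀ y, α * (P * y * Q) = P' * y⁻¹ * Q' * η →
        y * (Q * η⁻¹ * Q'⁻¹) * (y * (Q * η⁻¹ * Q'⁻¹)) = (α * P)⁻¹ * P' * (Q * η⁻¹ * Q'⁻¹) :=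
      fun y e => by
        calc _ = (α * P)⁻¹ * (α * (P * y * Q)) * η⁻¹ * Q'⁻¹ * y * (Q * η⁻¹ * Q'⁻¹) := by group
          _ = _ := by rw [e]; group
    have : y = y' := mul_right_cancel (sq_inj Γ ((f y e1).trans (f y' e2).symm))
    rw [this, mul_inv_cancel]
    exact Commute.one_left _

open Classical in
theorem prob_local {B : Type} [Group B] {ψ : G →* B} (hψ : ∀ s, ψ (φ s) = 1)
    (Γ : Good G X δ A m p p) (hcy : Cyc G X p) (hc : 1 ≤ c) (hg : Gap φ c)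
    (hL : ∀ s, X.d o (φ s • o) ≤ Y)
    (hb : ∀ R, ∃ s : Finset G, s.card ≤ 2 ^ (Λ * (R + 1)) ∧ ∀ g, X.d o (g • o) ≤ R → g ∈ s)
    {τ : ℕ} (hτ : n + 1 ≤ 2 ^ τ) (hk : 1 ≤ k) (hmp : m + p ≤ n) (hYn : Y ≤ n)
    (hY : 4 * (c * (Λ + 1 + 2 * (2 * k + 5 * τ + 1))) ≤ Y) (D : ℕ) :
    (univ.filter fun ω : Fin k × Fin n → S => ¬ (E1 X o (pr φ ω) n Y ∧
      E2 X o (fun a => ψ a ≠ 1) (pr φ ω) n D (3 * (Y * (D + 1))))).card * 2 ^ τ ≤
      Fintype.card (Fin k × Fin n → S) := by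
  have he : Y * (D + 1) ≤ n → 2 * (m * (2 * (Y * (Y * (D + 1)))) + p) + 1 ≤ 2 ^ (3 * τ + 3) := by
    intro h
    have h1 : m * (Y * (Y * (D + 1))) ≤ n * (n * n) :=
      Nat.mul_le_mul (by omega) (Nat.mul_le_mul hYn h)
    have h2 : (n + 1) ^ 3 ≤ (2 ^ τ) ^ 3 := Nat.pow_le_pow_left hτ 3
    rw [pow_add, mul_comm 3 τ, pow_mul]
    nlinarith
  have ht : c * (2 * (Λ * (D + 1)) + (3 * τ + 3) + 2 * (2 * k + 5 * τ + 1)) ≤ Y * (D + 1) := by
    have h1 : 4 * (c * Λ) * (D + 1) ≤ Y * (D + 1) := Nat.mul_le_mul_right _ (by nlinarith)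
    have h2 : c * (3 * τ + 3) ≤ c * (2 * (2 * k + 5 * τ + 1)) := Nat.mul_le_mul_left _ (by omega)
    nlinarith
  have key := union_card (J := Bool × (Fin k × Fin (n + 1) × Fin (n + 1)) ×
      (Fin k × Fin (n + 1) × Fin (n + 1)))
    (fun ω : Fin k × Fin n → S => ¬ (E1 X o (pr φ ω) n Y ∧
      E2 X o (fun a => ψ a ≠ 1) (pr φ ω) n D (3 * (Y * (D + 1)))))
    (fun i ω => if i.1 = true then
      Dj i.2.1.1 i.2.1.2.1 i.2.1.2.2 i.2.2.1 i.2.2.2.1 i.2.2.2.2 ∧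
        Nat.dist i.2.2.2.1 i.2.2.2.2 ≤ Nat.dist i.2.1.2.1 i.2.1.2.2 ∧
        Y ≤ Nat.dist i.2.1.2.1 i.2.1.2.2 + Nat.dist i.2.2.2.1 i.2.2.2.2 ∧
        Y * X.d (seg (pr φ ω) i.2.1.1 i.2.1.2.1 i.2.1.2.2 • o)
          (seg (pr φ ω) i.2.2.1 i.2.2.2.1 i.2.2.2.2 • o) <
          Nat.dist i.2.1.2.1 i.2.1.2.2 + Nat.dist i.2.2.2.1 i.2.2.2.2
      else i.2.1.2.1 + 3 * (Y * (D + 1)) ≤ i.2.1.2.2 ∧ ∃ α, ψ α ≠ 1 ∧ X.d o (α • o) ≤ D ∧
        X.d (α • seg (pr φ ω) i.2.1.1 i.2.1.2.1 i.2.1.2.2 • o)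
          (seg (pr φ ω) i.2.2.1 i.2.2.2.1 i.2.2.2.2 • o) ≤ D)
    (β := 2 * k + 5 * τ + 1) (M := Fintype.card (Fin k × Fin n → S)) (fun ω hω => ?_) fun i => ?_
  · have h1 : Fintype.card (Bool × (Fin k × Fin (n + 1) × Fin (n + 1)) ×
        (Fin k × Fin (n + 1) × Fin (n + 1))) ≤ 2 ^ (2 * k + 4 * τ + 1) := by
      have h2 : k * ((n + 1) * (n + 1)) ≤ 2 ^ k * (2 ^ τ * 2 ^ τ) :=
        Nat.mul_le_mul Nat.lt_two_pow_self.le (Nat.mul_le_mul hτ hτ)
      simp only [Fintype.card_prod, Fintype.card_bool, Fintype.card_fin]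
      refine (Nat.mul_le_mul_left _ (Nat.mul_le_mul h2 h2)).trans (le_of_eq ?_)
      ring
    have h2 := key.trans (Nat.mul_le_mul_right _ h1)
    rw [show 2 * k + 5 * τ + 1 = τ + (2 * k + 4 * τ + 1) by omega, pow_add, ← mul_assoc,
      mul_comm] at h2
    exact Nat.le_of_mul_le_mul_left h2 (by positivity)
  · rw [not_and_or] at hω
    rcases hω with hω | hω
    · unfold E1 at hω
      push Not at hω
      obtain ⟨j, a, b, j', a', b', ha, hb, ha', hb', h1, h2, h3⟩ := hω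
      rcases le_total (Nat.dist a' b') (Nat.dist a b) with h | h
      · exact ⟨(true, (j, ⟨a, by omega⟩, ⟨b, by omega⟩), (j', ⟨a', by omega⟩, ⟨b', by omega⟩)),
          by simpa using ⟨h1, h, h2, h3⟩⟩
      · refine ⟨(true, (j', ⟨a', by omega⟩, ⟨b', by omega⟩), (j, ⟨a, by omega⟩, ⟨b, by omega⟩)), ?_⟩
        rw [X.d_comm] at h3
        simpa using ⟨by unfold Dj at *; omega, h, by omega, by omega⟩
    · unfold E2 at hω
      push Not at hω
      obtain ⟨j, a, b, j', a', b', α, ha, hb, ha', hb', h1, h2, h3, h4⟩ := hω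
      unfold Nat.dist at h4
      rcases le_total a b with h | h
      · exact ⟨(false, (j, ⟨a, by omega⟩, ⟨b, by omega⟩), (j', ⟨a', by omega⟩, ⟨b', by omega⟩)),
          by simpa using ⟨by omega, α, h1, h2, h3⟩⟩
      · refine ⟨(false, (j, ⟨b, by omega⟩, ⟨a, by omega⟩), (j', ⟨b', by omega⟩, ⟨a', by omega⟩)),
          ?_⟩
        simp only [Bool.false_eq_true, if_false]
        refine ⟨by omega, (seg (pr φ ω) j' a' b')⁻¹ * α * seg (pr φ ω) j a b,
          by simpa [(psi_seg hψ ω).2] using h1, ?_, ?_⟩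
        · rwa [mul_smul, mul_smul, X.d_comm, Γ.inv.d_inv]
        · rwa [← mul_smul, mul_assoc, seg_mul, seg_self, mul_one, seg_inv, mul_smul, Γ.inv,
            X.d_comm]
  · obtain ⟨_ | _, ⟨j, a, b⟩, ⟨j', a', b'⟩⟩ := i
    · simp only [Bool.false_eq_true, if_false]
      convert bad2 hψ Γ hcy hc hg hL hb he ht (j := j) (j' := j') (a := a) (Nat.lt_succ_iff.1 b.2)
        (Nat.lt_succ_iff.1 a'.2) (Nat.lt_succ_iff.1 b'.2)
    · simp only [if_true]
      convert bad1 Γ.inv hc hg hb hY (j := j) (j' := j') (Nat.lt_succ_iff.1 a.2)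
        (Nat.lt_succ_iff.1 b.2) (Nat.lt_succ_iff.1 a'.2) (Nat.lt_succ_iff.1 b'.2)

open Classical in
theorem prob_main {B : Type} [Group B] {ψ : G →* B} (hψ : ∀ s, ψ (φ s) = 1)
    (Γ : Good G X δ A m p p) (hcy : Cyc G X p) (hc : 1 ≤ c) (hg : Gap φ c) {W τ : ℕ}
    (hL : ∀ s, X.d o (φ s • o) ≤ W)
    (hb : ∀ R, ∃ s : Finset G, s.card ≤ 2 ^ (Λ * (R + 1)) ∧ ∀ g, X.d o (g • o) ≤ R → g ∈ s)
    (hτ : n + 1 ≤ 2 ^ τ) (hk : 1 ≤ k) (hmp : m + p ≤ n) (w1 : δ ≤ W) (w2 : c ≤ W) (w3 : Λ ≤ W)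
    (w4 : k ≤ W) (hn : 400000 * (72 * W ^ 2 * τ) ^ 13 ≤ n) :
    (univ.filter fun ω : Fin k × Fin n → S => ¬ ∀ l : Fin k → ℕ, (∀ j, n ≤ 2 * l j) →
      (∀ j, l j ≤ n) → Function.Injective (FreeGroup.lift fun j => pr φ ω j (l j)) ∧
        GM X (fun a => ψ a ≠ 1) (Set.range fun w => FreeGroup.lift (fun j => pr φ ω j (l j)) w • o)
          (400000 * (72 * W ^ 2 * τ) ^ 13)).card * 2 ^ τ ≤ Fintype.card (Fin k × Fin n → S) := by
  have n0 := NeZero.pos n
  have τ1 : 1 ≤ τ := by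
    by_contra h
    obtain rfl : τ = 0 := by omega
    omega
  have W1 : 1 ≤ W := by omega
  have y1 : 4 * (c * (Λ + 1 + 2 * (2 * k + 5 * τ + 1))) ≤ 72 * W ^ 2 * τ := by
    have h1 : c * (Λ + 1 + 2 * (2 * k + 5 * τ + 1)) ≤ W * (8 * W + 10 * τ) :=
      Nat.mul_le_mul w2 (by omega)
    have h2 : W * W * 1 ≤ W * W * τ := Nat.mul_le_mul_left _ τ1
    have h3 : W * 1 * τ ≤ W * W * τ := Nat.mul_le_mul_right _ (Nat.mul_le_mul_left _ W1)
    nlinarith
  have y2 : W ≤ 72 * W ^ 2 * τ ∧ τ ≤ 72 * W ^ 2 * τ := by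
    have h2 : W * W * 1 ≤ W * W * τ := Nat.mul_le_mul_left _ τ1
    have h3 : 1 * 1 * τ ≤ W * W * τ := Nat.mul_le_mul_right _ (Nat.mul_le_mul W1 W1)
    constructor <;> nlinarith
  generalize 72 * W ^ 2 * τ = Y at *
  have Y1 : 1 ≤ Y := by omega
  have pw : ∀ a b, a ≤ b → Y ^ a ≤ Y ^ b := fun a b h => Nat.pow_le_pow_right Y1 h
  have p0 := pw 0 1 (by omega)
  have p1 := pw 1 2 (by omega)
  have p2 := pw 2 3 (by omega)
  have p3 := pw 3 4 (by omega)
  have p4 := pw 4 5 (by omega)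
  have p5 := pw 5 6 (by omega)
  have p6 := pw 6 8 (by omega)
  have p7 := pw 6 13 (by omega)
  have p8 := pw 8 13 (by omega)
  have p9 := pw 5 13 (by omega)
  have p10 := pw 11 13 (by omega)
  rw [pow_one] at p0 p1
  refine le_trans (Nat.mul_le_mul_right _ (card_le_card fun ω hω => ?_))
    (prob_local hψ Γ hcy hc hg (fun s => (hL s).trans y2.1) hb hτ hk hmp (by omega) y1
      (2 * (150 * Y ^ 6) + 4 * Y))
  simp only [mem_filter, mem_univ, true_and] at hω ⊢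
  refine fun h => hω fun l l1 l2 => ?_
  have := det ψ (psi_seg hψ ω).1 (Γ.hyp.mono (w1.trans y2.1)) Γ.inv
    (fun j t => by rw [pr_succ, mul_smul, Γ.inv]; exact (hL _).trans y2.1)
    (le_trans (by omega) (Nat.pow_le_pow_right two_pos y2.2)) h.1 (E := 3 * Y ^ 2)
    (R := 13 * Y ^ 4) (T := 30 * Y ^ 5) (Γ := 1300 * Y ^ 8) (by nlinarith) (by nlinarith)
    (by nlinarith) (by nlinarith) h.2 (by nlinarith) (by nlinarith) l l1 l2 ⟨0, hk⟩
  simp only [seg, pr_zero, inv_one, one_mul] at this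
  exact ⟨this.1, this.2.mono (by omega)⟩

end prob

end Pool.Agent.Lib.MP_513915_al
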