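import Pool.Agent.Lib.MP_513915_al.Defs
import Pool.Agent.Lib.MP_513915_al.Prob

/-!
Counting tuples of words in disks.
-/

namespace Pool.Agent.Lib.MP_513915_al

open Filter Topology

variable {S : Type} {k : ℕ}

theorem disk_finite [Finite S] (k n : ℕ) : (disk S k n).Finite :=
  Set.Finite.pi' fun _ => List.finite_length_le S n

theorem disk_pos [Finite S] (k n : ℕ) : 0 < (disk S k n).ncard :=
  (Set.ncard_pos (disk_finite k n)).2 ⟨fun _ => [], fun _ => Nat.zero_le _⟩

/-- The tuple of words read at the beginning of the rows of an array. -/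
def trunc {n : ℕ} [NeZero n] (ω : Fin k × Fin n → S) (l : Fin k → ℕ) (j : Fin k) : List S :=
  (List.range (l j)).map fun t => ω (pos n j t)

theorem eval_trunc {G : Type} [Group G] (φ : S → G) {n : ℕ} [NeZero n] (ω : Fin k × Fin n → S)
    (l : Fin k → ℕ) (j : Fin k) : evalWord φ (trunc ω l j) = pr φ ω j (l j) := by
  simp only [evalWord, trunc, pr, wd, List.map_map]
  rfl

open Classical in
theorem long_bad [Fintype S] [Nonempty S] {n M : ℕ} [NeZero n] (Q : (Fin k → List S) → Prop)
    (h : (Finset.univ.filter fun ω : Fin k × Fin n → S => ¬ ∀ l : Fin k → ℕ, (∀ j, n ≤ 2 * l j) →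
      (∀ j, l j ≤ n) → Q (trunc ω l)).card * M ≤ Fintype.card (Fin k × Fin n → S)) :
    {w ∈ disk S k n | (∀ j, n ≤ 2 * (w j).length) ∧ ¬ Q w}.ncard * M ≤ (disk S k n).ncard := by
  let fill : (Fin k → List S) → (Fin k × Fin n → S) → Fin k × Fin n → S :=
    fun w ω p => (w p.1).getD p.2 (ω p)
  have f1 : ∀ w ∈ disk S k n, ∀ ω, trunc (fill w ω) (fun j => (w j).length) = w := by
    intro w hw ω
    funext j
    refine List.ext_getElem (by simp [trunc]) fun t h1 h2 => ?_
    have := hw j
    simp [trunc, fill, pos, Nat.mod_eq_of_lt (show t < n by omega), h2]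
  have f2 : ∀ w ω, fill (trunc ω fun j => (w j).length) (fill w ω) = ω := by
    intro w ω
    funext ⟨j, t⟩
    by_cases ht : (t : ℕ) < (w j).length
    · simp [trunc, fill, pos, ht]
    · simp [trunc, fill, ht]
  set B := Finset.univ.filter fun ω : Fin k × Fin n → S => ¬ ∀ l : Fin k → ℕ, (∀ j, n ≤ 2 * l j) →
      (∀ j, l j ≤ n) → Q (trunc ω l) with hB
  have key := Set.ncard_le_ncard_of_injOn
    (s := {w ∈ disk S k n | (∀ j, n ≤ 2 * (w j).length) ∧ ¬ Q w} ×ˢ
      (Set.univ : Set (Fin k × Fin n → S))) (t := (B : Set _) ×ˢ disk S k n)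
    (fun x => (fill x.1 x.2, trunc x.2 fun j => (x.1 j).length))
    (fun x hx => ⟨by
      simp only [hB, Finset.coe_filter, Finset.mem_univ, true_and, Set.mem_ofPred_eq]
      exact fun hq => hx.1.2.2 (f1 _ hx.1.1 x.2 ▸ hq _ hx.1.2.1 hx.1.1),
      fun j => by simpa [trunc] using hx.1.1 j⟩)
    (fun x hx y hy e => by
      simp only [Prod.mk.injEq] at e
      have e1 : (fun j => (x.1 j).length) = fun j => (y.1 j).length := by
        funext j
        simpa [trunc] using congrArg (fun w => (w j).length) e.2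
      refine Prod.ext ?_ ?_
      · rw [← f1 _ hx.1.1 x.2, ← f1 _ hy.1.1 y.2, e.1, e1]
      · rw [← f2 x.1 x.2, ← f2 y.1 y.2, e.1, e.2])
    (B.finite_toSet.prod (disk_finite k n))
  rw [Set.ncard_prod, Set.ncard_prod, Set.ncard_univ, Nat.card_eq_fintype_card,
    Set.ncard_coe_finset] at key
  refine Nat.le_of_mul_le_mul_right ?_ (Fintype.card_pos (α := Fin k × Fin n → S))
  calc _ = _ * Fintype.card (Fin k × Fin n → S) * M := by ring
    _ ≤ B.card * (disk S k n).ncard * M := Nat.mul_le_mul_right _ key
    _ = (disk S k n).ncard * (B.card * M) := by ring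
    _ ≤ _ := Nat.mul_le_mul_left _ h

theorem short_bad [Fintype S] [Nontrivial S] (n : ℕ) (j : Fin k) :
    {w ∈ disk S k n | 2 * (w j).length < n}.ncard * (n / 2) ≤ (disk S k n).ncard := by
  classical
  have key := Set.ncard_le_ncard_of_injOn
    (s := {w ∈ disk S k n | 2 * (w j).length < n} ×ˢ (Set.univ : Set (Fin (n / 2) → S)))
    (t := disk S k n) (fun x => Function.update x.1 j (x.1 j ++ List.ofFn x.2))
    (fun x hx i => by
      by_cases e : i = j
      · subst e
        have := hx.1.2
        simp only [Function.update_self, List.length_append, List.length_ofFn]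
        omega
      · rw [Function.update_of_ne e]
        exact hx.1.1 i)
    (fun x _ y _ e => by
      have e1 := congrFun e j
      simp only [Function.update_self] at e1
      obtain ⟨e2, e3⟩ := List.append_inj' e1 (by simp)
      refine Prod.ext (funext fun i => ?_) (List.ofFn_injective e3)
      by_cases h : i = j
      · rw [h, e2]
      · simpa [Function.update_of_ne h] using congrFun e i)
    (disk_finite k n)
  rw [Set.ncard_prod, Set.ncard_univ, Nat.card_eq_fintype_card, Fintype.card_fun,
    Fintype.card_fin] at key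
  exact (Nat.mul_le_mul_left _ (Nat.lt_pow_self Fintype.one_lt_card).le).trans key

theorem generic_of [Fintype S] [Nontrivial S] (T : Set (Fin k → List S))
    (h : ∀ᶠ n in atTop, {w ∈ disk S k n | (∀ j, n ≤ 2 * (w j).length) ∧ w ∉ T}.ncard * n ≤
      (disk S k n).ncard) : Generic T := by
  have t1 : Tendsto (fun n : ℕ => 1 - ((k : ℝ) + 1) / ((n / 2 : ℕ) : ℝ)) atTop (𝓝 1) := by
    have := (tendsto_const_div_atTop_nhds_zero_nat ((k : ℝ) + 1)).comp
      (Nat.tendsto_div_const_atTop two_ne_zero)
    simpa using this.const_sub 1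
  refine tendsto_of_tendsto_of_tendsto_of_le_of_le' t1 tendsto_const_nhds ?_
    (Eventually.of_forall fun n => ?_)
  · filter_upwards [h, eventually_ge_atTop 2] with n hn h2
    have fin := disk_finite (S := S) k n
    have p1 : (0 : ℝ) < (disk S k n).ncard := by exact_mod_cast disk_pos k n
    have p2 : (0 : ℝ) < (n / 2 : ℕ) := by exact_mod_cast (show 0 < n / 2 by omega)
    have c1 : (disk S k n).ncard ≤ (T ∩ disk S k n).ncard +
        ({w ∈ disk S k n | (∀ j, n ≤ 2 * (w j).length) ∧ w ∉ T}.ncard +
          ∑ j, {w ∈ disk S k n | 2 * (w j).length < n}.ncard) := by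
      refine le_trans (Set.ncard_le_ncard (t := T ∩ disk S k n ∪
        ({w ∈ disk S k n | (∀ j, n ≤ 2 * (w j).length) ∧ w ∉ T} ∪
          ⋃ j, {w ∈ disk S k n | 2 * (w j).length < n})) (fun w hw => ?_) ?_)
        ((Set.ncard_union_le _ _).trans (Nat.add_le_add_left ((Set.ncard_union_le _ _).trans
          (Nat.add_le_add_left (Set.ncard_iUnion_le_of_fintype _) _)) _))
      · by_cases h1 : w ∈ T
        · exact Or.inl ⟨h1, hw⟩
        by_cases h3 : ∀ j, n ≤ 2 * (w j).length
        · exact Or.inr (Or.inl ⟨hw, h3, h1⟩)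
        · push Not at h3
          obtain ⟨j, hj⟩ := h3
          exact Or.inr (Or.inr (Set.mem_iUnion.2 ⟨j, hw, hj⟩))
      · exact (fin.subset Set.inter_subset_right).union ((fin.subset fun _ h => h.1).union
          (Set.finite_iUnion fun _ => fin.subset fun _ h => h.1))
    have c2 : (∑ j, {w ∈ disk S k n | 2 * (w j).length < n}.ncard) * (n / 2) ≤
        k * (disk S k n).ncard := by
      rw [Finset.sum_mul]
      simpa using Finset.sum_le_card_nsmul Finset.univ _ _ fun j _ => short_bad (S := S) n j
    have c3 := (Nat.mul_le_mul_left _ (Nat.div_le_self n 2)).trans hn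
    have c4 : (disk S k n).ncard * (n / 2) ≤ (T ∩ disk S k n).ncard * (n / 2) +
        (k + 1) * (disk S k n).ncard := by
      have := Nat.mul_le_mul_right (n / 2) c1
      nlinarith
    have c5 : ((disk S k n).ncard : ℝ) * (n / 2 : ℕ) ≤ (T ∩ disk S k n).ncard * (n / 2 : ℕ) +
        (k + 1) * (disk S k n).ncard := by exact_mod_cast c4
    rw [le_div_iff₀ p1, sub_mul, one_mul, div_mul_eq_mul_div, sub_le_iff_le_add,
      ← sub_le_iff_le_add', le_div_iff₀ p2]
    linarith
  · have := Set.ncard_le_ncard (s := T ∩ disk S k n) Set.inter_subset_right (disk_finite k n)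
    exact div_le_one_of_le₀ (by exact_mod_cast this) (by positivity)

theorem not_generic [Fintype S] {G B : Type} [Group G] [Group B] (ψ : G →* B) (φ : S → G) {s : S}
    (hs : ψ (φ s) ≠ 1) (T : Set (Fin 1 → List S)) (hT : ∀ w ∈ T, ψ (evalWord φ (w 0)) = 1) :
    ¬ Generic T := by
  intro h
  obtain ⟨c, hc⟩ : ∃ c, c = Fintype.card S + 1 := ⟨_, rfl⟩
  have c0 : (0 : ℝ) < c := by exact_mod_cast (show 0 < c by omega)
  have key : ∀ n, ((T ∩ disk S 1 (n + 1)).ncard : ℝ) / (disk S 1 (n + 1)).ncard ≤ 1 - 1 / (2 * c) := by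
    intro n
    have fin := disk_finite (S := S) 1 (n + 1)
    have a1 : (disk S 1 (n + 1)).ncard ≤ c * (disk S 1 n).ncard := by
      have := Set.ncard_le_ncard_of_injOn (s := disk S 1 (n + 1))
        (t := (Set.univ : Set (Option S)) ×ˢ disk S 1 n) (fun w => ((w 0).head?, fun _ => (w 0).tail))
        (fun w hw => ⟨trivial, fun _ => by have := hw 0; simp only [List.length_tail]; omega⟩)
        (fun v _ w _ e => by
          simp only [Prod.mk.injEq] at e
          funext i
          rw [Subsingleton.elim i 0]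
          have e1 := e.1
          have e2 := congrFun e.2 0
          revert e1 e2
          cases v 0 <;> cases w 0 <;> simp +contextual)
        (Set.finite_univ.prod (disk_finite 1 n))
      rwa [Set.ncard_prod, Set.ncard_univ, Nat.card_eq_fintype_card, Fintype.card_option,
        ← hc] at this
    set O := {w ∈ disk S 1 (n + 1) | ψ (evalWord φ (w 0)) ≠ 1} with hO
    have fO : O.Finite := fin.subset fun _ h => h.1
    have a2 : {w ∈ disk S 1 n | ψ (evalWord φ (w 0)) = 1}.ncard ≤ O.ncard :=
      Set.ncard_le_ncard_of_injOn (fun w _ => s :: w 0)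
        (fun w hw => ⟨fun _ => Nat.succ_le_succ (hw.1 0), by
          have := hw.2
          simp only [evalWord, List.map_cons, List.prod_cons, map_mul] at this ⊢
          rwa [this, mul_one]⟩)
        (fun v _ w _ e => by
          funext i
          rw [Subsingleton.elim i 0]
          exact List.tail_eq_of_cons_eq (congrFun e 0)) fO
    have a3 : (disk S 1 n).ncard ≤ {w ∈ disk S 1 n | ψ (evalWord φ (w 0)) = 1}.ncard + O.ncard := by
      refine le_trans (Set.ncard_le_ncard (fun w hw => ?_)
        (((disk_finite 1 n).subset fun _ h => h.1).union fO)) (Set.ncard_union_le _ _)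
      by_cases e : ψ (evalWord φ (w 0)) = 1
      · exact Or.inl ⟨hw, e⟩
      · exact Or.inr ⟨fun i => (hw i).trans (Nat.le_succ n), e⟩
    have a4 : (T ∩ disk S 1 (n + 1)).ncard + O.ncard ≤ (disk S 1 (n + 1)).ncard := by
      rw [← Set.ncard_union_eq (Set.disjoint_left.2 fun w h1 h2 => h2.2 (hT w h1.1))
        (fin.subset Set.inter_subset_right) fO]
      exact Set.ncard_le_ncard (Set.union_subset Set.inter_subset_right fun _ h => h.1) fin
    have a5 : (disk S 1 (n + 1)).ncard ≤ 2 * c * O.ncard := by
      have := Nat.mul_le_mul_left c (show (disk S 1 n).ncard ≤ 2 * O.ncard by omega)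
      nlinarith
    have p1 : (0 : ℝ) < (disk S 1 (n + 1)).ncard := by exact_mod_cast disk_pos 1 (n + 1)
    have b4 : ((T ∩ disk S 1 (n + 1)).ncard : ℝ) + O.ncard ≤ (disk S 1 (n + 1)).ncard := by
      exact_mod_cast a4
    have b5 : ((disk S 1 (n + 1)).ncard : ℝ) ≤ 2 * c * O.ncard := by exact_mod_cast a5
    rw [div_le_iff₀ p1, sub_mul, one_mul, div_mul_eq_mul_div, one_mul, le_sub_comm,
      div_le_iff₀ (by positivity)]
    nlinarith
  have := le_of_tendsto' (h.comp (tendsto_add_atTop_nat 1)) key
  have : (0 : ℝ) < 1 / (2 * c) := by positivity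
  linarith

end Pool.Agent.Lib.MP_513915_al
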