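import Mathlib

/-!
The generic free basis property.
-/

namespace Pool.Agent.Lib.MP_513915_al

/-- The element of `G` represented by a word over the alphabet `S`, each letter `s` standing for
the element `φ s`. -/
def evalWord {S G : Type} [Group G] (φ : S → G) (w : List S) : G := (w.map φ).prod

/-- The disk of radius `n`: the `k`-tuples of words, each of length at most `n`. -/
def disk (S : Type) (k n : ℕ) : Set (Fin k → List S) := {w | ∀ i, (w i).length ≤ n}

/-- A set of `k`-tuples of words is generic if its proportion in the disks tends to one. -/
def Generic {S : Type} {k : ℕ} (T : Set (Fin k → List S)) : Prop :=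
  Filter.Tendsto (fun n : ℕ => ((T ∩ disk S k n).ncard : ℝ) / ((disk S k n).ncard : ℝ))
    Filter.atTop (nhds 1)

/-- The elements `g i` generate a free subgroup of rank `k`. -/
def FreeRank {G : Type} [Group G] {k : ℕ} (g : Fin k → G) : Prop :=
  Nonempty (Subgroup.closure (Set.range g) ≃* FreeGroup (Fin k))

/-- The letters generate `G`, and the inverse of each letter is represented by a letter. -/
def IsAlphabet {S G : Type} [Group G] (φ : S → G) : Prop :=
  Subgroup.closure (Set.range φ) = ⊤ ∧ ∀ s, ∃ t, φ t = (φ s)⁻¹

/-- Generic `k`-tuples of words generate a free subgroup of rank `k`. -/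
def GenericFree {S G : Type} [Group G] (φ : S → G) (k : ℕ) : Prop :=
  Generic {w : Fin k → List S | FreeRank fun i => evalWord φ (w i)}

/-- The generic free basis property. -/
def GFBP (G : Type) [Group G] : Prop :=
  ∀ (S : Type) [Finite S] (φ : S → G), IsAlphabet φ → ∀ k, 1 ≤ k → GenericFree φ k

end Pool.Agent.Lib.MP_513915_al
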