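import Pool.Agent.Lib.MP_513915_al.Cross

/-!
From local properties of a tuple of paths to freeness and short overlaps.
-/

namespace Pool.Agent.Lib.MP_513915_al

open Pool.Agent.Lib.MP_e0e7d6_al

variable {G V : Type} [Group G] [MulAction G V] {k : ℕ}

/-- The element read along the path `j` between the times `a` and `b`. -/
def seg (x : Fin k → ℕ → G) (j : Fin k) (a b : ℕ) : G := (x j a)⁻¹ * x j b

/-- Disjoint intervals of positions. -/
def Dj (j : Fin k) (a b : ℕ) (j' : Fin k) (a' b' : ℕ) : Prop :=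
  j ≠ j' ∨ (a ≤ a' ∧ a ≤ b' ∧ b ≤ a' ∧ b ≤ b') ∨ (a' ≤ a ∧ a' ≤ b ∧ b' ≤ a ∧ b' ≤ b)

/-- Linear divergence of disjoint segments. -/
def E1 (X : GS V) (o : V) (x : Fin k → ℕ → G) (n Y : ℕ) : Prop :=
  ∀ j a b j' a' b', a ≤ n → b ≤ n → a' ≤ n → b' ≤ n → Dj j a b j' a' b' →
    Y ≤ Nat.dist a b + Nat.dist a' b' →
    Nat.dist a b + Nat.dist a' b' ≤ Y * X.d (seg x j a b • o) (seg x j' a' b' • o)

/-- Long segments do not travel along outer translates of segments. -/
def E2 (X : GS V) (o : V) (Out : G → Prop) (x : Fin k → ℕ → G) (n D T : ℕ) : Prop :=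
  ∀ j a b j' a' b' (α : G), a ≤ n → b ≤ n → a' ≤ n → b' ≤ n → Out α → X.d o (α • o) ≤ D →
    X.d (α • seg x j a b • o) (seg x j' a' b' • o) ≤ D → Nat.dist a b < T

/-- Concatenations of pieces of the paths. -/
structure Chain (x : Fin k → ℕ → G) (n T q : ℕ) (c : ℕ → G) : Prop where
  pair : ∀ i, ∃ j a b j' a' b', a ≤ n ∧ b ≤ n ∧ a' ≤ n ∧ b' ≤ n ∧ T ≤ Nat.dist a b ∧
    Nat.dist a b ≤ 4 * T ∧ Dj j a b j' a' b' ∧ c (i + 1) = c i * seg x j a b ∧
    c (i + 2) = c (i + 1) * seg x j' a' b'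
  blk : ∀ i i', i / q = i' / q → ∃ j a b, a ≤ n ∧ b ≤ n ∧ c i' = c i * seg x j a b

theorem seg_self (x : Fin k → ℕ → G) (j : Fin k) (a : ℕ) : seg x j a a = 1 := inv_mul_cancel _

theorem seg_mul (x : Fin k → ℕ → G) (j : Fin k) (a b c : ℕ) :
    seg x j a b * seg x j b c = seg x j a c := by
  unfold seg
  group

theorem seg_inv (x : Fin k → ℕ → G) (j : Fin k) (a b : ℕ) : (seg x j a b)⁻¹ = seg x j b a := by
  unfold seg
  group

theorem exists_chain (x : Fin k → ℕ → G) {n T q : ℕ} (hq : 2 ≤ q) (l : Fin k → ℕ)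
    (h1 : ∀ j, T * q ≤ l j) (h2 : ∀ j, l j < 4 * T * q) (h3 : ∀ j, l j ≤ n) (j0 : Fin k)
    (w : FreeGroup (Fin k)) : ∃ c, Chain x n T q c ∧ c 0 = 1 ∧
      c (q * w.norm) = FreeGroup.lift (fun j => seg x j 0 (l j)) w := by
  obtain ⟨U, hU, hw⟩ : ∃ U : ℕ → Fin k × Bool,
      (∀ b, (U b).1 = (U (b + 1)).1 → (U b).2 = (U (b + 1)).2) ∧
      ∀ b (h : b < w.toWord.length), U b = w.toWord[b] := by
    refine ⟨fun b => w.toWord.getD (min b (w.toWord.length - 1)) (j0, true), fun b => ?_,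
      fun b h => ?_⟩
    · by_cases h : b + 1 < w.toWord.length
      · have := List.isChain_iff_getElem.1 (FreeGroup.isReduced_toWord (x := w)) b h
        simp only [min_eq_left (show b ≤ w.toWord.length - 1 by omega),
          min_eq_left (show b + 1 ≤ w.toWord.length - 1 by omega)]
        rwa [List.getD_eq_getElem _ _ h, List.getD_eq_getElem _ _ (show b < _ by omega)]
      · simp only [min_eq_right (show w.toWord.length - 1 ≤ b by omega),
          min_eq_right (show w.toWord.length - 1 ≤ b + 1 by omega), implies_true]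
    · simp only [min_eq_left (show b ≤ w.toWord.length - 1 by omega)]
      exact List.getD_eq_getElem _ _ h
  have q0 : 0 < q := by omega
  obtain ⟨cut, cut0, cutq, cmono, cstep⟩ : ∃ cut : Fin k → ℕ → ℕ, (∀ j, cut j 0 = 0) ∧
      (∀ j, cut j q = l j) ∧ (∀ j r r', r ≤ r' → cut j r ≤ cut j r') ∧
      ∀ j r, cut j r + T ≤ cut j (r + 1) ∧ cut j (r + 1) ≤ cut j r + 4 * T := by
    refine ⟨fun j r => r * l j / q, fun j => by simp, fun j => Nat.mul_div_cancel_left _ q0,
      fun j r r' h => Nat.div_le_div_right (Nat.mul_le_mul_right _ h), fun j r => ?_⟩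
    have a1 := Nat.div_add_div_le_add_div (x := r * l j) (y := l j) (z := q)
    have a2 := Nat.add_div_le_div_add_div_add_one (r * l j) (l j) q
    have a3 := (Nat.le_div_iff_mul_le q0).2 (h1 j)
    have a4 := (Nat.div_lt_iff_lt_mul q0).2 (h2 j)
    simp only [Nat.succ_mul]
    omega
  let off : Fin k × Bool → ℕ → ℕ := fun u r => if u.2 then cut u.1 r else cut u.1 (q - r)
  have offn : ∀ u r, r ≤ q → off u r ≤ n := fun u r hr => by
    have := h3 u.1
    have := cutq u.1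
    have := cmono u.1 r q hr
    have := cmono u.1 (q - r) q (by omega)
    simp only [off]
    split_ifs <;> omega
  let E : ℕ → G := fun b => Nat.rec 1 (fun b e => e * seg x (U b).1 (off (U b) 0) (off (U b) q)) b
  have Es : ∀ b, E (b + 1) = E b * seg x (U b).1 (off (U b) 0) (off (U b) q) := fun _ => rfl
  obtain ⟨c, hc⟩ : ∃ c : ℕ → G, ∀ b r, r ≤ q →
      c (q * b + r) = E b * seg x (U b).1 (off (U b) 0) (off (U b) r) := by
    have key : ∀ b r, r < q → (q * b + r) / q = b ∧ (q * b + r) % q = r := fun b r h =>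
      ⟨by rw [Nat.mul_add_div q0, Nat.div_eq_of_lt h, Nat.add_zero],
        by rw [Nat.mul_add_mod, Nat.mod_eq_of_lt h]⟩
    refine ⟨fun i => E (i / q) * seg x (U (i / q)).1 (off (U (i / q)) 0) (off (U (i / q)) (i % q)),
      fun b r hr => ?_⟩
    rcases hr.lt_or_eq with h | rfl
    · simp only [(key b r h).1, (key b r h).2]
    · have := key (b + 1) 0 q0
      rw [Nat.add_zero, Nat.mul_succ] at this
      simp only [this.1, this.2, seg_self, mul_one, Es]
  have st : ∀ b r, r < q → c (q * b + r + 1) =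
      c (q * b + r) * seg x (U b).1 (off (U b) r) (off (U b) (r + 1)) := fun b r h => by
    rw [Nat.add_assoc, hc b _ h, hc b _ h.le, mul_assoc, seg_mul]
  refine ⟨c, ⟨fun i => ?_, fun i i' e => ?_⟩, ?_, ?_⟩
  · obtain ⟨b, r, hr, rfl⟩ : ∃ b r, r < q ∧ i = q * b + r :=
      ⟨i / q, i % q, Nat.mod_lt _ q0, (Nat.div_add_mod i q).symm⟩
    have len : T ≤ Nat.dist (off (U b) r) (off (U b) (r + 1)) ∧
        Nat.dist (off (U b) r) (off (U b) (r + 1)) ≤ 4 * T := by
      have a1 := cstep (U b).1 r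
      have a2 := cstep (U b).1 (q - (r + 1))
      rw [show q - (r + 1) + 1 = q - r by omega] at a2
      simp only [off, Nat.dist]
      split_ifs <;> omega
    by_cases h : r + 1 < q
    · refine ⟨_, _, _, _, _, _, offn _ _ hr.le, offn _ _ hr, offn _ _ h.le, offn _ _ h, len.1, len.2,
        Or.inr ?_, st b r hr, st b (r + 1) h⟩
      have := cmono (U b).1 r (r + 1) (by omega)
      have := cmono (U b).1 (r + 1) (r + 1 + 1) (by omega)
      have := cmono (U b).1 (q - (r + 1)) (q - r) (by omega)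
      have := cmono (U b).1 (q - (r + 1 + 1)) (q - (r + 1)) (by omega)
      simp only [off, Nat.succ_eq_add_one]
      split_ifs <;> omega
    · have e : q * b + r + 1 = q * (b + 1) + 0 := by
        rw [Nat.mul_succ]
        omega
      have s2 := st (b + 1) 0 q0
      rw [← e] at s2
      refine ⟨_, _, _, _, _, _, offn _ _ hr.le, offn _ _ hr, offn _ _ q0.le, offn _ _ q0, len.1,
        len.2, ?_, st b r hr, s2⟩
      by_cases e1 : (U b).1 = (U (b + 1)).1
      · right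
        have e2 := hU b e1
        have := cmono (U b).1 0 (0 + 1) (by omega)
        have := cmono (U b).1 (0 + 1) r (by omega)
        have := cmono (U b).1 r (r + 1) (by omega)
        have := cmono (U b).1 (q - (r + 1)) (q - r) (by omega)
        have := cmono (U b).1 (q - r) (q - (0 + 1)) (by omega)
        have := cmono (U b).1 (q - (0 + 1)) (q - 0) (by omega)
        simp only [off, ← e1, ← e2, Nat.succ_eq_add_one]
        split_ifs <;> omega
      · exact Or.inl e1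
  · have a1 := hc (i / q) (i % q) (Nat.mod_lt _ q0).le
    have a2 := hc (i' / q) (i' % q) (Nat.mod_lt _ q0).le
    rw [Nat.div_add_mod] at a1 a2
    refine ⟨(U (i' / q)).1, _, _, offn (U (i' / q)) _ (Nat.mod_lt i q0).le,
      offn (U (i' / q)) _ (Nat.mod_lt i' q0).le, ?_⟩
    rw [a1, a2, e, mul_assoc, seg_mul]
  · have := hc 0 0 (by omega)
    rwa [seg_self, mul_one] at this
  · have a1 := hc w.norm 0 (by omega)
    rw [seg_self, mul_one, Nat.add_zero] at a1
    have key : ∀ b, b ≤ w.toWord.length →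
        E b = FreeGroup.lift (fun j => seg x j 0 (l j)) (FreeGroup.mk (w.toWord.take b)) := by
      intro b
      induction b with
      | zero => intro _; simp [E]
      | succ b ih =>
        intro hb
        rw [Es, ih (by omega), List.take_succ_eq_append_getElem hb, ← FreeGroup.mul_mk, map_mul,
          ← hw b hb]
        congr 1
        rcases hu : U b with ⟨j, _ | _⟩ <;> simp [off, cut0, cutq, seg_inv]
    rw [a1, FreeGroup.norm, key _ le_rfl, List.take_length, FreeGroup.mk_toWord]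

variable {X : GS V} {o : V} {x : Fin k → ℕ → G} {n Y : ℕ}

theorem seg_disp (I : X.Inv G) (hL : ∀ j t, X.d (x j t • o) (x j (t + 1) • o) ≤ Y) (j : Fin k)
    (a b : ℕ) : X.d o (seg x j a b • o) ≤ Y * Nat.dist a b := by
  have key : ∀ a t, X.d (x j a • o) (x j (a + t) • o) ≤ Y * t := by
    intro a t
    induction t with
    | zero => rw [Nat.add_zero, X.d_self]; omega
    | succ t ih =>
      have := X.d_tri (x j a • o) (x j (a + t) • o) (x j (a + t + 1) • o)
      have := hL j (a + t)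
      rw [Nat.mul_succ, ← Nat.add_assoc]
      omega
  have e : X.d o (seg x j a b • o) = X.d (x j a • o) (x j b • o) := by
    unfold seg
    rw [mul_smul, X.d_comm, I.d_inv, X.d_comm]
  rw [e]
  rcases le_total a b with h | h
  · obtain ⟨t, rfl⟩ := Nat.exists_eq_add_of_le h
    rw [Nat.dist_eq_sub_of_le h, Nat.add_sub_cancel_left]
    exact key a t
  · obtain ⟨t, rfl⟩ := Nat.exists_eq_add_of_le h
    rw [Nat.dist_eq_sub_of_le_right h, Nat.add_sub_cancel_left, X.d_comm]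
    exact key b t

theorem ray_cover (H : X.Hyp Y) (I : X.Inv G)
    (hL : ∀ j t, X.d (x j t • o) (x j (t + 1) • o) ≤ Y) (hn : n ≤ 2 ^ Y) (j : Fin k) {a b : ℕ}
    (ha : a ≤ n) (hb : b ≤ n) {z : V} (hz : X.Btw o z (seg x j a b • o)) :
    ∃ s, ((a ≤ s ∧ s ≤ b) ∨ (b ≤ s ∧ s ≤ a)) ∧ X.d z (seg x j a s • o) ≤ Y + 2 * Y * Y := by
  have h1 : ∀ t, X.d (seg x j a t • o) (seg x j a (t + 1) • o) ≤ Y := fun t => by
    unfold seg
    rw [mul_smul, mul_smul, I]
    exact hL j t
  have h2 := log_cover H (x := fun t => seg x j a t • o) h1 Y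
  rcases le_total a b with h | h
  · obtain ⟨t, rfl⟩ := Nat.exists_eq_add_of_le h
    obtain ⟨s, s1, s2, s3⟩ := h2 a t z (by omega) (by rwa [seg_self, one_smul])
    exact ⟨s, Or.inl ⟨s1, s2⟩, s3⟩
  · obtain ⟨t, rfl⟩ := Nat.exists_eq_add_of_le h
    obtain ⟨s, s1, s2, s3⟩ := h2 b t z (by omega) (by rw [seg_self, one_smul]; exact hz.symm)
    exact ⟨s, Or.inr ⟨s1, s2⟩, s3⟩

theorem local_near (H : X.Hyp Y) (I : X.Inv G)
    (hL : ∀ j t, X.d (x j t • o) (x j (t + 1) • o) ≤ Y) (hn : n ≤ 2 ^ Y) (h1 : E1 X o x n Y)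
    {E R : ℕ} (hE : Y + 2 * Y * Y ≤ E) (hR : E + Y * (Y + Y * (2 * E + 2 * Y)) < R)
    {j j' : Fin k} {a b a' b' : ℕ} (ha : a ≤ n) (hb : b ≤ n) (ha' : a' ≤ n) (hb' : b' ≤ n)
    (hd : Dj j a b j' a' b') : X.Near (2 * R) (seg x j a b • o) o (seg x j' a' b' • o) := by
  by_contra hc
  unfold GS.Near at hc
  have t1 := X.d_tri o (seg x j a b • o) (seg x j' a' b' • o)
  have t2 := X.d_tri (seg x j a b • o) (seg x j' a' b' • o) o
  have c1 := X.d_comm o (seg x j a b • o)
  have c2 := X.d_comm o (seg x j' a' b' • o)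
  obtain ⟨m1, b1, d1⟩ := GS.exists_btw (X := X) o (seg x j a b • o) R (by omega)
  obtain ⟨m2, b2, d2⟩ := GS.exists_btw (X := X) o (seg x j' a' b' • o) R (by omega)
  have f := H.fellow b1 b2 (by omega) (by omega)
  obtain ⟨s, s1, s2⟩ := ray_cover H I hL hn j ha hb b1
  obtain ⟨s', s1', s2'⟩ := ray_cover H I hL hn j' ha' hb' b2
  have t3 := X.d_tri o (seg x j a s • o) m1
  have t4 := X.d_tri (seg x j a s • o) m1 (seg x j' a' s' • o)
  have t5 := X.d_tri m1 m2 (seg x j' a' s' • o)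
  have c3 := X.d_comm m1 (seg x j a s • o)
  have u1 := seg_disp I hL j a s
  have u2 : Y + Y * (2 * E + 2 * Y) < Nat.dist a s := Nat.lt_of_mul_lt_mul_left (a := Y) (by omega)
  have u3 := h1 j a s j' a' s' ha (by omega) ha' (by omega) (by unfold Dj at *; omega) (by omega)
  have u4 := Nat.mul_le_mul_left Y
    (show X.d (seg x j a s • o) (seg x j' a' s' • o) ≤ 2 * E + 2 * Y by omega)
  omega

theorem chain_geo (H : X.Hyp Y) (I : X.Inv G)
    (hL : ∀ j t, X.d (x j t • o) (x j (t + 1) • o) ≤ Y) (hn : n ≤ 2 ^ Y) (h1 : E1 X o x n Y)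
    {E R T q : ℕ} (hE : Y + 2 * Y * Y ≤ E) (hR : E + Y * (Y + Y * (2 * E + 2 * Y)) < R)
    (hT : Y + Y * (2 * R + 2 * Y) < T) {c : ℕ → G} (C : Chain x n T q c) (g : G) :
    (∀ i t, t ≤ X.d ((g * c i) • o) ((g * c (i + t)) • o)) ∧
      ∀ M z, X.Btw ((g * c 0) • o) z ((g * c M) • o) →
        ∃ i, X.d z ((g * c i) • o) ≤ Y * (4 * T) + 2 * R + 3 * Y := by
  have a : ∀ i, X.Near (2 * R) ((g * c i) • o) ((g * c (i + 1)) • o) ((g * c (i + 2)) • o) ∧
      2 * R + 2 * Y < X.d ((g * c i) • o) ((g * c (i + 1)) • o) ∧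
      X.d ((g * c i) • o) ((g * c (i + 1)) • o) ≤ Y * (4 * T) := by
    intro i
    obtain ⟨j, a, b, j', a', b', ha, hb, ha', hb', l1, l2, hd, e1, e2⟩ := C.pair i
    have e3 : X.d ((g * c i) • o) ((g * c (i + 1)) • o) = X.d o (seg x j a b • o) := by
      rw [e1, ← mul_assoc, mul_smul (g * c i), I]
    refine ⟨?_, ?_, ?_⟩
    · have := I.near (g * c (i + 1)) (local_near H I hL hn h1 hE hR hb ha ha' hb'
        (j := j) (j' := j') (by unfold Dj at *; omega))
      rw [← mul_smul, ← mul_smul, mul_assoc, mul_assoc, ← e2] at this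
      rwa [show c (i + 1) * seg x j b a = c i by rw [e1, mul_assoc, seg_mul, seg_self, mul_one]]
        at this
    · have := h1 j a b j a a ha hb ha ha (by unfold Dj; omega) (by omega)
      rw [seg_self, one_smul, X.d_comm, ← e3] at this
      exact Nat.lt_of_mul_lt_mul_left (a := Y) (by omega)
    · rw [e3]
      exact (seg_disp I hL j a b).trans (Nat.mul_le_mul_left _ l2)
  refine ⟨fun i t => ?_, fun M z hz => ?_⟩
  · have := H.chain_dist (x := fun i => (g * c i) • o) (l := 1) (fun i => (a i).1)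
      (fun i => (a i).2.1) (fun i => by have := (a i).2.1; omega) i t
    rwa [one_mul] at this
  · obtain ⟨i, hi, b1, b2⟩ := seq_ivt (x := fun i => (g * c i) • o) (fun i => (a i).2.2) M
      (X.d ((g * c 0) • o) z) (by unfold GS.Btw at hz; omega)
    have := close_of_near H (h := Y * (4 * T)) (hz.near _) (H.chain_near (x := fun i => (g * c i) • o)
      (fun i => (a i).1) (fun i => (a i).2.1) (Nat.zero_le i) hi) (by omega) b2
    exact ⟨i, by omega⟩

theorem same_blk {q i i' : ℕ} (hq : 0 < q) (h1 : i ≤ i' + q) (h2 : i' ≤ i + q)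
    (h : i / q % 2 = i' / q % 2) : i / q = i' / q := by
  have a1 : i / q ≤ (i' + q) / q := Nat.div_le_div_right h1
  have a2 : i' / q ≤ (i + q) / q := Nat.div_le_div_right h2
  rw [Nat.add_div_right _ hq] at a1 a2
  omega

theorem det {A : Type} [Group A] (ψ : G →* A) (hψ : ∀ j t, ψ (x j t) = 1) (H : X.Hyp Y)
    (I : X.Inv G) (hL : ∀ j t, X.d (x j t • o) (x j (t + 1) • o) ≤ Y) (hn : n ≤ 2 ^ Y)
    (h1 : E1 X o x n Y) {E R T ρ T2 Γ : ℕ} (hE : Y + 2 * Y * Y ≤ E)
    (hR : E + Y * (Y + Y * (2 * E + 2 * Y)) < R) (hT : Y + Y * (2 * R + 2 * Y) < T)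
    (hρ : Y * (4 * T) + 2 * R + 3 * Y ≤ ρ) (h2 : E2 X o (fun a => ψ a ≠ 1) x n (2 * ρ + 4 * Y) T2)
    (hΓ : 2 * ρ + Y * T2 < Γ) (hq : (4 * Γ + 9 * Y + 2 * ρ + 2) * (2 * T) ≤ n) (l : Fin k → ℕ)
    (l1 : ∀ j, n ≤ 2 * l j) (l2 : ∀ j, l j ≤ n) (j0 : Fin k) :
    Function.Injective (FreeGroup.lift fun j => seg x j 0 (l j)) ∧
      GM X (fun a => ψ a ≠ 1)
        (Set.range fun w => FreeGroup.lift (fun j => seg x j 0 (l j)) w • o) (8 * Γ + 2 * Y + 2) := by
  have T0 : 0 < 2 * T := by omega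
  obtain ⟨q, hq'⟩ : ∃ q, q = n / (2 * T) := ⟨_, rfl⟩
  have q1 : 4 * Γ + 9 * Y + 2 * ρ + 2 ≤ q := hq' ▸ (Nat.le_div_iff_mul_le T0).2 hq
  have q2 : q * (2 * T) ≤ n := hq' ▸ Nat.div_mul_le_self _ _
  have q3 : n < 2 * T * (q + 1) := hq' ▸ Nat.lt_mul_div_succ _ T0
  have ex := exists_chain x (n := n) (T := T) (q := q) (by omega) l
    (fun j => by have := l1 j; nlinarith) (fun j => by have := l2 j; nlinarith) l2 j0
  set g := FreeGroup.lift fun j => seg x j 0 (l j) with hg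
  have ψs : ∀ j a b, ψ (seg x j a b) = 1 := fun j a b => by
    rw [seg, map_mul, map_inv, hψ, hψ, inv_one, one_mul]
  have ψg : ∀ w, ψ (g w) = 1 := fun w => by
    have : ψ.comp g = 1 := FreeGroup.ext_hom _ _ fun j => by simp [hg, ψs]
    exact DFunLike.congr_fun this w
  have ψc : ∀ c, Chain x n T q c → c 0 = 1 → ∀ i, ψ (c i) = 1 := fun c C c0 i => by
    induction i with
    | zero => rw [c0, map_one]
    | succ i ih =>
      obtain ⟨j, a, b, -, -, -, -, -, -, -, -, -, -, e, -⟩ := C.pair i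
      rw [e, map_mul, ih, ψs, one_mul]
  refine ⟨(injective_iff_map_eq_one _).2 fun w hw => ?_, ?_⟩
  · obtain ⟨c, C, c0, c1⟩ := ex w
    have := (chain_geo H I hL hn h1 hE hR hT C 1).1 0 (q * w.norm)
    rw [zero_add, c1, hw, c0, X.d_self] at this
    rcases Nat.mul_eq_zero.1 (Nat.le_zero.1 this) with h | h
    · omega
    · exact FreeGroup.norm_eq_zero.1 h
  rintro a ha _ ⟨w1, rfl⟩ _ ⟨w2, rfl⟩ _ ⟨w3, rfl⟩ _ ⟨w4, rfl⟩
  by_contra hc
  obtain ⟨t, ht, hz⟩ := exists_overlap H (r := 4 * Γ) hc (by omega)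
  obtain ⟨c, C, c0, c1⟩ := ex (w1⁻¹ * w2)
  obtain ⟨c', C', c0', c1'⟩ := ex (w3⁻¹ * w4)
  obtain ⟨p1, p2⟩ := chain_geo H I hL hn h1 hE hR hT C (a * g w1)
  obtain ⟨p1', p2'⟩ := chain_geo H I hL hn h1 hE hR hT C' (g w3)
  have p3 := p2 (q * (w1⁻¹ * w2).norm)
  have p3' := p2' (q * (w3⁻¹ * w4).norm)
  rw [c0, c1, map_mul, map_inv, mul_one, mul_assoc, mul_inv_cancel_left, mul_smul, mul_smul] at p3
  rw [c0', c1', map_mul, map_inv, mul_one, mul_inv_cancel_left] at p3'
  beta_reduce at ht hz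
  have pt : ∀ u : Fin 5, ∃ z i i', X.Btw (a • g w1 • o) z (a • g w2 • o) ∧
      X.d (a • g w1 • o) z = t + u * Γ ∧ X.d z ((a * g w1 * c i) • o) ≤ ρ ∧
      X.d z ((g w3 * c' i') • o) ≤ ρ + 4 * Y := by
    intro u
    have hu : u * Γ ≤ 4 * Γ := Nat.mul_le_mul_right _ (by omega)
    obtain ⟨z, bz, dz⟩ := GS.exists_btw (X := X) (a • g w1 • o) (a • g w2 • o) (t + u * Γ) (by omega)
    obtain ⟨i, hi⟩ := p3 z bz
    obtain ⟨z', bz', dz'⟩ := H.near_btw (hz z bz (by omega) (by omega))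
    obtain ⟨i', hi'⟩ := p3' z' bz'
    have := X.d_tri z z' ((g w3 * c' i') • o)
    exact ⟨z, i, i', bz, dz, by omega, by omega⟩
  choose z i i' z1 z2 z3 z4 using pt
  obtain ⟨u, v, huv, e⟩ := Fintype.exists_ne_map_eq_of_card_lt
    (fun u : Fin 5 => ((⟨i u / q % 2, Nat.mod_lt _ two_pos⟩ : Fin 2),
      (⟨i' u / q % 2, Nat.mod_lt _ two_pos⟩ : Fin 2))) (by simp)
  simp only [Prod.mk.injEq, Fin.mk.injEq] at e
  have hu : u * Γ ≤ 4 * Γ := Nat.mul_le_mul_right _ (by omega)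
  have hv : v * Γ ≤ 4 * Γ := Nat.mul_le_mul_right _ (by omega)
  have far : Γ ≤ X.d (z u) (z v) := by
    have := X.d_tri (a • g w1 • o) (z u) (z v)
    have := X.d_tri (a • g w1 • o) (z v) (z u)
    have := X.d_comm (z u) (z v)
    have := z2 u
    have := z2 v
    rcases lt_or_gt_of_ne (show (u : ℕ) ≠ v from fun h => huv (Fin.ext h)) with h | h
    · have := Nat.mul_le_mul_right Γ (Nat.succ_le_of_lt h)
      rw [Nat.succ_mul] at this
      omega
    · have := Nat.mul_le_mul_right Γ (Nat.succ_le_of_lt h)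
      rw [Nat.succ_mul] at this
      omega
  have cl := close_of_near H (h := 4 * Γ) ((z1 u).near 0) ((z1 v).near 0)
    (by rw [z2, z2]; omega) (by rw [z2, z2]; omega)
  have blk : ∀ (y : ℕ → V) (i1 i2 : ℕ), (∀ i t, t ≤ X.d (y i) (y (i + t))) →
      X.d (z u) (y i1) ≤ ρ + 4 * Y → X.d (z v) (y i2) ≤ ρ + 4 * Y → i1 / q % 2 = i2 / q % 2 →
      i1 / q = i2 / q := by
    intro y i1 i2 hy d1 d2 e
    have := X.d_tri (y i1) (z u) (y i2)
    have := X.d_tri (z u) (z v) (y i2)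
    have := X.d_comm (y i1) (z u)
    have := X.d_comm (y i1) (y i2)
    have a1 := hy i1 (i2 - i1)
    have a2 := hy i2 (i1 - i2)
    refine same_blk (by omega) ?_ ?_ e
    · by_contra hc
      rw [show i2 + (i1 - i2) = i1 by omega] at a2
      omega
    · by_contra hc
      rw [show i1 + (i2 - i1) = i2 by omega] at a1
      omega
  obtain ⟨j, s1, s2, hs1, hs2, e1⟩ := C.blk _ _ (blk (fun i => (a * g w1 * c i) • o) (i u) (i v) p1
    (by have := z3 u; omega) (by have := z3 v; omega) e.1)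
  obtain ⟨j', s1', s2', hs1', hs2', e1'⟩ := C'.blk _ _ (blk (fun i => (g w3 * c' i) • o) (i' u)
    (i' v) p1' (z4 u) (z4 v) e.2)
  have y1 := z3 u
  have y2 := z3 v
  have y3 := z4 u
  have y4 := z4 v
  rw [e1, ← mul_assoc, mul_smul _ (seg x j s1 s2)] at y2
  rw [e1', ← mul_assoc, mul_smul _ (seg x j' s1' s2')] at y4
  have ψ1 : ψ ((g w3 * c' (i' u))⁻¹ * (a * g w1 * c (i u))) ≠ 1 := by
    simpa [ψg, ψc c C c0, ψc c' C' c0'] using ha
  generalize a * g w1 * c (i u) = α at *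
  generalize g w3 * c' (i' u) = β at *
  have k := h2 j s1 s2 j' s1' s2' _ hs1 hs2 hs1' hs2' ψ1
    (by
      rw [mul_smul, X.d_comm, I.d_inv]
      have := X.d_tri (α • o) (z u) (β • o)
      have := X.d_comm (α • o) (z u)
      omega)
    (by
      rw [mul_smul, I.d_inv]
      have := X.d_tri (α • seg x j s1 s2 • o) (z v) (β • seg x j' s1' s2' • o)
      have := X.d_comm (α • seg x j s1 s2 • o) (z v)
      omega)
  have k1 := seg_disp I hL j s1 s2
  have k2 := Nat.mul_le_mul_left Y k.le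
  have k3 := I α o (seg x j s1 s2 • o)
  have := X.d_tri (z u) (α • o) (z v)
  have := X.d_tri (α • o) (α • seg x j s1 s2 • o) (z v)
  have := X.d_comm (α • seg x j s1 s2 • o) (z v)
  omega

end Pool.Agent.Lib.MP_513915_al
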