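import Pool.Agent.Lib.MP_e0e7d6_al.Quot48
import Pool.Agent.Lib.MP_e0e7d6_al.Fam74
import Pool.Agent.Lib.MP_513915_al.Lift2
import Pool.Agent.Lib.MP_513915_al.ConeX

/-!
One step of the construction: a power of every short primitive element outside the kernel of the
character is killed, and subgroups with short overlaps survive.
-/

namespace Pool.Agent.Lib.MP_513915_al

open Pool.Agent.Lib.MP_e0e7d6_al

/-- The cyclic group of order three. -/
abbrev C3 : Type := Multiplicative (ZMod 3)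

theorem axis_cobdd {G V : Type} [Group G] [MulAction G V] {X : GS V} {A m p q : ℕ}
    (Γ : Good G X 3 A m p q) {r : G} (hr : ¬ IsOfFinOrder r) {y y' : V}
    (hy : X.d y (r • y) ≤ 43) (hy' : X.d y' (r • y') ≤ 43) :
    ∃ z : ℤ, X.d y (r ^ z • y') ≤ 1290 * m + 100 := by
  classical
  have I := Γ.inv
  have ex : ∃ n, ∃ z : ℤ, X.d y (r ^ z • y') = n := ⟨_, 0, rfl⟩
  obtain ⟨z, hz⟩ := Nat.find_spec ex
  have hmin : ∀ w : ℤ, X.d y (r ^ z • y') ≤ X.d y (r ^ w • y') := fun w =>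
    hz ▸ Nat.find_min' ex ⟨w, rfl⟩
  refine ⟨z, ?_⟩
  by_contra hc
  set u := r ^ z • y' with hu
  have hu1 : X.d u (r • u) ≤ 43 := by
    rw [hu, I.disp_comm ((Commute.refl r).zpow_right z)]
    exact hy'
  set K := 15 * m + 1 with hK
  have d1 : X.d y (r ^ K • y) ≤ 43 * K :=
    (I.disp_pow r y K).trans (by rw [mul_comm]; exact Nat.mul_le_mul_right _ hy)
  have d2 : X.d u (r ^ K • u) ≤ 43 * K :=
    (I.disp_pow r u K).trans (by rw [mul_comm]; exact Nat.mul_le_mul_right _ hu1)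
  obtain ⟨x, bx, dx⟩ := GS.exists_btw (X := X) y u (43 * K + 4) (by omega)
  have bx' : X.d y x + X.d x u = X.d y u := bx
  obtain ⟨n1, e1, -⟩ := Γ.hyp.shift_near I (r ^ K) d1 d2 (bx.near 0) (by omega) (by omega)
  have c1 := X.d_comm u x
  have c2 := X.d_comm x y
  obtain ⟨-, e2, -⟩ := Γ.hyp.shift_near I (r ^ K) d2 d1 (bx.symm.near 0) (by omega) (by omega)
  have m1 : X.d y u ≤ X.d (r ^ K • y) u := by
    have := hmin (-K + z)
    rwa [zpow_add, mul_smul, zpow_neg, zpow_natCast, ← hu, X.d_comm y (_ • u), I.d_inv,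
      X.d_comm u] at this
  have m2 : X.d y u ≤ X.d (r ^ K • u) y := by
    have := hmin (K + z)
    rwa [zpow_add, mul_smul, zpow_natCast, ← hu, X.d_comm y (_ • u)] at this
  have t1 := X.d_tri y (r ^ K • x) u
  have c3 := X.d_comm u (r ^ K • x)
  have c4 := X.d_comm u y
  have h1 := close_of_near Γ.hyp (h := 6) (bx.near 6) n1 (by omega) (by omega)
  have h2 := Γ.pow_far hr x K
  have h3 := Nat.mul_le_mul_left m h1
  omega

theorem axis_cobdd' {G V : Type} [Group G] [MulAction G V] {X : GS V} {A m p q : ℕ}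
    (Γ : Good G X 3 A m p q) {r : G} (hr : ¬ IsOfFinOrder r) {y y' : V}
    (hy : X.d y (r • y) ≤ 43) (hy' : X.d y' (r • y') ≤ 43) {N : ℕ} (hN : 0 < N) :
    ∃ k ∈ Subgroup.zpowers (r ^ N), X.d y (k • y') ≤ 1290 * m + 100 + 43 * N := by
  obtain ⟨z, hz⟩ := axis_cobdd Γ hr hy hy'
  have h0 : (0 : ℤ) < N := by exact_mod_cast hN
  obtain ⟨s, hs⟩ := Int.eq_ofNat_of_zero_le (Int.emod_nonneg z h0.ne')
  have hs' : s < N := by
    have := Int.emod_lt_of_pos z h0
    omega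
  have e : r ^ z = (r ^ N) ^ (z / N) * r ^ s := by
    rw [← zpow_natCast, ← zpow_mul, ← zpow_natCast, ← zpow_add, ← hs, Int.mul_ediv_add_emod]
  refine ⟨_, ⟨z / N, rfl⟩, ?_⟩
  have t := X.d_tri y (r ^ z • y') ((r ^ N) ^ (z / N) • y')
  have e2 : X.d (r ^ z • y') ((r ^ N) ^ (z / N) • y') = X.d y' (r ^ s • y') := by
    rw [e, mul_smul, Γ.inv, X.d_comm]
  have h1 := (Γ.inv.disp_pow r y' s).trans (Nat.mul_le_mul_left _ hy')
  show X.d y ((r ^ N) ^ (z / N) • y') ≤ _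
  omega

/-- One stage of the construction. -/
structure Stage {F : Type} [Group F] (χ : F →* C3) : Type 1 where
  G : Type
  V : Type
  [grp : Group G]
  [act : MulAction G V]
  X : GS V
  o : V
  π : F →* G
  surj : Function.Surjective π
  ψ : G →* C3
  hψ : ∀ f, ψ (π f) = χ f
  δ : ℕ
  A : ℕ
  m : ℕ
  e : ℕ
  Λ : ℕ
  good : Good G X δ A m (3 ^ e) (3 ^ e)
  cyc : Cyc G X (3 ^ e)
  ball : ∀ R, ∃ s : Finset G, s.card ≤ 2 ^ (Λ * (R + 1)) ∧ ∀ g, X.d o (g • o) ≤ R → g ∈ s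

variable {F : Type} [Group F] {χ : F →* C3}

instance (S : Stage χ) : Group S.G := S.grp

instance (S : Stage χ) : MulAction S.G S.V := S.act

/-- Displacement of the base point. -/
def Stage.dsp (S : Stage χ) (f : F) : ℕ := S.X.d S.o (S.π f • S.o)

/-- The orbit of the subgroup `P` has short overlaps with its translates by outer elements. -/
def Stage.Sep (S : Stage χ) (P : Subgroup F) (B : ℕ) : Prop :=
  GM S.X (fun a : S.G => S.ψ a ≠ 1) ((fun g => S.π g • S.o) '' P) B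

theorem exists_step (S : Stage χ) (f : F) : ∃ C : ℕ, ∀ e, C ≤ e → ∃ S' : Stage χ,
    (∀ g, S.π g = 1 → S'.π g = 1) ∧ (χ f ≠ 1 → IsOfFinOrder (S'.π f)) ∧ S'.e = e ∧ S'.δ ≤ C ∧
    S'.m ≤ C ∧ S'.Λ ≤ C * 3 ^ e ∧ (∀ g, S'.dsp g ≤ S.dsp g) ∧
    ∀ (P : Subgroup F) (B : ℕ), S.Sep P B → C * (B + 1) ≤ 3 ^ e →
      (∀ g ∈ P, S'.π g = 1 → S.π g = 1) ∧ ∃ B', S'.Sep P B' := by
  classical
  obtain ⟨δ, ρ, C0, hδ, hρ, h0⟩ := cone_tools 25 (3601 + 21000)
  obtain ⟨σ, hσ⟩ : ∃ σ, σ = S.A + 22 * S.δ + S.dsp f + 1 := ⟨_, rfl⟩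
  obtain ⟨Θ0, hΘ0⟩ : ∃ Θ0, Θ0 = 50 * δ * 2 ^ ρ := ⟨_, rfl⟩
  obtain ⟨m, hm⟩ : ∃ m, m = S.m * σ := ⟨_, rfl⟩
  obtain ⟨C1, hC1⟩ : ∃ C1, C1 = (21 * m + 1) * (2 * Θ0 + 800) := ⟨_, rfl⟩
  obtain ⟨C2, hC2⟩ : ∃ C2, C2 = S.Λ * (σ * (1290 * m + 143)) := ⟨_, rfl⟩
  refine ⟨C1 + C2 + S.e + δ + cm δ m + 1, fun e he => ?_⟩
  have σ0 : 0 < σ := by omega
  obtain ⟨N, hN⟩ : ∃ N, N = 3 ^ e := ⟨_, rfl⟩
  have eN : e < N := hN ▸ Nat.lt_pow_self (by omega)
  have dv : ∀ {H : Type} [Group H] (g : H), g ^ 3 ^ S.e = 1 → g ^ N = 1 := fun g hg => by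
    obtain ⟨d, rfl⟩ := Nat.exists_eq_add_of_le (show S.e ≤ e by omega)
    rw [hN, pow_add, pow_mul, hg, one_pow]
  have oN : Odd N := hN ▸ Odd.pow (by decide)
  have Γ0 := S.good.scale σ0 (by omega) (δ := 3) le_rfl
  rw [← hm] at Γ0
  set X := S.X.scale σ σ0 with hX
  have Γ : Good S.G X 3 3601 m N N :=
    { Γ0 with
      odd_p := oN
      odd_q := oN
      tors := fun g hg => Or.inl (dv g ((Γ0.tors g hg).elim id id)) }
  obtain ⟨I0, _, r0, R⟩ := exists_roots Γ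
  have inv_ne : ∀ {a : C3}, a ≠ 1 → a⁻¹ ≠ 1 := fun h e => h (inv_eq_one.1 e)
  let J : SubMulAction S.G I0 :=
    { carrier := {i | S.ψ (r0 i) ≠ 1}
      smul_mem' := fun g i hi => by
        have e1 : S.ψ (g * r0 i * g⁻¹) = S.ψ (r0 i) := by
          rw [map_mul, map_mul, map_inv, mul_inv_cancel_comm]
        show S.ψ (r0 (g • i)) ≠ 1
        rcases R.conj g i with e | e
        · rwa [e, e1]
        · rw [e, map_inv, e1]
          exact inv_ne hi }
  let r : J → S.G := fun i => r0 i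
  have R2 : Roots2 S.G X r :=
    ⟨fun i => R.inf i, fun i => R.gen i, fun g i => Subtype.ext_iff.trans (R.stab g i),
      fun i j c => Subtype.ext (R.sep i j c)⟩
  have : Cone.EqFam S.G (axis X r) := ⟨fun g i y hy => (R.eqFam Γ.inv).smul_mem g i.1 y hy⟩
  have Q0 := R.qfam Γ
  have Q : QFam X (axis X r) 25 (3601 + 21000) :=
    ⟨Q0.one_le, Q0.hyp, fun i => Q0.ne i, fun i => Q0.qc i,
      fun i j hij => Q0.ov i j fun e => hij (Subtype.ext e)⟩
  obtain ⟨HZ, hCR, hang⟩ := h0 S.V J X _ Q ρ le_rfl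
  rw [← hΘ0] at hang
  obtain ⟨Θ, hΘ⟩ : ∃ Θ, Θ = N / (21 * m + 1) := ⟨_, rfl⟩
  have big : ∀ B, C1 * (B + 1) ≤ N → 2 * Θ0 + 800 + B ≤ Θ := fun B hB => by
    rw [hΘ, Nat.le_div_iff_mul_le (by omega)]
    refine le_trans ?_ hB
    rw [hC1, mul_comm, mul_assoc]
    exact Nat.mul_le_mul_left _ (by nlinarith)
  have big0 := big 0 (by omega)
  have small : m * (21 * Θ) < N := by
    have := Nat.div_mul_le_self N (21 * m + 1)
    rw [← hΘ] at this
    nlinarith
  let Nf : J → Subgroup S.G := fun i => Subgroup.zpowers (r i ^ N)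
  have hc : ∀ (g : S.G) i h, h ∈ Nf i → g * h * g⁻¹ ∈ Nf (g • i) := by
    rintro g i _ ⟨k, rfl⟩
    have e0 : r (g • i) = r0 (g • i.1) := rfl
    simp only [Nf]
    rcases R.conj g i with e | e
    · exact ⟨k, by simp only [e0, e, r, conj_pow, conj_zpow]⟩
    · exact ⟨-k, by simp only [e0, e, r, inv_pow, conj_pow, zpow_neg, inv_zpow, inv_inv, conj_zpow]⟩
  have hf : ∀ i h, h ∈ Nf i → h • i = i := by
    rintro i _ ⟨k, rfl⟩
    exact (R2.stab _ i).2 (((Commute.refl _).pow_left _).zpow_left _)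
  have hr : ∀ i h, h ∈ Nf i → h ≠ 1 → ∀ y ∈ axis X r i, 21 * Θ < X.d y (h • y) := by
    rintro i _ ⟨k, rfl⟩ h1 y -
    have k0 : k ≠ 0 := by
      rintro rfl
      exact h1 (zpow_zero _)
    have e : X.d y ((r i ^ N) ^ k • y) = X.d y (r i ^ (N * k.natAbs) • y) := by
      rw [pow_mul]
      rcases Int.natAbs_eq k with e | e
      · conv_lhs => rw [e, zpow_natCast]
      · conv_lhs => rw [e, zpow_neg, zpow_natCast, Γ.inv.disp_inv]
    have h2 := Γ.pow_far (R2.inf i) y (N * k.natAbs)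
    have h3 : N ≤ N * k.natAbs := Nat.le_mul_of_pos_right _ (Int.natAbs_pos.2 k0)
    beta_reduce
    rw [e]
    refine Nat.lt_of_mul_lt_mul_left (a := m) ?_
    omega
  have Fm := cone_rot2 Q.ne Γ.inv HZ hδ (by omega) (Θ := Θ) (by omega) Nf hc hf hr
  have := Fm.normal_all
  choose y0 hy0 using id Q.ne
  have dap : ∀ (i : J) (u : Cone (axis X r) ρ),
      ρ + 1 ≤ Cone.lev u + (Cone.space X Q.ne ρ).d (Cone.apex i) u := by
    intro i u
    have h1 := Cone.lv_lip (X := X) (hne := Q.ne) i (Cone.apex i) u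
    have := Cone.lv_le_lev i u
    rw [Cone.lv_apex] at h1
    omega
  have C : Cov X (Cone.space X Q.ne ρ) ((Cone.space X Q.ne ρ).quot (rotAll Nf) Fm.inv)
      (QuotientGroup.mk' (rotAll Nf)) (Orb.mk _) r Cone.apex Cone.lev (Cone.bs y0) δ 3601 m N ρ := by
    refine
      { good := Γ
        cyc := fun K x D hK => ?_
        roots := R2
        qf := ⟨_, _, Q⟩
        quo := ⟨QuotientGroup.mk'_surjective _, Orb.mk_surj, fun _ _ => rfl, GS.quot_le,
          fun u v => ?_, GS.quot_inv⟩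
        ne := Γ.ne.map Cone.base
        one_le := by omega
        hyp := Fm.quot_hyp
        inv := Fm.inv
        kill := fun i => ?_
        c_smul := fun _ _ => rfl
        lev_c := fun _ => rfl
        lev_near := fun i z hz => ?_
        sep := fun i j hij => ?_
        ker := fun n u hn h1 => ?_
        deep := fun u hu => ?_
        distort := fun g u B h1 h2 => ?_
        down := fun u v => ?_
        up := fun u i y hy => ?_ }
    · obtain ⟨g, h1, h2⟩ := S.cyc K x (σ * D) fun k hk => GS.scale_le_iff.1 (hK k hk)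
      exact ⟨g, dv g h1, h2⟩
    · obtain ⟨n, hn, e⟩ := GS.quot_lift' (N := rotAll Nf) (I := Fm.inv) u v
      exact ⟨n, (QuotientGroup.eq_one_iff n).2 hn, e.symm⟩
    · rw [← map_pow]
      exact (QuotientGroup.eq_one_iff _).2 (Subgroup.subset_closure ⟨i, Subgroup.mem_zpowers _⟩)
    · have h1 := Cone.lv_lip (X := X) (hne := Q.ne) i (Cone.apex i) z
      rw [Cone.lv_apex] at h1
      have h2 := Cone.d_apex (X := X) (hne := Q.ne) (i := i) (u := z) (by omega)
      have h3 := Cone.lv_eq_lev (i := i) (u := z) (by omega)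
      rw [GS.d_comm] at h2
      omega
    · have h1 := Cone.lv_lip (X := X) (hne := Q.ne) (ρ := ρ) i (Cone.apex i) (Cone.apex j)
      rw [Cone.lv_apex] at h1
      have h2 : Cone.lv i (Cone.apex j : Cone (axis X r) ρ) = 0 := by simp [Cone.lv, hij.symm]
      omega
    · by_cases hu : ∃ i, u = Cone.apex i
      · obtain ⟨i, rfl⟩ := hu
        have : Cone.lev (Cone.apex i : Cone (axis X r) ρ) = ρ + 1 := rfl
        omega
      · obtain ⟨i, hi⟩ := Fm.exists_apex (u := u) (fun i e => hu ⟨i, e⟩)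
          ((QuotientGroup.eq_one_iff n).1 hn) h1
        have a := dap i u
        have b := dap i (n • u)
        rw [Cone.lev_smul] at b
        rw [GS.d_comm] at a
        unfold GS.Btw at hi
        omega
    · obtain ⟨i, hi⟩ := Cone.exists_lv hu
      have h2 := Cone.d_apex (X := X) (hne := Q.ne) (i := i) (u := u) (by omega)
      refine ⟨i, by omega, fun g hg => ?_⟩
      have h3 := Cone.lv_lip (X := X) (hne := Q.ne) i u (g • u)
      have h4 := Cone.lv_smul g i u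
      exact Cone.lv_unique (u := g • u) (by omega) (by omega)
    · have := Cone.distort (X := X) (hne := Q.ne) (y0 := y0) h2 u (g • u) h1
      rwa [Cone.bs_smul y0 g (by omega)] at this
    · have a := Cone.d_down (X := X) (hne := Q.ne) hy0 u
      have b := Cone.d_down (X := X) (hne := Q.ne) hy0 v
      have e := Cone.d_base (X := X) (hne := Q.ne) (ρ := ρ) (Cone.bs y0 u) (Cone.bs y0 v)
      have t1 := (Cone.space X Q.ne ρ).d_tri u (Cone.base (Cone.bs y0 u)) v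
      have t2 := (Cone.space X Q.ne ρ).d_tri (Cone.base (Cone.bs y0 u)) (Cone.base (Cone.bs y0 v)) v
      rw [GS.d_comm] at a
      omega
    · have a := Cone.d_down (X := X) (hne := Q.ne) hy0 u
      have b := Cone.d_base_apex (X := X) (hne := Q.ne) (ρ := ρ) hy
      have e := Cone.d_base (X := X) (hne := Q.ne) (ρ := ρ) (Cone.bs y0 u) y
      have t1 := (Cone.space X Q.ne ρ).d_tri u (Cone.base (Cone.bs y0 u)) (Cone.apex i)
      have t2 := (Cone.space X Q.ne ρ).d_tri (Cone.base (Cone.bs y0 u)) (Cone.base y) (Cone.apex i)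
      rw [GS.d_comm] at a
      omega
  have hker : rotAll Nf ≤ S.ψ.ker := by
    refine (Subgroup.closure_le _).2 ?_
    rintro _ ⟨i, k, rfl⟩
    obtain ⟨d, rfl⟩ := Nat.exists_eq_add_of_le (show 1 ≤ e by omega)
    have h3 : ∀ a : C3, a ^ 3 = 1 := by decide
    show S.ψ ((r i ^ N) ^ k) = 1
    rw [map_zpow, map_pow, hN, pow_add, pow_one, pow_mul, h3, one_pow, one_zpow]
  have low : ∀ x y : S.V, ((Cone.space X Q.ne ρ).quot (rotAll Nf) Fm.inv).d
      (Orb.mk _ (Cone.base x)) (Orb.mk _ (Cone.base y)) ≤ S.X.d x y := fun x y =>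
    (GS.quot_le _ _).trans ((Cone.d_base _ _).trans (GS.scale_le _ _))
  subst hN
  refine ⟨{ G := S.G ⧸ rotAll Nf, V := Orb (rotAll Nf) (Cone (axis X r) ρ)
            X := (Cone.space X Q.ne ρ).quot (rotAll Nf) Fm.inv
            o := Orb.mk _ (Cone.base S.o)
            π := (QuotientGroup.mk' _).comp S.π
            surj := C.quo.surj.comp S.surj
            ψ := QuotientGroup.lift _ S.ψ hker
            hψ := S.hψ
            δ := δ, A := cA δ 3601, m := cm δ m, e := e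
            Λ := S.Λ * (σ * (1290 * m + 100 + 43 * 3 ^ e))
            good := C.q_good hρ
            cyc := C.q_cyc hρ
            ball := fun R => ?_ }, fun g hg => ?_, fun hf => ?_, rfl, ?_, ?_, ?_,
          fun g => low _ _, fun P B hP hB => ?_⟩
  · obtain ⟨s, h1, h2⟩ := S.ball (σ * ((1290 * m + 100 + 43 * 3 ^ e) * R))
    refine ⟨s.image (QuotientGroup.mk' _), Finset.card_image_le.trans (h1.trans
      (Nat.pow_le_pow_right (by omega) ?_)), fun g hg => ?_⟩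
    · rw [mul_assoc S.Λ]
      refine Nat.mul_le_mul_left _ ?_
      have : 1 ≤ σ * (1290 * m + 100 + 43 * 3 ^ e) := Nat.mul_pos σ0 (by omega)
      rw [← mul_assoc, Nat.mul_succ]
      omega
    · obtain ⟨g, rfl, eg⟩ := C.exists_lift (Cone.base S.o) g
      obtain ⟨k, hk, hd⟩ := bend_cone (hne := Q.ne) (ρ := ρ) Γ.inv (rotAll Nf)
        (E := 1290 * m + 100 + 43 * 3 ^ e) (by omega) (fun i y hy y' hy' => by
          obtain ⟨k, hk, hd⟩ := axis_cobdd' Γ (R2.inf i) hy hy' (N := 3 ^ e) (by omega)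
          exact ⟨k, Subgroup.subset_closure ⟨i, hk⟩, hd⟩) S.o (g • S.o)
      refine Finset.mem_image.2 ⟨k * g, h2 _ ?_, ?_⟩
      · rw [mul_smul]
        refine GS.scale_le_iff.1 (hd.trans (Nat.mul_le_mul_left _ ?_))
        exact eg.le.trans hg
      · rw [map_mul, QuotientGroup.mk'_apply, (QuotientGroup.eq_one_iff k).2 hk, one_mul]
  · show QuotientGroup.mk' _ (S.π g) = 1
    rw [hg, map_one]
  · show IsOfFinOrder (QuotientGroup.mk' (rotAll Nf) (S.π f))
    by_cases gf : IsOfFinOrder (S.π f)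
    · exact MonoidHom.isOfFinOrder _ gf
    have t1 := GS.tau_le_disp (X := X) (S.π f) S.o
    have t2 : X.d S.o (S.π f • S.o) ≤ 1 := GS.scale_le_iff.2 (by unfold Stage.dsp at hσ; omega)
    have t3 : (X.d S.o (S.π f • S.o) : ℝ) ≤ 1 := by exact_mod_cast t2
    obtain ⟨i, hi⟩ := R.all _ gf (t1.trans t3)
    obtain ⟨k, hk⟩ := R.gen i _ hi
    have h1 : S.ψ (r0 i) ≠ 1 := fun e => hf (by rw [← S.hψ, hk, map_zpow, e, one_zpow])
    exact C.fix_fin (i := ⟨i, h1⟩) ((R2.stab _ _).2 hi)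
  · show δ ≤ _
    omega
  · show cm δ m ≤ _
    omega
  · show S.Λ * (σ * (1290 * m + 100 + 43 * 3 ^ e)) ≤ _
    refine le_trans ?_ (Nat.mul_le_mul_right _ (show C2 ≤ _ by omega))
    rw [hC2, mul_assoc, mul_assoc]
    refine Nat.mul_le_mul_left _ (Nat.mul_le_mul_left _ ?_)
    nlinarith
  have hP2 := hP.scale σ0
  have hB' := big B (le_trans (Nat.mul_le_mul_right _ (by omega)) hB)
  have ang : ∀ t ∈ (fun g => S.π g • S.o) '' P, ∀ t' ∈ (fun g => S.π g • S.o) '' P, ∀ i : J,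
      Cone.angle X Q.ne i (Cone.base t : Cone _ ρ) (Cone.base t') ≤ Θ := by
    intro t ht t' ht' i
    refine (hang i t t').trans ?_
    by_cases hl : 6 * 25 < X.d (Q.pj i t) (Q.pj i t')
    swap
    · omega
    have p2 := Q.pr2 (Q.pj_spec i t) (Q.pj_spec i t') hl
    have n1 : X.Near 275 t (Q.pj i t) t' := by
      have := X.d_tri (Q.pj i t) (Q.pj i t') t'
      unfold GS.Near
      omega
    have n2 : X.Near 275 t (Q.pj i t') t' := by
      have := X.d_tri t (Q.pj i t) (Q.pj i t')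
      unfold GS.Near
      omega
    have mv : ∀ y ∈ axis X r i, X.Near 275 t y t' → X.Near 361 (r i • t) y (r i • t') :=
      fun y hy h => (Γ.inv.near (r i) h).move (t := 43) (by rw [X.d_comm]; exact hy)
    have := le_of_overlap Γ.hyp (hP2 (r i) i.2 t ht t' ht' t ht t' ht')
      (hP2 (r i) i.2 t ht t' ht' t' ht' t ht) (mv _ (Q.pj_mem i t) n1) (mv _ (Q.pj_mem i t') n2)
      (n1.mono (by omega)) (n2.mono (by omega))
    omega
  have nb : ∀ (x : S.V) (i : J), (Cone.base x : Cone (axis X r) ρ) ≠ Cone.apex i :=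
    fun x i e => by cases e
  refine ⟨fun g hg h1 => ?_, 2 * (B + 2) + C0 + 8 * ρ, ?_⟩
  · refine rot_inj Fm (nb S.o) ((QuotientGroup.eq_one_iff _).1 h1) fun i => ?_
    exact ang _ ⟨1, P.one_mem, by simp⟩ _ ⟨g, hg, rfl⟩ i
  rintro a ha _ ⟨g1, h1, rfl⟩ _ ⟨g2, h2, rfl⟩ _ ⟨g3, h3, rfl⟩ _ ⟨g4, h4, rfl⟩
  have m1 : S.π g1 • S.o ∈ (fun g => S.π g • S.o) '' P := ⟨g1, h1, rfl⟩
  have m2 : S.π g2 • S.o ∈ (fun g => S.π g • S.o) '' P := ⟨g2, h2, rfl⟩
  have m3 : S.π g3 • S.o ∈ (fun g => S.π g • S.o) '' P := ⟨g3, h3, rfl⟩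
  have m4 : S.π g4 • S.o ∈ (fun g => S.π g • S.o) '' P := ⟨g4, h4, rfl⟩
  change CR _ _ (a • Orb.mk _ (Cone.base (S.π g1 • S.o))) (a • Orb.mk _ (Cone.base (S.π g2 • S.o)))
    (Orb.mk _ (Cone.base (S.π g3 • S.o))) (Orb.mk _ (Cone.base (S.π g4 • S.o)))
  generalize S.π g1 • S.o = t1 at m1
  generalize S.π g2 • S.o = t2 at m2
  generalize S.π g3 • S.o = s1 at m3
  generalize S.π g4 • S.o = s2 at m4
  obtain ⟨v, ev, dv1⟩ := GS.quot_lift (I := Fm.inv) (Cone.base s1)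
    (a • Orb.mk (rotAll Nf) (Cone.base t1 : Cone _ ρ))
  obtain ⟨a, rfl, rfl⟩ := Orb.exists_lift ev
  obtain ⟨n, hn, dn⟩ := GS.quot_lift' (N := rotAll Nf) (I := Fm.inv) (a • Cone.base t2)
    (Cone.base s2)
  obtain ⟨h, hh, b1, b2⟩ := rot_quad Fm (nb t1) (nb t2) (nb s1) (nb s2) (ang _ m1 _ m2)
    (ang _ m4 _ m3) hn a
  have ha' : S.ψ (h * a) ≠ 1 := by
    rw [map_mul, show S.ψ h = 1 from hker hh, one_mul]
    exact ha
  have k := hCR _ _ _ _ _ (hP2 _ ha' _ m1 _ m2 _ m3 _ m4) (hP2 _ ha' _ m1 _ m2 _ m4 _ m3)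
  have l1 := GS.quot_le (N := rotAll Nf) (I := Fm.inv) ((h * a) • Cone.base t1) (Cone.base s2)
  have l2 := GS.quot_le (N := rotAll Nf) (I := Fm.inv) ((h * a) • Cone.base t2) (Cone.base s1)
  rw [mul_smul, Orb.mk_smul_mem hh, ← mul_smul] at l1 l2
  rw [GS.d_comm] at b1
  rw [GS.d_comm (_ : GS (Orb _ _))] at dv1
  unfold CR at k ⊢
  simp only [Orb.smul_mk, ← Cone.smul_base] at *
  omega

end Pool.Agent.Lib.MP_513915_al
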