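import Pool.Agent.Lib.MP_e0e7d6_al.Base
import Pool.Agent.Lib.MP_e0e7d6_al.Limit
import Pool.Agent.Lib.MP_513915_al.Step
import Pool.Agent.Lib.MP_513915_al.Count

/-!
The recursion, the choice of the exponents and the limit group.
-/

namespace Pool.Agent.Lib.MP_513915_al

open Pool.Agent.Lib.MP_e0e7d6_al Filter

/-- The free group of rank two. -/
abbrev F2 : Type := FreeGroup (Fin 2)

/-- The exponent sum modulo three. -/
def chi : F2 →* C3 := FreeGroup.lift fun _ => Multiplicative.ofAdd 1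

theorem ball_free (R : ℕ) : ∃ s : Finset F2, s.card ≤ 5 ^ R ∧ ∀ g, FreeGroup.norm g ≤ R → g ∈ s := by
  induction R with
  | zero => exact ⟨{1}, by simp, fun g hg => by simpa using hg⟩
  | succ R ih =>
    obtain ⟨s, h1, h2⟩ := ih
    refine ⟨s ∪ ((Finset.univ : Finset (Fin 2 × Bool)) ×ˢ s).image
      fun x => FreeGroup.mk [x.1] * x.2, (Finset.card_union_le _ _).trans ?_, fun g hg => ?_⟩
    · have := Finset.card_image_le (s := (Finset.univ : Finset (Fin 2 × Bool)) ×ˢ s)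
        (f := fun x => FreeGroup.mk [x.1] * x.2)
      rw [Finset.card_product] at this
      simp only [Finset.card_univ, Fintype.card_prod, Fintype.card_fin, Fintype.card_bool] at this
      rw [pow_succ]
      omega
    · rcases e : g.toWord with _ | ⟨x, t⟩
      · exact Finset.mem_union_left _ (h2 g (by simp [FreeGroup.norm, e]))
      · refine Finset.mem_union_right _ (Finset.mem_image.2 ⟨(x, FreeGroup.mk t),
          Finset.mem_product.2 ⟨Finset.mem_univ _, h2 _ (FreeGroup.norm_mk_le.trans ?_)⟩, ?_⟩)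
        · simpa [FreeGroup.norm, e] using hg
        · rw [FreeGroup.mul_mk, List.singleton_append, ← e, FreeGroup.mk_toWord]

open Base FreeGroup in
theorem exists_stage0 : ∃ S : Stage chi, Function.Injective S.π := by
  let _ := act 41
  let X : GS Vx := (fgs : GS F2)
  let o : Vx := (1 : F2)
  have hI : X.Inv F2 := fun g x y => by
    show norm ((phi 41 g * (show F2 from x))⁻¹ * (phi 41 g * (show F2 from y))) =
        norm ((show F2 from x)⁻¹ * (show F2 from y))
    congr 1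
    group
  have ho : ∀ g : F2, X.d o (g • o) = 41 * norm g := fun g => by
    show norm ((1 : F2)⁻¹ * (phi (40 + 1) g * 1)) = _
    rw [inv_one, one_mul, mul_one, norm_phi]
  have htau : ∀ g : F2, g ≠ 1 → ((41 : ℕ) : ℝ) ≤ X.tau g := fun g hg =>
    hI.le_tau g o (C := 0) fun n => by
      rw [ho, add_zero]
      exact_mod_cast Nat.mul_le_mul_left _ (le_norm_pow hg n)
  have hdisp : ∀ g : F2, g ≠ 1 → ∀ y : Vx, 41 ≤ X.d y (g • y) := fun g hg y => by
    exact_mod_cast (htau g hg).trans (GS.tau_le_disp g y)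
  have hfin : ∀ g : F2, IsOfFinOrder g → g = 1 := fun g hg => by
    by_contra h
    have h1 := htau g h
    rw [hI.tau_of_finOrder o hg] at h1
    norm_num at h1
  have hb : ∀ (K : Subgroup F2) (x : Vx) (D : ℕ), (∀ k ∈ K, X.d x (k • x) ≤ D) → ∀ a ∈ K, a = 1 := by
    intro K x D hK a ha
    by_contra h1
    have h2 := GS.tau_mul_le_disp (X := X) a x (D + 1)
    have h3 := hK _ (K.pow_mem ha (D + 1))
    have h4 := htau a h1
    have h5 : (X.d x (a ^ (D + 1) • x) : ℝ) ≤ D := by exact_mod_cast h3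
    push_cast at h2 h4
    have : (0 : ℝ) ≤ D := by positivity
    nlinarith
  refine ⟨{ G := F2, V := Vx, X := X, o := o, π := MonoidHom.id _, surj := Function.surjective_id
            ψ := chi, hψ := fun _ => rfl, δ := 1, A := 0, m := 1, e := 0, Λ := 3
            good := ⟨⟨o⟩, le_rfl, by decide, by decide, hI, fgs_hyp.mono (Nat.zero_le _), ?_,
              ⟨0, ?_⟩, ?_, ?_, ?_⟩
            cyc := fun K x D hK => ⟨1, one_pow _, fun a ha => by
              rw [hb K x D hK a ha]; exact one_mem _⟩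
            ball := fun R => ?_ }, Function.injective_id⟩
  · intro g h x y hgh hx _ _ _
    have := hdisp g (fun e => hgh (e ▸ Commute.one_left h)) x
    omega
  · intro g hg hf
    exact absurd (hfin g hf) hg
  · intro K x D hK a ha b _
    rw [hb K x D hK a ha]
    exact Commute.one_left b
  · intro g hg
    have h4 := htau g fun e => hg (e ▸ IsOfFinOrder.one)
    push_cast at h4 ⊢
    linarith
  · intro g hg
    left
    rw [hfin g hg, one_pow]
  · obtain ⟨s, h1, h2⟩ := ball_free R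
    refine ⟨s, h1.trans ?_, fun g hg => h2 g (by rw [ho] at hg; omega)⟩
    rw [pow_mul]
    exact (Nat.pow_le_pow_left (by norm_num) R).trans (Nat.pow_le_pow_right (by norm_num) (by omega))

theorem polyexp (K d : ℕ) : ∃ t0, ∀ t, t0 ≤ t → K * (t + 1) ^ d ≤ 2 ^ t := by
  have h := (tendsto_pow_const_div_const_pow_of_one_lt d (r := 2) one_lt_two).comp
    (tendsto_add_atTop_nat 1)
  have p : (0 : ℝ) < 1 / (2 * K + 1) := by positivity
  obtain ⟨t0, h0⟩ := eventually_atTop.1 (h.eventually_le_const p)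
  refine ⟨t0, fun t ht => ?_⟩
  have h1 := h0 t ht
  simp only [Function.comp] at h1
  rw [div_le_div_iff₀ (by positivity) (by positivity), pow_succ (2 : ℝ)] at h1
  have h2 : (0 : ℝ) ≤ ((t + 1 : ℕ) : ℝ) ^ d := by positivity
  have h3 : (K : ℝ) * ((t + 1 : ℕ) : ℝ) ^ d ≤ 2 ^ t := by nlinarith
  exact_mod_cast h3

/-- The overlap bound for random tuples of words of length `n`. -/
def PP (W n : ℕ) : ℕ := 400000 * (72 * W ^ 2 * (Nat.log 2 n + 1)) ^ 13

theorem PP_mono {W W' : ℕ} (h : W ≤ W') (n : ℕ) : PP W n ≤ PP W' n := by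
  unfold PP
  gcongr

theorem exists_exp (C W w B n : ℕ) : ∃ e n', C ≤ e ∧ C * (B + 1) ≤ 3 ^ e ∧ n < n' ∧
    (∀ a < n', C * (PP W a + 1) ≤ 3 ^ e) ∧
    ∀ a, n' ≤ a → C + 3 ^ e ≤ a ∧ PP (C + C * 3 ^ e + w) a ≤ a := by
  obtain ⟨t0, h0⟩ := polyexp 1 26
  obtain ⟨M, hM⟩ : ∃ M, M = t0 + n + 220 + 52 * (2 * C + w + 3) := ⟨_, rfl⟩
  obtain ⟨e0, h1⟩ := polyexp (C * (400000 * (72 * W ^ 2 * M) ^ 13 + 1) + C * (B + 1)) 13
  obtain ⟨e, he⟩ : ∃ e, e = e0 + C := ⟨_, rfl⟩
  obtain ⟨v, hv⟩ : ∃ v, v = 2 * e + (2 * C + w + 1) := ⟨_, rfl⟩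
  obtain ⟨u, hu⟩ : ∃ u, u = t0 + n + 2 * (110 + 26 * v) := ⟨_, rfl⟩
  have a1 := (h1 e (by omega)).trans (Nat.pow_le_pow_left (show 2 ≤ 3 by omega) e)
  have a2 : 1 ≤ (e + 1) ^ 13 := Nat.one_le_pow _ _ (by omega)
  have a3 : 3 ^ e ≤ 2 ^ (2 * e) := by
    rw [pow_mul]
    exact Nat.pow_le_pow_left (by norm_num) e
  have a4 : C + (C + 1) * 3 ^ e + w ≤ 2 ^ v := by
    have b1 : 2 * C + w + 1 ≤ 2 ^ (2 * C + w + 1) := Nat.lt_two_pow_self.le
    have b2 : 1 ≤ 3 ^ e := Nat.one_le_pow _ _ (by omega)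
    rw [hv, pow_add]
    refine le_trans ?_ (Nat.mul_le_mul a3 b1)
    nlinarith
  rw [add_one_mul C] at a4
  refine ⟨e, 2 ^ u, by omega,
    le_trans (le_trans (Nat.le_add_left _ _) (Nat.le_mul_of_pos_right _ a2)) a1,
    lt_of_le_of_lt (show n ≤ u by omega) Nat.lt_two_pow_self, fun a ha => ?_, fun a ha => ?_⟩
  · refine le_trans ?_ a1
    have b1 : Nat.log 2 a + 1 ≤ M * (e + 1) := by
      have : Nat.log 2 a < u := Nat.log_lt_of_lt_pow' (by omega) ha
      nlinarith
    have b2 : PP W a ≤ 400000 * (72 * W ^ 2 * M) ^ 13 * (e + 1) ^ 13 := by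
      rw [mul_assoc, ← mul_pow, mul_assoc (72 * W ^ 2)]
      unfold PP
      gcongr
    have b3 := Nat.mul_le_mul_left C (Nat.add_le_add b2 a2)
    rw [← add_one_mul, ← mul_assoc] at b3
    exact b3.trans (Nat.mul_le_mul_right _ (Nat.le_add_right _ _))
  · have b0 : a ≠ 0 := (lt_of_lt_of_le (by positivity) ha).ne'
    have b1 : u ≤ Nat.log 2 a := Nat.le_log_of_pow_le one_lt_two ha
    have b2 : 2 ^ Nat.log 2 a ≤ a := Nat.pow_log_le_self 2 b0
    constructor
    · have : 2 ^ v ≤ 2 ^ u := Nat.pow_le_pow_right two_pos (by omega)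
      omega
    refine le_trans ?_ b2
    unfold PP
    generalize Nat.log 2 a = t at *
    have b3 := h0 t (by omega)
    have b4 : 400000 * (72 * (C + C * 3 ^ e + w) ^ 2) ^ 13 ≤ 2 ^ (110 + 26 * v) := by
      have : C + C * 3 ^ e + w ≤ 2 ^ v := by omega
      calc _ ≤ 2 ^ 19 * (2 ^ 7 * (2 ^ v) ^ 2) ^ 13 := by gcongr <;> norm_num
        _ = _ := by ring
    have b5 : 2 ^ (110 + 26 * v) * 2 ^ (110 + 26 * v) ≤ 2 ^ t := by
      rw [← pow_add]
      exact Nat.pow_le_pow_right two_pos (by omega)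
    rw [mul_pow, ← mul_assoc]
    refine (Nat.mul_le_mul_right _ b4).trans (Nat.mul_self_le_mul_self_iff.1 ?_)
    calc _ = 2 ^ (110 + 26 * v) * 2 ^ (110 + 26 * v) * (1 * (t + 1) ^ 26) := by ring
      _ ≤ _ := Nat.mul_le_mul b5 b3

variable {F : Type} [Group F] {χ : F →* C3}

/-- The subgroup `P` survives the passage from `S` to `S'`. -/
def Surv (S S' : Stage χ) (P : Subgroup F) : Prop :=
  (∀ g ∈ P, S'.π g = 1 → S.π g = 1) ∧ ∃ B, S'.Sep P B

theorem exists_next (S : Stage χ) (f : F) (w n : ℕ) (Q : Set (Subgroup F)) (hQ : Q.Finite) :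
    ∃ (S' : Stage χ) (n' : ℕ), (∀ g, S.π g = 1 → S'.π g = 1) ∧
      (χ f ≠ 1 → IsOfFinOrder (S'.π f)) ∧ (∀ g, S'.dsp g ≤ S.dsp g) ∧ n < n' ∧
      (∀ P ∈ Q, (∃ B, S.Sep P B) → Surv S S' P) ∧
      (∀ P, ∀ a < n', S.Sep P (PP (S.δ + S.Λ + w) a) → Surv S S' P) ∧
      ∀ a, n' ≤ a → S'.m + 3 ^ S'.e ≤ a ∧ PP (S'.δ + S'.Λ + (w + 1)) a ≤ a := by
  obtain ⟨C, hC⟩ := exists_step S f
  obtain ⟨B, hB⟩ : ∃ B, ∀ P ∈ Q, (∃ B, S.Sep P B) → S.Sep P B := by
    have : ∀ P : Subgroup F, ∃ B, (∃ B, S.Sep P B) → S.Sep P B := fun P => by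
      by_cases h : ∃ B, S.Sep P B
      · exact h.imp fun _ h _ => h
      · exact ⟨0, fun h' => (h h').elim⟩
    choose b hb using this
    obtain ⟨B, hB⟩ := (hQ.image b).bddAbove
    exact ⟨B, fun P hP h => GM.mono (hb P h) (hB ⟨P, hP, rfl⟩)⟩
  obtain ⟨e, n', h1, h2, h3, h4, h5⟩ := exists_exp C (S.δ + S.Λ + w) (w + 1) B n
  obtain ⟨S', a1, a2, a3, a4, a5, a6, a7, a8⟩ := hC e h1
  refine ⟨S', n', a1, a2, a7, h3, fun P hP h => a8 P B (hB P hP h) h2,
    fun P a ha h => a8 P _ h (h4 a ha), fun a ha => ?_⟩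
  have := h5 a ha
  rw [a3]
  exact ⟨by omega, (PP_mono (by omega) a).trans this.2⟩

open Classical in
theorem stage_prob (S : Stage χ) {A : Type} [Fintype A] [Nonempty A] (φ : A → F)
    (hφ : ∀ s, χ (φ s) = 1) {c k w n : ℕ} [NeZero n] (hc : 1 ≤ c) (hg : Gap (fun s => S.π (φ s)) c)
    (hk : 1 ≤ k) (h1 : ∀ s, S.dsp (φ s) ≤ w) (h2 : c ≤ w) (h3 : k ≤ w)
    (h4 : S.m + 3 ^ S.e ≤ n) (h5 : PP (S.δ + S.Λ + w) n ≤ n) :
    (Finset.univ.filter fun ω : Fin k × Fin n → A => ¬ ∀ l : Fin k → ℕ, (∀ j, n ≤ 2 * l j) →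
      (∀ j, l j ≤ n) →
        (∀ u, S.π (FreeGroup.lift (fun j => evalWord φ (trunc ω l j)) u) = 1 → u = 1) ∧
        S.Sep (FreeGroup.lift fun j => evalWord φ (trunc ω l j)).range
          (PP (S.δ + S.Λ + w) n)).card * (n + 1) ≤ Fintype.card (Fin k × Fin n → A) := by
  have hτ : n + 1 ≤ 2 ^ (Nat.log 2 n + 1) := Nat.lt_pow_succ_log_self one_lt_two n
  refine le_trans (Nat.mul_le_mul (Finset.card_le_card fun ω hω => ?_) hτ)
    (prob_main (ψ := S.ψ) (φ := fun s => S.π (φ s)) (o := S.o) (W := S.δ + S.Λ + w)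
      (fun s => (S.hψ _).trans (hφ s)) S.good S.cyc hc hg (fun s => (h1 s).trans (by omega)) S.ball
      hτ hk h4 (by omega) (by omega) (by omega) (by omega) h5)
  simp only [Finset.mem_filter, Finset.mem_univ, true_and] at hω ⊢
  refine fun h => hω fun l l1 l2 => ?_
  obtain ⟨a1, a2⟩ := h l l1 l2
  have e : ∀ u, S.π (FreeGroup.lift (fun j => evalWord φ (trunc ω l j)) u) =
      FreeGroup.lift (fun j => pr (fun s => S.π (φ s)) ω j (l j)) u := fun u => by
    have : S.π.comp (FreeGroup.lift fun j => evalWord φ (trunc ω l j)) =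
        FreeGroup.lift fun j => pr (fun s => S.π (φ s)) ω j (l j) :=
      FreeGroup.ext_hom _ _ fun j => by
        simp only [MonoidHom.comp_apply, FreeGroup.lift_apply_of, ← eval_trunc, evalWord,
          map_list_prod, List.map_map]
        rfl
    exact DFunLike.congr_fun this u
  refine ⟨fun u hu => (injective_iff_map_eq_one _).1 a1 u (e u ▸ hu), ?_⟩
  rintro a ha _ ⟨_, ⟨u1, rfl⟩, rfl⟩ _ ⟨_, ⟨u2, rfl⟩, rfl⟩ _ ⟨_, ⟨u3, rfl⟩, rfl⟩ _ ⟨_, ⟨u4, rfl⟩, rfl⟩
  simp only [e]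
  exact a2 a ha _ ⟨u1, rfl⟩ _ ⟨u2, rfl⟩ _ ⟨u3, rfl⟩ _ ⟨u4, rfl⟩

theorem dsp_eval (S : Stage χ) {A : Type} (φ : A → F) {L : ℕ} (h : ∀ s, S.dsp (φ s) ≤ L)
    (w : List A) : S.dsp (evalWord φ w) ≤ L * w.length := by
  unfold Stage.dsp evalWord at *
  induction w with
  | nil => simp [S.X.d_self]
  | cons a w ih =>
    have := S.good.inv.disp_mul (S.π (φ a)) (S.π (w.map φ).prod) S.o
    have := h a
    rw [List.map_cons, List.prod_cons, map_mul, List.length_cons, Nat.mul_succ]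
    omega

theorem chi_eval {A B : Type} [Group B] (ψ : F →* B) (φ : A → F) (h : ∀ s, ψ (φ s) = 1)
    (w : List A) : ψ (evalWord φ w) = 1 := by
  unfold evalWord
  induction w with
  | nil => simp
  | cons a w ih => rw [List.map_cons, List.prod_cons, map_mul, h, ih, one_mul]

theorem inj_pow {G : Type} [Group G] (g : Fin 2 → G) (l : ℕ)
    (h : ∀ u, FreeGroup.lift g u = 1 → u = 1) :
    Function.Injective (FreeGroup.lift fun i => g i ^ (l + 1)) := by
  refine (injective_iff_map_eq_one _).2 fun u hu => ?_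
  have e : (FreeGroup.lift fun i => g i ^ (l + 1)) = (FreeGroup.lift g).comp (Base.phi (l + 1)) :=
    FreeGroup.ext_hom _ _ fun i => by simp [Base.phi]
  rw [e] at hu
  have h1 := Base.norm_phi l u
  rw [h _ hu, FreeGroup.norm_one] at h1
  exact FreeGroup.norm_eq_zero.1 ((Nat.mul_eq_zero.1 h1.symm).resolve_left (by omega))

theorem map_lift {G H : Type} [Group G] [Group H] {k : ℕ} (π : G →* H) (g : Fin k → G)
    (u : FreeGroup (Fin k)) : π (FreeGroup.lift g u) = FreeGroup.lift (fun i => π (g i)) u := by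
  have : π.comp (FreeGroup.lift g) = FreeGroup.lift fun i => π (g i) :=
    FreeGroup.ext_hom _ _ fun i => by simp
  exact DFunLike.congr_fun this u

theorem exists_pair (S : Stage chi) (hS : Function.Injective S.π) : ∃ g : Fin 2 → F2,
    (∀ i, chi (g i) = 1) ∧ (∀ u, S.π (FreeGroup.lift g u) = 1 → u = 1) ∧
    ∃ B, S.Sep (FreeGroup.lift g).range B := by
  classical
  let φ : Option (Fin 2) → F2 := fun s => s.elim 1 fun i => FreeGroup.of i ^ (2 + 1)
  have hφ : ∀ s, chi (φ s) = 1 := by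
    rintro (_ | i)
    · exact map_one _
    · show chi (FreeGroup.of i ^ (2 + 1)) = 1
      rw [map_pow, chi, FreeGroup.lift_apply_of]
      decide
  obtain ⟨c, hc, hg⟩ := exists_gap φ (fun i => FreeGroup.of i ^ (2 + 1)) fun i =>
    Subgroup.subset_closure ⟨none, some i, by simp [φ]⟩
  have hg := hg S.G S.π (by
    simp only [map_pow]
    refine inj_pow _ 2 fun u hu => hS ?_
    rw [← map_lift, FreeGroup.lift_of_eq_id] at hu
    rw [map_one]
    exact hu)
  obtain ⟨w, hw⟩ : ∃ w, w = c + 2 + ∑ s, S.dsp (φ s) := ⟨_, rfl⟩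
  obtain ⟨e, n, -, -, h1, -, h2⟩ := exists_exp (S.m + 3 ^ S.e) 0 (S.δ + S.Λ + w) 0 0
  have : NeZero n := ⟨h1.ne'⟩
  have h3 := h2 n le_rfl
  have key := stage_prob S φ hφ (k := 2) (w := w) (n := n) hc hg (by omega)
    (fun s => (Finset.single_le_sum (f := fun s => S.dsp (φ s)) (fun _ _ => Nat.zero_le _)
      (Finset.mem_univ s)).trans (by omega)) (by omega) (by omega)
    ((Nat.le_add_right _ _).trans h3.1) ((PP_mono (Nat.le_add_left _ _) n).trans h3.2)
  by_contra hne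
  rw [Finset.filter_true_of_mem, Finset.card_univ] at key
  · have := Fintype.card_pos (α := Fin 2 × Fin n → Option (Fin 2))
    nlinarith
  · intro ω _ h
    obtain ⟨a1, a2⟩ := h (fun _ => n) (fun _ => by omega) fun _ => le_rfl
    exact hne ⟨_, fun i => chi_eval _ φ hφ _, a1, _, a2⟩

theorem sq_mem {G A : Type} [Group G] {φ : A → G} (h : IsAlphabet φ) (x : G) :
    x ^ 2 ∈ Subgroup.closure {a | ∃ s t, a = φ t * (φ s)⁻¹} := by
  set K := Subgroup.closure {a | ∃ s t, a = φ t * (φ s)⁻¹} with hK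
  have key : ∀ x : G, x ∈ K ∨ ((∃ s, φ s * x ∈ K) ∧ ∀ s, φ s * x ∈ K) := by
    intro x
    have hx : x ∈ Subgroup.closure (Set.range φ) := h.1 ▸ Subgroup.mem_top x
    have st : ∀ t y, (y ∈ K ∨ ((∃ s, φ s * y ∈ K) ∧ ∀ s, φ s * y ∈ K)) →
        (φ t * y ∈ K ∨ ((∃ s, φ s * (φ t * y) ∈ K) ∧ ∀ s, φ s * (φ t * y) ∈ K)) := by
      rintro t y (hy | hy)
      · have : ∀ s, φ s * (φ t * y) ∈ K := fun s => by
          obtain ⟨t', ht⟩ := h.2 t
          rw [← mul_assoc]
          exact K.mul_mem (Subgroup.subset_closure ⟨t', s, by rw [ht, inv_inv]⟩) hy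
        exact Or.inr ⟨⟨t, this t⟩, this⟩
      · exact Or.inl (hy.2 t)
    induction hx using Subgroup.closure_induction_left with
    | one => exact Or.inl K.one_mem
    | mul_left _ hx y _ ih =>
      obtain ⟨t, rfl⟩ := hx
      exact st t y ih
    | inv_mul_cancel _ hx y _ ih =>
      obtain ⟨t, rfl⟩ := hx
      obtain ⟨t', ht⟩ := h.2 t
      rw [← ht]
      exact st t' y ih
  rcases key x with h1 | ⟨⟨s, h1⟩, -⟩
  · exact K.pow_mem h1 2
  rcases key x⁻¹ with h2 | ⟨-, h2⟩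
  · exact K.pow_mem (inv_mem_iff.1 h2) 2
  · have := K.mul_mem (K.inv_mem (h2 s)) h1
    rwa [show (φ s * x⁻¹)⁻¹ * (φ s * x) = x ^ 2 by rw [pow_two]; group] at this

theorem main : ∃ (G : Type) (_ : Group G) (H : Subgroup G), Group.FG G ∧ H.FiniteIndex ∧ GFBP H ∧
    ∀ (S : Type) [Finite S] (φ : S → G), IsAlphabet φ → ¬ GenericFree φ 1 := by
  classical
  obtain ⟨S0, hS0⟩ := exists_stage0
  obtain ⟨g0, g1, g2, g3⟩ := exists_pair S0 hS0
  obtain ⟨f, hf⟩ := exists_surjective_nat F2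
  let Q : ℕ → Set (Subgroup F2) := fun n =>
    Subgroup.closure '' {A | A ⊆ {g | S0.dsp g ≤ n * n}}
  have hQ : ∀ n, (Q n).Finite := fun n => by
    refine (Set.Finite.finite_subsets ?_).image _
    obtain ⟨s, -, hs⟩ := S0.ball (n * n)
    exact (s.finite_toSet.preimage hS0.injOn).subset fun g hg => hs _ hg
  have mQ : ∀ {k n : ℕ} (g : Fin k → F2), (∀ j, S0.dsp (g j) ≤ n * n) →
      (FreeGroup.lift g).range ∈ Q n := fun g h =>
    ⟨Set.range g, by rintro _ ⟨j, rfl⟩; exact h j, FreeGroup.range_lift_eq_closure.symm⟩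
  choose nx nn a1 a2 a3 a4 a5 a6 a7 using fun (i : ℕ) (x : Stage chi × ℕ) =>
    exists_next x.1 (f i) i x.2 (Q x.2) (hQ x.2)
  let St : ℕ → Stage chi × ℕ := fun i =>
    Nat.rec (S0, S0.dsp (g0 0) + S0.dsp (g0 1)) (fun i x => (nx i x, nn i x)) i
  have hm : ∀ i g, (St i).1.π g = 1 → (St (i + 1)).1.π g = 1 := fun i => a1 i (St i)
  have nm : StrictMono fun i => (St i).2 := strictMono_nat_of_lt_succ fun i => a4 i (St i)
  have dm : ∀ i g, (St i).1.dsp g ≤ S0.dsp g := fun i g => by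
    induction i with
    | zero => exact le_rfl
    | succ i ih => exact (a3 i (St i) g).trans ih
  obtain ⟨G, _, ρ, Λ⟩ := exists_isLim (fun i => (St i).1.π) hm
  have pers : ∀ {k : ℕ} (g : Fin k → F2) (i : ℕ), (∀ j, S0.dsp (g j) ≤ (St i).2 * (St i).2) →
      (∀ u, (St i).1.π (FreeGroup.lift g u) = 1 → u = 1) →
      (∃ B, (St i).1.Sep (FreeGroup.lift g).range B) →
      ∀ r, i ≤ r → ∀ u, (St r).1.π (FreeGroup.lift g u) = 1 → u = 1 := by
    intro k g i h1 h2 h3 r hr
    have : (∀ u, (St r).1.π (FreeGroup.lift g u) = 1 → u = 1) ∧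
        ∃ B, (St r).1.Sep (FreeGroup.lift g).range B := by
      induction r, hr using Nat.le_induction with
      | base => exact ⟨h2, h3⟩
      | succ r hr ih =>
        have := a5 r (St r) _ (mQ g fun j =>
          (h1 j).trans (Nat.mul_self_le_mul_self (nm.monotone hr))) ih.2
        exact ⟨fun u hu => ih.1 u (this.1 _ ⟨u, rfl⟩ hu), this.2⟩
    exact this.1
  have g4 := pers g0 0 (fun j => by
    show _ ≤ (S0.dsp (g0 0) + S0.dsp (g0 1)) * (S0.dsp (g0 0) + S0.dsp (g0 1))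
    refine le_trans ?_ (Nat.le_mul_self _)
    fin_cases j <;> simp) g2 g3
  have hk : ρ.ker ≤ chi.ker := fun g hg => by
    obtain ⟨i, hi⟩ := (Λ.one_down hg).exists
    show chi g = 1
    rw [← (St i).1.hψ, hi, map_one]
  let ψ : G →* C3 := ρ.liftOfSurjective Λ.surj ⟨chi, hk⟩
  have hψ : ∀ g, ψ (ρ g) = chi g := fun g => ρ.liftOfRightInverse_comp_apply _ _ _ g
  refine ⟨G, inferInstance, ψ.ker, Group.fg_of_surjective Λ.surj, inferInstance,
    fun A _ φ' hA k hk => ?_, fun A _ φ hA => ?_⟩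
  · have := Fintype.ofFinite A
    choose φ hφ using fun s => Λ.surj (φ' s)
    have c1 : ∀ s, chi (φ s) = 1 := fun s => by rw [← hψ, hφ]; exact (φ' s).2
    have ex : ∀ i, ∃ u ∈ Subgroup.closure {a | ∃ s t, a = φ t * (φ s)⁻¹}, ρ u = ρ (g0 i ^ 2) := by
      intro i
      have h1 := Subgroup.mem_map_of_mem ψ.ker.subtype
        (sq_mem hA ⟨ρ (g0 i), (hψ _).trans (g1 i)⟩)
      rw [MonoidHom.map_closure] at h1
      refine Subgroup.mem_map.1 ?_
      rw [MonoidHom.map_closure, map_pow]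
      refine Subgroup.closure_mono ?_ h1
      rintro _ ⟨_, ⟨s, t, rfl⟩, rfl⟩
      exact ⟨_, ⟨s, t, rfl⟩, by simp [hφ]⟩
    choose u hu1 hu2 using ex
    have ev1 : ∀ᶠ r in atTop, Function.Injective (FreeGroup.lift fun i => (St r).1.π (u i)) := by
      filter_upwards [eventually_all.2 fun i => Λ.down _ _ (hu2 i)] with r hr
      simp only [hr, map_pow]
      exact inj_pow _ 1 fun v hv => g4 r (Nat.zero_le _) v (by rwa [map_lift])
    have : Nontrivial A := by
      by_contra hn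
      have := not_nontrivial_iff_subsingleton.1 hn
      obtain ⟨r, hr⟩ := ev1.exists
      have h1 : u 0 = 1 := by
        refine Subgroup.mem_bot.1 ((Subgroup.closure_le ⊥).2 ?_ (hu1 0))
        rintro _ ⟨s, t, rfl⟩
        rw [Subsingleton.elim s t]
        simp
      exact FreeGroup.of_ne_one 0 ((injective_iff_map_eq_one _).1 hr _ (by simp [h1]))
    obtain ⟨c, hc, hg⟩ := exists_gap φ u hu1
    obtain ⟨L, hL⟩ : ∃ L, ∀ s, S0.dsp (φ s) ≤ L := ⟨∑ s, S0.dsp (φ s), fun s =>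
      Finset.single_le_sum (f := fun s => S0.dsp (φ s)) (fun _ _ => Nat.zero_le _)
        (Finset.mem_univ s)⟩
    obtain ⟨i0, hi0⟩ := eventually_atTop.1 ev1
    refine generic_of _ ?_
    filter_upwards [eventually_ge_atTop (St (i0 + c + k + L + 1)).2] with n hn
    have ex : ∃ i, n < (St (i + 1)).2 := ⟨n, nm.le_apply (x := n + 1)⟩
    have i1 := Nat.find_spec ex
    obtain ⟨i, hi⟩ : ∃ i, Nat.find ex = i + 1 ∧ i0 + c + k + L ≤ i := by
      have := (nm.lt_iff_lt (a := i0 + c + k + L + 1) (b := Nat.find ex + 1)).1 (hn.trans_lt i1)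
      exact ⟨Nat.find ex - 1, by omega, by omega⟩
    have i2 := not_lt.1 (Nat.find_min ex (m := i) (by omega))
    rw [hi.1] at i1
    have i3 : i + 1 ≤ n := (nm.le_apply (x := i + 1)).trans i2
    have : NeZero n := ⟨by omega⟩
    have key := long_bad (M := n + 1) (fun w : Fin k → List A =>
      (∀ v, (St (i + 1)).1.π (FreeGroup.lift (fun j => evalWord φ (w j)) v) = 1 → v = 1) ∧
        (St (i + 1)).1.Sep (FreeGroup.lift fun j => evalWord φ (w j)).range
          (PP ((St (i + 1)).1.δ + (St (i + 1)).1.Λ + (i + 1)) n))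
      (by
        convert stage_prob (St (i + 1)).1 φ c1 (w := i + 1) (n := n) hc
          (hg _ _ (hi0 (i + 1) (by omega))) hk
          (fun s => (dm (i + 1) _).trans ((hL s).trans (by omega)))
          (by omega) (by omega) (a7 i (St i) n i2).1 (a7 i (St i) n i2).2)
    refine le_trans (Nat.mul_le_mul (Set.ncard_le_ncard (fun w hw => ?_)
      ((disk_finite k n).subset fun _ h => h.1)) (Nat.le_succ n)) key
    refine ⟨hw.1, hw.2.1, fun h => ?_⟩
    have s1 := a6 (i + 1) (St (i + 1)) _ n i1 h.2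
    have s2 := pers (fun j => evalWord φ (w j)) (i + 1 + 1)
      (fun j => (dsp_eval S0 φ hL _).trans (Nat.mul_le_mul (by omega) ((hw.1 j).trans i1.le)))
      (fun v hv => h.1 v (s1.1 _ ⟨v, rfl⟩ hv)) s1.2
    have s3 : Function.Injective (FreeGroup.lift fun j => evalWord φ' (w j)) := by
      refine (injective_iff_map_eq_one _).2 fun v hv => ?_
      have e : ρ (FreeGroup.lift (fun j => evalWord φ (w j)) v) = 1 := by
        have := congrArg ψ.ker.subtype hv
        rw [map_lift, map_one] at this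
        rw [map_lift, ← this]
        simp only [evalWord, map_list_prod, List.map_map, Function.comp_def, hφ,
          Subgroup.subtype_apply]
      obtain ⟨r, r1, r2⟩ := ((Λ.one_down e).and (eventually_ge_atTop (i + 1 + 1))).exists
      exact s2 r r2 v r1
    exact hw.2.2 ⟨(MulEquiv.subgroupCongr FreeGroup.range_lift_eq_closure).symm.trans
      (MonoidHom.ofInjective s3).symm⟩
  · have := Fintype.ofFinite A
    obtain ⟨s, hs⟩ : ∃ s, ψ (φ s) ≠ 1 := by
      by_contra hn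
      push Not at hn
      have h1 : Subgroup.closure (Set.range φ) ≤ ψ.ker :=
        (Subgroup.closure_le _).2 (by rintro _ ⟨s, rfl⟩; exact hn s)
      have h2 : ψ (ρ (FreeGroup.of 0)) = 1 := h1 (hA.1 ▸ Subgroup.mem_top _)
      rw [hψ, chi, FreeGroup.lift_apply_of] at h2
      revert h2
      decide
    refine not_generic ψ φ hs _ fun w ⟨e⟩ => ?_
    by_contra hne
    obtain ⟨g, hg⟩ := Λ.surj (evalWord φ (w 0))
    obtain ⟨i, rfl⟩ := hf g
    obtain ⟨n, n0, hn⟩ := isOfFinOrder_iff_pow_eq_one.1 (a2 i (St i) (by rwa [← hψ, hg]))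
    have h1 : IsOfFinOrder (evalWord φ (w 0)) := isOfFinOrder_iff_pow_eq_one.2 ⟨n, n0, by
      rw [← hg, ← map_pow]
      exact Λ.one_up (k := i + 1) ((map_pow _ _ _).trans hn)⟩
    have h2 : Subgroup.closure (Set.range fun j : Fin 1 => evalWord φ (w j)) =
        Subgroup.zpowers (evalWord φ (w 0)) := by
      rw [Subgroup.zpowers_eq_closure, Set.range_unique]
      rfl
    rw [h2] at e
    have : Finite (Subgroup.zpowers (evalWord φ (w 0))) := h1.finite_zpowers
    exact not_finite_iff_infinite.2 (inferInstance : Infinite (FreeGroup (Fin 1)))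
      (Finite.of_equiv _ e.toEquiv)

end Pool.Agent.Lib.MP_513915_al
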